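import Pool.Agent.H57.BJ.BUC

/-!
# [H57 BJ BUD] Uniform division by polynomials with a nonzero limit

Fix `s₀` with `‖s₀‖ ≤ r`. Since `B ≠ 0` there is `v` (`‖v‖ ≤ 1`) with `t ↦ ev B (s₀ + t v)` not identically zero (otherwise `ev B = 0`,
`MvPolynomial.funext`); this is an entire function of `t` with isolated zeros, so there is `ρ ∈ (0, 1)` such that it has no zero with
`|t| = ρ`, its modulus is `≥ 4 η > 0` there (compactness). By uniform continuity of `ev B` on `closedBall 0 (r + 3)` there is a ball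
`U` about `s₀` with `|ev B (s + t v)| ≥ 2 η` for `s ∈ U`, `|t| = ρ`, and by `ev_unif` `|ev (Q k) (s + t v)| ≥ η` for `s ∈ U`, `|t| = ρ`, for almost all
`k` (along the hyperfilter). Maximum principle in the disc `|t| ≤ ρ` for `t ↦ g k (s + t v)`
(`Complex.norm_le_of_forall_mem_frontier_norm_le`): `‖g k s‖ ≤ M/η` for `s ∈ U`, where `M` bounds `Q_k g_k` on the ball of radius
`r + 3`. Compactness of `closedBall 0 r`: finitely many `U` (finite intersections of hyperfilter-large sets).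
-/

set_option autoImplicit false

open MvPolynomial Pool.Agent.H60
open scoped Topology

noncomputable section

namespace Pool.Agent.H57.BJ

variable {n : ℕ}

theorem bud_line {B : MvPolynomial (Fin n) ℂ} (hB : B ≠ 0) (s₀ : V n) :
    ∃ (v : V n) (ρ : ℝ), ‖v‖ ≤ 1 ∧ 0 < ρ ∧ ρ < 1 ∧
      ∀ t : ℂ, ‖t‖ = ρ → ev B (s₀ + t • v) ≠ 0 := by
  obtain ⟨w, hw⟩ : ∃ w : V n, ev B w ≠ 0 := by
    by_contra hcon
    push Not at hcon
    refine hB (MvPolynomial.funext fun x => ?_)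
    rw [map_zero]
    exact hcon x
  obtain ⟨c, hc⟩ : ∃ c : ℝ, c = 1 + ‖w - s₀‖ := ⟨_, rfl⟩
  have hc0 : 0 < c := by rw [hc]; positivity
  obtain ⟨v, hv⟩ : ∃ v : V n, v = ((c : ℂ)⁻¹) • (w - s₀) := ⟨_, rfl⟩
  have hvn : ‖v‖ ≤ 1 := by
    rw [hv, norm_smul, norm_inv, Complex.norm_real, Real.norm_eq_abs, abs_of_pos hc0,
      inv_mul_le_iff₀ hc0, hc]
    linarith
  have hwv : s₀ + (c : ℂ) • v = w := by
    have hcc : (c : ℂ) ≠ 0 := by exact_mod_cast hc0.ne'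
    rw [hv, smul_smul, mul_inv_cancel₀ hcc, one_smul, add_sub_cancel]
  have hF : Differentiable ℂ (fun t : ℂ => ev B (s₀ + t • v)) := by
    refine (differentiable_ev B).comp ?_
    exact (differentiable_const s₀).add (differentiable_id.smul_const v)
  have hFa : AnalyticOnNhd ℂ (fun t : ℂ => ev B (s₀ + t • v)) Set.univ := fun t _ =>
    hF.analyticAt t
  have hne : ∀ᶠ t in 𝓝[≠] (0 : ℂ), ev B (s₀ + t • v) ≠ 0 := by
    rcases (hFa 0 (Set.mem_univ _)).eventually_eq_zero_or_eventually_ne_zero with h | h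
    · exfalso
      have h1 : (fun t : ℂ => ev B (s₀ + t • v)) = fun _ => 0 :=
        hFa.eq_of_eventuallyEq (analyticOnNhd_const) h
      have h2 := congrFun h1 (c : ℂ)
      simp only [hwv] at h2
      exact hw h2
    · exact h
  rw [eventually_nhdsWithin_iff, Metric.eventually_nhds_iff] at hne
  obtain ⟨e, he, hne⟩ := hne
  have hm : 0 < min (e / 2) (1 / 2) := lt_min (by linarith) (by norm_num)
  refine ⟨v, min (e / 2) (1 / 2), hvn, hm, (min_le_right _ _).trans_lt (by norm_num), ?_⟩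
  intro t ht
  refine hne ?_ ?_
  · rw [dist_zero_right, ht]
    exact (min_le_left _ _).trans_lt (by linarith)
  · intro h0
    rw [Set.mem_singleton_iff.mp h0, norm_zero] at ht
    exact hm.ne ht

theorem bud_local (Q : ℕ → MvPolynomial (Fin n) ℂ) (B : MvPolynomial (Fin n) ℂ) (d : ℕ)
    (hd : ∀ k, (Q k).totalDegree ≤ d) (h : CoefTendsto Q B) (hB : B ≠ 0) (g : ℕ → V n → ℂ)
    (hg : ∀ k, Differentiable ℂ (g k))
    (hb : ∀ r : ℝ, ∃ M : ℝ, ∀ᶠ k in (Filter.hyperfilter ℕ : Filter ℕ), ∀ s : V n, ‖s‖ ≤ r →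
      ‖ev (Q k) s * g k s‖ ≤ M) (s₀ : V n) :
    ∃ U ∈ 𝓝 s₀, ∃ M : ℝ, ∀ᶠ k in (Filter.hyperfilter ℕ : Filter ℕ), ∀ s ∈ U, ‖g k s‖ ≤ M := by
  obtain ⟨v, ρ, hv, hρ, hρ1, hne⟩ := bud_line hB s₀
  have hcB : Continuous (ev B) := (differentiable_ev B).continuous
  have hcp : IsCompact (Metric.sphere (0 : ℂ) ρ) := isCompact_sphere 0 ρ
  have hcn : (Metric.sphere (0 : ℂ) ρ).Nonempty := NormedSpace.sphere_nonempty.mpr hρ.le
  have hcF : Continuous fun t : ℂ => ‖ev B (s₀ + t • v)‖ := by fun_prop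
  obtain ⟨t₀, ht₀, hmin⟩ := hcp.exists_isMinOn hcn hcF.continuousOn
  obtain ⟨η, hη⟩ : ∃ η : ℝ, η = ‖ev B (s₀ + t₀ • v)‖ / 4 := ⟨_, rfl⟩
  have hη0 : 0 < η := by
    rw [hη]
    have := norm_pos_iff.mpr (hne t₀ (mem_sphere_zero_iff_norm.mp ht₀))
    linarith
  have hU1 : ∀ᶠ s in 𝓝 s₀, ∀ t ∈ Metric.sphere (0 : ℂ) ρ, 2 * η < ‖ev B (s + t • v)‖ := by
    refine hcp.eventually_forall_of_forall_eventually fun t ht => ?_
    have h1 : Continuous fun p : V n × ℂ => ‖ev B (p.1 + p.2 • v)‖ := by fun_prop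
    refine (h1.tendsto (s₀, t)).eventually (lt_mem_nhds ?_)
    have h2 : ‖ev B (s₀ + t₀ • v)‖ ≤ ‖ev B (s₀ + t • v)‖ := hmin ht
    show 2 * η < ‖ev B (s₀ + t • v)‖
    linarith
  have hU2 : ∀ᶠ s in 𝓝 s₀, ‖s - s₀‖ ≤ 1 := by
    have h1 : Metric.closedBall s₀ 1 ∈ 𝓝 s₀ := Metric.closedBall_mem_nhds _ one_pos
    filter_upwards [h1] with s hs
    rwa [Metric.mem_closedBall, dist_eq_norm] at hs
  obtain ⟨M, hM⟩ := hb (‖s₀‖ + 2)
  refine ⟨{s | (∀ t ∈ Metric.sphere (0 : ℂ) ρ, 2 * η < ‖ev B (s + t • v)‖) ∧ ‖s - s₀‖ ≤ 1},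
    hU1.and hU2, M / η, ?_⟩
  filter_upwards [hM, ev_unif Q B d hd h (‖s₀‖ + 2) η hη0] with k hk1 hk2 s hs
  have hx : ∀ t ∈ Metric.sphere (0 : ℂ) ρ, ‖s + t • v‖ ≤ ‖s₀‖ + 2 := by
    intro t ht
    rw [mem_sphere_zero_iff_norm] at ht
    have e1 : ‖t • v‖ ≤ 1 := by
      rw [norm_smul, ht]
      exact mul_le_one₀ hρ1.le (norm_nonneg _) hv
    calc ‖s + t • v‖ = ‖s₀ + (s - s₀) + t • v‖ := by rw [add_sub_cancel]
      _ ≤ ‖s₀‖ + ‖s - s₀‖ + ‖t • v‖ := norm_add₃_le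
      _ ≤ ‖s₀‖ + 2 := by linarith [hs.2]
  have hbd : ∀ t ∈ Metric.sphere (0 : ℂ) ρ, ‖g k (s + t • v)‖ ≤ M / η := by
    intro t ht
    have e1 := hs.1 t ht
    have e2 := hk2 _ (hx t ht)
    have e3 := hk1 _ (hx t ht)
    have e4 : η ≤ ‖ev (Q k) (s + t • v)‖ := by
      have e5 : ‖ev B (s + t • v)‖ ≤ ‖ev (Q k) (s + t • v)‖ +
          ‖ev (Q k) (s + t • v) - ev B (s + t • v)‖ := by
        have := norm_sub_norm_le (ev B (s + t • v)) (ev (Q k) (s + t • v))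
        rw [norm_sub_rev] at this
        linarith
      linarith
    rw [norm_mul] at e3
    rw [le_div_iff₀ hη0]
    calc ‖g k (s + t • v)‖ * η ≤ ‖g k (s + t • v)‖ * ‖ev (Q k) (s + t • v)‖ :=
          mul_le_mul_of_nonneg_left e4 (norm_nonneg _)
      _ = ‖ev (Q k) (s + t • v)‖ * ‖g k (s + t • v)‖ := mul_comm _ _
      _ ≤ M := e3
  have hdf : Differentiable ℂ (fun t : ℂ => g k (s + t • v)) := by
    refine (hg k).comp ?_
    exact (differentiable_const s).add (differentiable_id.smul_const v)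
  have e6 := Complex.norm_le_of_forall_mem_frontier_norm_le (f := fun t : ℂ => g k (s + t • v))
    (U := Metric.ball (0 : ℂ) ρ) (C := M / η) (z := 0) Metric.isBounded_ball hdf.diffContOnCl
    (fun t ht => hbd t (by rwa [frontier_ball _ hρ.ne'] at ht))
    (subset_closure (Metric.mem_ball_self hρ))
  simpa using e6

theorem div_bdd (Q : ℕ → MvPolynomial (Fin n) ℂ) (B : MvPolynomial (Fin n) ℂ) (d : ℕ)
    (hd : ∀ k, (Q k).totalDegree ≤ d) (h : CoefTendsto Q B) (hB : B ≠ 0) (g : ℕ → V n → ℂ)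
    (hg : ∀ k, Differentiable ℂ (g k))
    (hb : ∀ r : ℝ, ∃ M : ℝ, ∀ᶠ k in (Filter.hyperfilter ℕ : Filter ℕ), ∀ s : V n, ‖s‖ ≤ r →
      ‖ev (Q k) s * g k s‖ ≤ M) (r : ℝ) :
    ∃ M : ℝ, ∀ᶠ k in (Filter.hyperfilter ℕ : Filter ℕ), ∀ s : V n, ‖s‖ ≤ r → ‖g k s‖ ≤ M := by
  have h1 : ∃ M : ℝ, ∀ᶠ k in (Filter.hyperfilter ℕ : Filter ℕ),
      ∀ s ∈ Metric.closedBall (0 : V n) r, ‖g k s‖ ≤ M := by
    refine (isCompact_closedBall (0 : V n) r).induction_on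
      (p := fun S => ∃ M : ℝ, ∀ᶠ k in (Filter.hyperfilter ℕ : Filter ℕ), ∀ s ∈ S, ‖g k s‖ ≤ M)
      ?_ ?_ ?_ ?_
    · exact ⟨0, Filter.Eventually.of_forall fun k s hs => absurd hs (Set.notMem_empty s)⟩
    · rintro S T hST ⟨M, hM⟩
      exact ⟨M, hM.mono fun k hk s hs => hk s (hST hs)⟩
    · rintro S T ⟨M, hM⟩ ⟨M', hM'⟩
      refine ⟨max M M', ?_⟩
      filter_upwards [hM, hM'] with k hk hk' s hs
      rcases hs with hs | hs
      · exact (hk s hs).trans (le_max_left _ _)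
      · exact (hk' s hs).trans (le_max_right _ _)
    · intro s₀ _
      obtain ⟨U, hU, M, hM⟩ := bud_local Q B d hd h hB g hg hb s₀
      exact ⟨U, mem_nhdsWithin_of_mem_nhds hU, M, hM⟩
  obtain ⟨M, hM⟩ := h1
  refine ⟨M, hM.mono fun k hk s hs => hk s ?_⟩
  rwa [mem_closedBall_zero_iff]

end Pool.Agent.H57.BJ
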