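import Pool.Agent.H57.BJ.BUC

/-!
# [H57 BJ BUJ] Conjugation with an exponential, translation, degree of a translate

`dop` is additive in the polynomial (sum over any finite set containing both supports) and homogeneous. `pdL (Lst m)` are iterated
partial derivatives which commute (`pd j (pd i f) = pd i (pd j f)` for entire `f`, symmetry of the second derivative; see `pdL_Lst` in
`H60/GMain.lean` and its use in `H60/Final.lean`), so `dop (Q * X j) f = dop Q (pd j f)` for entire `f`. Conjugation: by induction on `Q`
(`MvPolynomial.induction_on`) for all entire `v`: for `Q * X j`: `pd j (e^{pair ω} v) = e^{pair ω} (ω_j v + pd j v)` and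
`shift ω (Q * X j) = shift ω Q * (X j + C (ω j))`. Translation: `fderiv` of `s ↦ f (z + s)`. `Tf P f = dop (Ps P) (P f)` from the definitions
(`support` of `Ps P` equals the support of `P`: the star ring endomorphism is injective). `ev (shift z P) s = ev P (z + s)`: `eval` of `bind₁`.
Degree: `bind₁` with polynomials of degree at most one (`totalDegree_bind₁_le`-type induction, monomial by monomial:
`totalDegree_finset_sum`, `totalDegree_mul_le`, `totalDegree_pow_le`).
-/

set_option autoImplicit false

open MvPolynomial Pool.Agent.H60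
open scoped Topology

noncomputable section

namespace Pool.Agent.H57.BJ

variable {n : ℕ}

theorem buj_sum (f : V n → ℂ) (s t : V n) : fderiv ℂ f s t = ∑ j, t j * pd j f s := by
  have h1 : t = ∑ j, t j • (Pi.single j (1 : ℂ) : V n) := by
    funext i
    simp [Finset.sum_apply, Pi.single_apply]
  conv_lhs => rw [h1]
  rw [map_sum]
  simp only [map_smul, smul_eq_mul]
  rfl

theorem buj_pd_comm {f : V n → ℂ} (hf : Differentiable ℂ f) (i j : Fin n) :
    pd i (pd j f) = pd j (pd i f) := by
  have h1 : Differentiable ℂ (fderiv ℂ f) := by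
    have h2 : fderiv ℂ f = fun z =>
        ∑ j, pd j f z • (ContinuousLinearMap.proj j : V n →L[ℂ] ℂ) := by
      funext z
      refine ContinuousLinearMap.ext fun t => ?_
      rw [buj_sum]
      simp only [_root_.sum_apply, _root_.smul_apply, ContinuousLinearMap.proj_apply, smul_eq_mul]
      exact Finset.sum_congr rfl fun j _ => mul_comm _ _
    rw [h2]
    exact Differentiable.fun_sum fun j _ => (differentiable_pd j hf).smul_const _
  funext z
  have h3 : ∀ v w : V n, fderiv ℂ (fun x => fderiv ℂ f x v) z w =
      fderiv ℂ (fderiv ℂ f) z w v := by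
    intro v w
    have h4 := (h1 z).hasFDerivAt.clm_apply (hasFDerivAt_const v z)
    rw [h4.fderiv]
    simp
  have h5 := second_derivative_symmetric (f := f) (f' := fderiv ℂ f)
    (f'' := fderiv ℂ (fderiv ℂ f) z) (x := z)
    (fun y => (hf y).hasFDerivAt) (h1 z).hasFDerivAt (Pi.single i 1) (Pi.single j 1)
  show fderiv ℂ (fun x => fderiv ℂ f x (Pi.single j 1)) z (Pi.single i 1) =
    fderiv ℂ (fun x => fderiv ℂ f x (Pi.single i 1)) z (Pi.single j 1)
  rw [h3, h3]
  exact h5

theorem buj_perm {l1 l2 : List (Fin n)} (hl : l1.Perm l2) {f : V n → ℂ}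
    (hf : Differentiable ℂ f) : pdL l1 f = pdL l2 f := by
  induction hl with
  | nil => rfl
  | cons j _ ih =>
    show pd j _ = pd j _
    exact congrArg (pd j) ih
  | swap i j l =>
    show pd j (pd i (pdL l f)) = pd i (pd j (pdL l f))
    exact buj_pd_comm (differentiable_pdL l hf) j i
  | trans _ _ ih1 ih2 => exact ih1.trans ih2

theorem buj_count (m : Fin n →₀ ℕ) (i : Fin n) : (Lst m).count i = m i := by
  unfold Lst
  rw [List.count_flatMap]
  have h1 : (List.count i ∘ fun j => List.replicate (m j) j) =
      fun j => if j = i then m j else 0 := by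
    funext j
    show List.count i (List.replicate (m j) j) = _
    rw [List.count_replicate]
    by_cases h : j = i
    · simp [h]
    · simp [h]
  rw [h1, ← List.ofFn_eq_map, List.sum_ofFn]
  simp

theorem buj_Lst_add (m : Fin n →₀ ℕ) (j : Fin n) :
    (Lst (m + Finsupp.single j 1)).Perm (Lst m ++ [j]) := by
  rw [List.perm_iff_count]
  intro i
  rw [List.count_append, buj_count, buj_count, Finsupp.add_apply, List.count_singleton]
  congr 1
  by_cases h : j = i
  · simp [h]
  · simp [h]

theorem buj_add (p q : MvPolynomial (Fin n) ℂ) (f : V n → ℂ) (s : V n) :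
    dop (p + q) f s = dop p f s + dop q f s := by
  classical
  rw [buc_dop (support_add (p := p) (q := q)) f s,
    buc_dop (Finset.subset_union_left (s₁ := p.support) (s₂ := q.support)) f s,
    buc_dop (Finset.subset_union_right (s₁ := p.support) (s₂ := q.support)) f s,
    ← Finset.sum_add_distrib]
  exact Finset.sum_congr rfl fun m _ => by rw [coeff_add, add_mul]

theorem buj_C_mul (c : ℂ) (p : MvPolynomial (Fin n) ℂ) (f : V n → ℂ) (s : V n) :
    dop (C c * p) f s = c * dop p f s := by
  have h1 : (C c * p).support ⊆ p.support := by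
    rw [C_mul']
    exact support_smul
  rw [buc_dop h1 f s, buc_dop (Finset.Subset.refl p.support) f s, Finset.mul_sum]
  exact Finset.sum_congr rfl fun m _ => by rw [coeff_C_mul, mul_assoc]

theorem buj_monomial (m : Fin n →₀ ℕ) (a : ℂ) (f : V n → ℂ) (s : V n) :
    dop (monomial m a) f s = a * pdL (Lst m) f s := by
  classical
  rw [buc_dop (support_monomial_subset (s := m) (a := a)) f s, Finset.sum_singleton,
    coeff_monomial, if_pos rfl]

theorem buj_Lst_zero : Lst (0 : Fin n →₀ ℕ) = [] := by
  have := length_Lst (0 : Fin n →₀ ℕ)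
  rw [map_zero] at this
  exact List.length_eq_zero_iff.mp this

theorem buj_C (a : ℂ) (f : V n → ℂ) (s : V n) :
    dop (C a : MvPolynomial (Fin n) ℂ) f s = a * f s := by
  have h1 := buj_monomial (0 : Fin n →₀ ℕ) a f s
  rw [buj_Lst_zero] at h1
  exact h1

theorem buj_mul_X (p : MvPolynomial (Fin n) ℂ) (j : Fin n) {f : V n → ℂ}
    (hf : Differentiable ℂ f) (s : V n) : dop (p * X j) f s = dop p (pd j f) s := by
  induction p using MvPolynomial.induction_on' with
  | monomial u a =>
    have h1 : monomial u a * (X j : MvPolynomial (Fin n) ℂ) =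
        monomial (u + Finsupp.single j 1) a := by
      rw [X, monomial_mul, mul_one]
    rw [h1, buj_monomial, buj_monomial, buj_perm (buj_Lst_add u j) hf, pdL_append]
    rfl
  | add p q hp hq =>
    rw [add_mul, buj_add, buj_add, hp, hq]

theorem buj_pdL_add (l : List (Fin n)) {f g : V n → ℂ} (hf : Differentiable ℂ f)
    (hg : Differentiable ℂ g) :
    pdL l (fun z => f z + g z) = fun z => pdL l f z + pdL l g z := by
  induction l with
  | nil => rfl
  | cons j l ih =>
    have h1 : pdL (j :: l) (fun z => f z + g z) = pd j (pdL l (fun z => f z + g z)) := rfl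
    rw [h1, ih]
    funext z
    show fderiv ℂ (fun z => pdL l f z + pdL l g z) z (Pi.single j 1) = _
    rw [fderiv_fun_add (differentiable_pdL l hf z) (differentiable_pdL l hg z)]
    rfl

theorem buj_pdL_mul (l : List (Fin n)) (c : ℂ) {f : V n → ℂ} (hf : Differentiable ℂ f) :
    pdL l (fun z => c * f z) = fun z => c * pdL l f z := by
  induction l with
  | nil => rfl
  | cons j l ih =>
    have h1 : pdL (j :: l) (fun z => c * f z) = pd j (pdL l (fun z => c * f z)) := rfl
    rw [h1, ih]
    funext z
    show fderiv ℂ (fun z => c * pdL l f z) z (Pi.single j 1) = _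
    rw [fderiv_const_mul (differentiable_pdL l hf z)]
    rfl

theorem buj_fun_add (p : MvPolynomial (Fin n) ℂ) {f g : V n → ℂ} (hf : Differentiable ℂ f)
    (hg : Differentiable ℂ g) (s : V n) :
    dop p (fun z => f z + g z) s = dop p f s + dop p g s := by
  unfold dop
  rw [← Finset.sum_add_distrib]
  refine Finset.sum_congr rfl fun m _ => ?_
  rw [buj_pdL_add _ hf hg, mul_add]

theorem buj_fun_mul (p : MvPolynomial (Fin n) ℂ) (c : ℂ) {f : V n → ℂ}
    (hf : Differentiable ℂ f) (s : V n) :
    dop p (fun z => c * f z) s = c * dop p f s := by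
  unfold dop
  rw [Finset.mul_sum]
  refine Finset.sum_congr rfl fun m _ => ?_
  rw [buj_pdL_mul _ c hf]
  ring

theorem buj_hpair (ω s : V n) :
    HasFDerivAt (pair ω) (∑ j, ω j • (ContinuousLinearMap.proj j : V n →L[ℂ] ℂ)) s := by
  unfold pair
  exact HasFDerivAt.fun_sum fun j _ => (hasFDerivAt_apply j s).const_mul (ω j)

theorem buj_pd_exp (ω : V n) {v : V n → ℂ} (hv : Differentiable ℂ v) (j : Fin n) :
    pd j (fun w => Complex.exp (pair ω w) * v w) =
      fun w => Complex.exp (pair ω w) * (ω j * v w + pd j v w) := by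
  funext w
  have h1 := (buj_hpair ω w).cexp.mul (hv w).hasFDerivAt
  have h3 : pd j (fun w => Complex.exp (pair ω w) * v w) w =
      (Complex.exp (pair ω w) • fderiv ℂ v w + v w • Complex.exp (pair ω w) •
        ∑ j, ω j • (ContinuousLinearMap.proj j : V n →L[ℂ] ℂ)) (Pi.single j 1) := by
    unfold pd
    exact congrArg (fun T : V n →L[ℂ] ℂ => T (Pi.single j 1)) h1.fderiv
  rw [h3]
  unfold pd
  simp only [_root_.add_apply, _root_.smul_apply, _root_.sum_apply,
    ContinuousLinearMap.proj_apply, smul_eq_mul]
  have h2 : ∑ i, ω i * (Pi.single j (1 : ℂ) : V n) i = ω j := by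
    simp [Pi.single_apply]
  rw [h2]
  ring

theorem dop_conj (Q : MvPolynomial (Fin n) ℂ) (ω : V n) (v : V n → ℂ) (hv : Differentiable ℂ v)
    (s : V n) :
    dop Q (fun w => Complex.exp (pair ω w) * v w) s =
      Complex.exp (pair ω s) * dop (shift ω Q) v s := by
  have hpd : Differentiable ℂ (pair ω) := fun w => (buj_hpair ω w).differentiableAt
  induction Q using MvPolynomial.induction_on generalizing v with
  | C a =>
    have h1 : shift ω (C a : MvPolynomial (Fin n) ℂ) = C a := by simp [shift]
    rw [h1, buj_C, buj_C]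
    ring
  | add p q hp hq =>
    have h1 : shift ω (p + q) = shift ω p + shift ω q := by simp [shift]
    rw [h1, buj_add, buj_add, hp v hv, hq v hv, mul_add]
  | mul_X p j hp =>
    have h1 : shift ω (p * X j) = shift ω p * X j + C (ω j) * shift ω p := by
      simp only [shift, map_mul, bind₁_X_right]
      ring
    have h2 : Differentiable ℂ (fun w => Complex.exp (pair ω w) * v w) := hpd.cexp.mul hv
    have h3 : Differentiable ℂ (fun w => ω j * v w) := hv.const_mul _
    have h4 : Differentiable ℂ (pd j v) := differentiable_pd j hv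
    rw [buj_mul_X p j h2, buj_pd_exp ω hv j,
      hp (fun w => ω j * v w + pd j v w) (h3.add h4), h1, buj_add, buj_mul_X _ j hv, buj_C_mul,
      buj_fun_add _ h3 h4, buj_fun_mul _ _ hv]
    ring

theorem buj_pdL_trans (l : List (Fin n)) (f : V n → ℂ) (z : V n) :
    pdL l (fun w => f (z + w)) = fun s => pdL l f (z + s) := by
  induction l with
  | nil => rfl
  | cons j l ih =>
    have h1 : pdL (j :: l) (fun w => f (z + w)) = pd j (pdL l (fun w => f (z + w))) := rfl
    rw [h1, ih]
    funext s
    show fderiv ℂ (fun s => pdL l f (z + s)) s (Pi.single j 1) = _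
    rw [fderiv_comp_add_left]
    rfl

theorem dop_trans (Q : MvPolynomial (Fin n) ℂ) (f : V n → ℂ) (z s : V n) :
    dop Q (fun w => f (z + w)) s = dop Q f (z + s) := by
  unfold dop
  refine Finset.sum_congr rfl fun m _ => ?_
  rw [buj_pdL_trans]

theorem dop_smul (Q : MvPolynomial (Fin n) ℂ) (c : ℂ) (f : V n → ℂ) (hf : Differentiable ℂ f)
    (s : V n) :
    dop Q (fun w => c * f w) s = c * dop Q f s ∧ dop (C c * Q) f s = c * dop Q f s :=
  ⟨buj_fun_mul Q c hf s, buj_C_mul c Q f s⟩

theorem Tf_dop (P : MvPolynomial (Fin n) ℂ) (f : V n → ℂ) (z : V n) :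
    Tf P f z = dop (Ps P) (fun w => ev P w * f w) z := by
  have h1 : (Ps P).support ⊆ P.support := support_map_subset _ _
  rw [buc_dop h1]
  unfold Tf
  refine Finset.sum_congr rfl fun m _ => ?_
  rw [Ps, coeff_map]

theorem ev_shift (P : MvPolynomial (Fin n) ℂ) (z s : V n) : ev (shift z P) s = ev P (z + s) := by
  induction P using MvPolynomial.induction_on with
  | C a => simp [ev, shift]
  | add p q hp hq =>
    have h1 : shift z (p + q) = shift z p + shift z q := by simp [shift]
    rw [h1, ev_add, ev_add, hp, hq]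
  | mul_X p j hp =>
    have h1 : shift z (p * X j) = shift z p * (X j + C (z j)) := by
      simp only [shift, map_mul, bind₁_X_right]
    rw [h1, ev_mul, ev_mul, hp]
    congr 1
    simp [ev, add_comm]

theorem buj_deg (P : MvPolynomial (Fin n) ℂ) (z : V n) :
    (shift z P).totalDegree ≤ P.totalDegree := by
  have h1 : shift z P = ∑ m ∈ P.support, shift z (monomial m (P.coeff m)) := by
    conv_lhs => rw [P.as_sum]
    simp only [shift, map_sum]
  rw [h1]
  refine totalDegree_finsetSum_le fun m hm => ?_
  unfold shift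
  rw [bind₁_monomial]
  refine (totalDegree_mul _ _).trans ?_
  rw [totalDegree_C, zero_add]
  refine (totalDegree_finsetProd _ _).trans ?_
  refine le_trans (Finset.sum_le_sum (g := fun i => m i) fun i _ => ?_) (le_totalDegree hm)
  refine (totalDegree_pow _ _).trans ?_
  have h2 : (X i + C (z i) : MvPolynomial (Fin n) ℂ).totalDegree ≤ 1 := by
    refine (totalDegree_add _ _).trans ?_
    rw [totalDegree_X, totalDegree_C]
    simp
  calc m i * (X i + C (z i) : MvPolynomial (Fin n) ℂ).totalDegree ≤ m i * 1 :=
        Nat.mul_le_mul_left _ h2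
    _ = m i := mul_one _

theorem deg_shift (P : MvPolynomial (Fin n) ℂ) (z : V n) (c : ℂ) :
    (C c * shift z P).totalDegree ≤ P.totalDegree ∧
      (C c * shift z (Ps P)).totalDegree ≤ P.totalDegree := by
  have h1 : ∀ R : MvPolynomial (Fin n) ℂ, (C c * R).totalDegree ≤ R.totalDegree := by
    intro R
    refine (totalDegree_mul _ _).trans ?_
    rw [totalDegree_C, zero_add]
  refine ⟨(h1 _).trans (buj_deg P z), (h1 _).trans ((buj_deg (Ps P) z).trans ?_)⟩
  exact totalDegree_le_of_support_subset (support_map_subset _ _)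

end Pool.Agent.H57.BJ
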