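import Pool.Agent.H57.BJ.BUL
import Pool.Agent.H57.BJ.BUJ
import Pool.Agent.H57.BJ.BUD

/-! # [BJ-BU] The blow-up theorem

Write `𝓕` for the hyperfilter (all hypotheses are only assumed along `𝓕`; for `k` outside the large set of `h0` put `c_k = 1`),
`c_k = ev P (z k) * f k (z k) ≠ 0`, `u_k s = c_k⁻¹ * exp (-pair (ω k) s) * (ev P (z k + s) * f k (z k + s))`: entire, `u_k 0 = 1`, and by `h1` `‖u_k s‖ ≤ exp (G r)` for `‖s‖ ≤ r`,
eventually. `Q_k = C (N k)⁻¹ * shift (z k) P` (degree at most that of `P`, `deg_shift`), `g_k s = N k * c_k⁻¹ * exp (-pair (ω k) s) * f k (z k + s)`; if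
`N k ≠ 0` then `ev (Q_k) s * g_k s = u_k s` (`ev_shift`). `div_bdd` (for `Q_k → B ≠ 0`) bounds `g_k` locally; `ulim` gives entire limits `U` of `u_k`
and `g` of `g_k`, and `U = ev B * g` pointwise (`ev_unif`, the case `l = []` of `ulim`, uniqueness of limits). Equation: `Tf_dop`, `dop_trans`, `dop_smul`,
`dop_conj` give `Tf P (f k) (z k + s) = c_k * exp (pair (ω k) s) * dop (shift (ω k) (Ps P)) u_k s` (since
`ev P (z k + w) * f k (z k + w) = c_k * (exp (pair (ω k) w) * u_k w)`), so by `h2` `‖dop (shift (ω k) (Ps P)) u_k s‖ ≤ ε k * exp (G r)`, and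
with `B'_k = C (N' k)⁻¹ * shift (ω k) (Ps P)`, `‖N' k‖ ≥ c`: `‖dop B'_k u_k s‖ ≤ ε k * exp (G r) / c → 0`. `dop_lim`: `dop B' U s = 0` for all `s`.
`Inj B B'` applied to `g`: `ev B 0 * g 0 = 0`, but this is `U 0 = lim u_k 0 = 1`. -/

set_option autoImplicit false

open MvPolynomial Pool.Agent.H60
open scoped Topology

noncomputable section

namespace Pool.Agent.H57.BJ

variable {n : ℕ}

theorem bu_pair (ω : V n) : Differentiable ℂ (pair ω) := by
  unfold pair
  fun_prop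

theorem blowup {P : MvPolynomial (Fin n) ℂ} (z ω : ℕ → V n) (hG : GoodU P z ω)
    (f : ℕ → V n → ℂ) (hf : ∀ k, Differentiable ℂ (f k)) (G : ℝ → ℝ) (ε : ℕ → ℝ)
    (hε : Filter.Tendsto ε (Filter.hyperfilter ℕ : Filter ℕ) (𝓝 0))
    (h0 : ∀ᶠ k in (Filter.hyperfilter ℕ : Filter ℕ), ev P (z k) * f k (z k) ≠ 0)
    (h1 : ∀ r : ℝ, ∀ᶠ k in (Filter.hyperfilter ℕ : Filter ℕ), ∀ s : V n, ‖s‖ ≤ r →
      ‖ev P (z k + s) * f k (z k + s)‖
        ≤ Real.exp ((pair (ω k) s).re + G r) * ‖ev P (z k) * f k (z k)‖)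
    (h2 : ∀ r : ℝ, ∀ᶠ k in (Filter.hyperfilter ℕ : Filter ℕ), ∀ s : V n, ‖s‖ ≤ r →
      ‖Tf P (f k) (z k + s)‖
        ≤ ε k * Real.exp ((pair (ω k) s).re + G r) * ‖ev P (z k) * f k (z k)‖) : False := by
  obtain ⟨N, N', B, B', c, hc, hN, hN', hB, hB', hB0, hInj⟩ := hG
  obtain ⟨a, ha⟩ : ∃ a : ℕ → ℂ, a = fun k => ev P (z k) * f k (z k) := ⟨_, rfl⟩
  have h0' : ∀ᶠ k in (Filter.hyperfilter ℕ : Filter ℕ), a k ≠ 0 := by
    rw [ha]; exact h0
  have hsh : ∀ k, Differentiable ℂ (fun s : V n => z k + s) := fun k =>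
    (differentiable_const (z k)).add differentiable_id
  have hex : ∀ k, Differentiable ℂ (fun s : V n => Complex.exp (-(pair (ω k) s))) := fun k =>
    (bu_pair (ω k)).neg.cexp
  have hfs : ∀ k, Differentiable ℂ (fun s : V n => f k (z k + s)) := fun k =>
    (hf k).comp (hsh k)
  have hPs : ∀ k, Differentiable ℂ (fun s : V n => ev P (z k + s)) := fun k =>
    (differentiable_ev P).comp (hsh k)
  obtain ⟨u, hu⟩ : ∃ u : ℕ → V n → ℂ, u = fun k s => (a k)⁻¹ *
    (Complex.exp (-(pair (ω k) s)) * (ev P (z k + s) * f k (z k + s))) := ⟨_, rfl⟩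
  obtain ⟨g, hg⟩ : ∃ g : ℕ → V n → ℂ, g = fun k s => N k * ((a k)⁻¹ *
    (Complex.exp (-(pair (ω k) s)) * f k (z k + s))) := ⟨_, rfl⟩
  have hud : ∀ k, Differentiable ℂ (u k) := by
    intro k
    rw [hu]
    exact (((hex k).mul ((hPs k).mul (hfs k))).const_mul _)
  have hgd : ∀ k, Differentiable ℂ (g k) := by
    intro k
    rw [hg]
    exact (((hex k).mul (hfs k)).const_mul _).const_mul _
  have hub : ∀ r : ℝ, ∀ᶠ k in (Filter.hyperfilter ℕ : Filter ℕ), ∀ s : V n, ‖s‖ ≤ r →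
      ‖u k s‖ ≤ Real.exp (G r) := by
    intro r
    filter_upwards [h0', h1 r] with k hk0 hk s hs
    have e1 := hk s hs
    have e2 : ‖a k‖ = ‖ev P (z k) * f k (z k)‖ := by rw [ha]
    rw [← e2] at e1
    have e3 : 0 < ‖a k‖ := norm_pos_iff.mpr hk0
    rw [hu]
    show ‖(a k)⁻¹ * (Complex.exp (-(pair (ω k) s)) * (ev P (z k + s) * f k (z k + s)))‖ ≤ _
    rw [norm_mul, norm_mul, norm_inv, Complex.norm_exp, Complex.neg_re]
    calc ‖a k‖⁻¹ * (Real.exp (-(pair (ω k) s).re) * ‖ev P (z k + s) * f k (z k + s)‖)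
        ≤ ‖a k‖⁻¹ * (Real.exp (-(pair (ω k) s).re) *
          (Real.exp ((pair (ω k) s).re + G r) * ‖a k‖)) := by
          refine mul_le_mul_of_nonneg_left ?_ (by positivity)
          exact mul_le_mul_of_nonneg_left e1 (Real.exp_pos _).le
      _ = (Real.exp (-(pair (ω k) s).re) * Real.exp ((pair (ω k) s).re + G r)) *
          (‖a k‖⁻¹ * ‖a k‖) := by ring
      _ = Real.exp (G r) := by
          rw [← Real.exp_add, inv_mul_cancel₀ e3.ne', mul_one]
          congr 1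
          ring
  obtain ⟨U, hUd, hU⟩ := ulim u hud fun r => ⟨_, hub r⟩
  have hU0 : U 0 = 1 := by
    refine tendsto_nhds_unique (hU [] 0) ?_
    refine tendsto_const_nhds.congr' ?_
    filter_upwards [h0'] with k hk
    show 1 = u k 0
    have e1 : ev P (z k + 0) * f k (z k + 0) = a k := by rw [ha, add_zero]
    have e2 : pair (ω k) 0 = 0 := by simp [pair]
    rw [hu]
    show 1 = (a k)⁻¹ * (Complex.exp (-(pair (ω k) 0)) * (ev P (z k + 0) * f k (z k + 0)))
    rw [e1, e2, neg_zero, Complex.exp_zero, one_mul, inv_mul_cancel₀ hk]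
  have hQd : ∀ k, (C (N k)⁻¹ * shift (z k) P).totalDegree ≤ P.totalDegree := fun k =>
    (deg_shift P (z k) (N k)⁻¹).1
  have hQd' : ∀ k, (C (N' k)⁻¹ * shift (ω k) (Ps P)).totalDegree ≤ P.totalDegree := fun k =>
    (deg_shift P (ω k) (N' k)⁻¹).2
  have hQg : ∀ k, N k ≠ 0 → ∀ s, ev (C (N k)⁻¹ * shift (z k) P) s * g k s = u k s := by
    intro k hk s
    have e1 : ev (C (N k)⁻¹) s = (N k)⁻¹ := by simp [ev]
    rw [ev_mul, e1, ev_shift, hg, hu]
    show (N k)⁻¹ * ev P (z k + s) * (N k * ((a k)⁻¹ *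
      (Complex.exp (-(pair (ω k) s)) * f k (z k + s)))) = (a k)⁻¹ *
      (Complex.exp (-(pair (ω k) s)) * (ev P (z k + s) * f k (z k + s)))
    field_simp
  have hgb : ∀ r : ℝ, ∃ M : ℝ, ∀ᶠ k in (Filter.hyperfilter ℕ : Filter ℕ), ∀ s : V n,
      ‖s‖ ≤ r → ‖g k s‖ ≤ M := by
    intro r
    refine div_bdd _ B P.totalDegree hQd hB hB0 g hgd (fun r => ⟨Real.exp (G r), ?_⟩) r
    filter_upwards [hN, hub r] with k hk hk2 s hs
    rw [hQg k hk s]
    exact hk2 s hs
  obtain ⟨W, hWd, hW⟩ := ulim g hgd hgb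
  have hUW : ∀ s, U s = ev B s * W s := by
    intro s
    have e1 : Filter.Tendsto (fun k => ev (C (N k)⁻¹ * shift (z k) P) s)
        (Filter.hyperfilter ℕ : Filter ℕ) (𝓝 (ev B s)) := by
      rw [Metric.tendsto_nhds]
      intro η hη
      filter_upwards [ev_unif _ B P.totalDegree hQd hB ‖s‖ (η / 2) (by linarith)] with k hk
      rw [dist_eq_norm]
      have := hk s le_rfl
      linarith
    have e2 := e1.mul (hW [] s)
    refine tendsto_nhds_unique (hU [] s) (e2.congr' ?_)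
    filter_upwards [hN] with k hk
    exact hQg k hk s
  have hdop : ∀ s, dop B' U s = 0 := by
    intro s
    have e1 := dop_lim _ B' P.totalDegree hQd' hB' u U s (fun l => hU l s)
    refine tendsto_nhds_unique e1 ?_
    rw [tendsto_zero_iff_norm_tendsto_zero]
    have e2 : Filter.Tendsto (fun k => c⁻¹ * (ε k * Real.exp (G ‖s‖)))
        (Filter.hyperfilter ℕ : Filter ℕ) (𝓝 0) := by
      have e3 := (hε.mul_const (Real.exp (G ‖s‖))).const_mul c⁻¹
      rw [zero_mul, mul_zero] at e3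
      exact e3
    refine squeeze_zero' (Filter.Eventually.of_forall fun k => norm_nonneg _) ?_ e2
    filter_upwards [h0', hN', h2 ‖s‖] with k hk0 hk1 hk2
    have e3 : 0 < ‖a k‖ := norm_pos_iff.mpr hk0
    have e4 : Tf P (f k) (z k + s) =
        a k * (Complex.exp (pair (ω k) s) * dop (shift (ω k) (Ps P)) (u k) s) := by
      have e5 : (fun w => ev P (z k + w) * f k (z k + w)) =
          fun w => a k * (Complex.exp (pair (ω k) w) * u k w) := by
        funext w
        rw [hu]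
        show ev P (z k + w) * f k (z k + w) = a k * (Complex.exp (pair (ω k) w) * ((a k)⁻¹ *
          (Complex.exp (-(pair (ω k) w)) * (ev P (z k + w) * f k (z k + w)))))
        have e6 : a k * (Complex.exp (pair (ω k) w) * ((a k)⁻¹ *
          (Complex.exp (-(pair (ω k) w)) * (ev P (z k + w) * f k (z k + w))))) =
          (a k * (a k)⁻¹) * (Complex.exp (pair (ω k) w) * Complex.exp (-(pair (ω k) w))) *
            (ev P (z k + w) * f k (z k + w)) := by ring
        rw [e6, ← Complex.exp_add, add_neg_cancel, Complex.exp_zero, mul_inv_cancel₀ hk0,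
          one_mul, one_mul]
      have hen : Differentiable ℂ (fun w => Complex.exp (pair (ω k) w) * u k w) :=
        (bu_pair (ω k)).cexp.mul (hud k)
      rw [Tf_dop, ← dop_trans (Ps P) (fun w => ev P w * f k w) (z k) s]
      show dop (Ps P) (fun w => ev P (z k + w) * f k (z k + w)) s = _
      rw [e5, (dop_smul (Ps P) (a k) (fun w => Complex.exp (pair (ω k) w) * u k w) hen s).1,
        dop_conj (Ps P) (ω k) (u k) (hud k) s]
    have e7 := hk2 s le_rfl
    rw [e4, norm_mul, norm_mul, Complex.norm_exp] at e7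
    have e8 : ‖a k‖ = ‖ev P (z k) * f k (z k)‖ := by rw [ha]
    rw [← e8] at e7
    have e9 : ‖dop (shift (ω k) (Ps P)) (u k) s‖ ≤ ε k * Real.exp (G ‖s‖) := by
      rw [Real.exp_add] at e7
      have e10 : 0 < ‖a k‖ * Real.exp (pair (ω k) s).re := mul_pos e3 (Real.exp_pos _)
      refine le_of_mul_le_mul_left ?_ e10
      calc ‖a k‖ * Real.exp (pair (ω k) s).re * ‖dop (shift (ω k) (Ps P)) (u k) s‖
          = ‖a k‖ * (Real.exp (pair (ω k) s).re *
            ‖dop (shift (ω k) (Ps P)) (u k) s‖) := by ring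
        _ ≤ ε k * (Real.exp (pair (ω k) s).re * Real.exp (G ‖s‖)) * ‖a k‖ := e7
        _ = ‖a k‖ * Real.exp (pair (ω k) s).re * (ε k * Real.exp (G ‖s‖)) := by ring
    rw [(dop_smul (shift (ω k) (Ps P)) (N' k)⁻¹ (u k) (hud k) s).2, norm_mul, norm_inv]
    refine mul_le_mul ?_ e9 (norm_nonneg _) (inv_nonneg.mpr hc.le)
    exact inv_anti₀ hc hk1
  have hUe : U = fun w => ev B w * W w := funext hUW
  rw [hUe] at hdop
  have e := hInj W hWd hdop 0
  rw [← hUW 0, hU0] at e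
  exact one_ne_zero e

end Pool.Agent.H57.BJ
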