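import Pool.Agent.H57.BJ.COT

/-! # [BJ-CSQ] the contact point for sequences

Target [C-SQ] (helper57, R4 of proofs 313). For `ε > 0` let `P ε j` be the conjunction of: `(1-ε) r' ≤ A r ≤ 2 r'`; `NearAffine` of
`a0`, `a1` with constants `ε/100`, `(ε/100)/r`, `(ε/100)/r'` on the balls of radius `r/4`, `r'/4`; `‖z.2 - a0 z.1‖ ≤ (ε^3/20) r`,
`‖κ.2 - a1 κ.1‖ ≤ (ε^3/20) r'`; (C2) with `ε`; `10 ≤ ε^3 r r'`; `1/ε ≤ ε r`; `0 < Φ z`. Each `P ε` holds eventually. Diagonal choice: there are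
`ε_j > 0`, `ε_j → 0` along the ultrafilter with `P (ε_j) j` eventually (for `j` let `m(j)` be the largest `m ≤ j` with `P (1/(m+1)) j`,
`ε_j = 1/(m(j)+1)`; for fixed `m0` the set `{j ≥ m0 : P (1/(m0+1)) j}` is in the ultrafilter and `m(j) ≥ m0` there; or use
`Pool.Agent.H51.BJ.saturation`). Eventually `ε_j ≤ 1/100`; apply `contact_pt` with `ε = δ = ε_j`, `τ = ε_j/100`, `η = ε_j^3/20` and put
`e j = ε_j / 2` (so `ε_j = 2 e j`): `nsq s0 ≤ (e r)²`, `‖θ - κ.1‖ ≤ 8 e r'`, `‖x‖ ≤ 2 e r`, growth for `nsq v ≤ (e r)²` with constant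
`1 + 4 e`; `3 η r r' ≤ 2 e r r'`; `e r ≥ 1/(4 e) → ∞`. For the remaining `j` choose anything. The factor `μ = 1 + 8 e`. -/

set_option autoImplicit false

noncomputable section

namespace Pool.Agent.H57.BJ

variable {E G : Type*} [NormedAddCommGroup E] [InnerProductSpace ℝ E] [FiniteDimensional ℝ E]
  [NormedAddCommGroup G] [InnerProductSpace ℝ G] [FiniteDimensional ℝ G]

theorem contact_seq (r r' : ℕ → ℝ) (hr : ∀ j, 0 < r j) (hr' : ∀ j, 0 < r' j)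
    (hrt : Filter.Tendsto r (Filter.hyperfilter ℕ : Filter ℕ) Filter.atTop)
    (hrt' : Filter.Tendsto r' (Filter.hyperfilter ℕ : Filter ℕ) Filter.atTop)
    (A : ℕ → ℝ → ℝ) (hA : ∀ j, Prof1 (A j))
    (hAr : Filter.Tendsto (fun j => A j (r j) / r' j) (Filter.hyperfilter ℕ : Filter ℕ) (nhds 1))
    (a0 a1 : ℕ → E → G) (D0 D1 : ℕ → E → E →L[ℝ] G) (z κ : ℕ → E × G)
    (h0 : ∀ ε : ℝ, 0 < ε → ∀ᶠ j in (Filter.hyperfilter ℕ : Filter ℕ),
      NearAffine (a0 j) (D0 j) (z j).1 (r j / 4) ε (ε / r j))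
    (h1 : ∀ ε : ℝ, 0 < ε → ∀ᶠ j in (Filter.hyperfilter ℕ : Filter ℕ),
      NearAffine (a1 j) (D1 j) (κ j).1 (r' j / 4) ε (ε / r' j))
    (hz : ∀ ε : ℝ, 0 < ε → ∀ᶠ j in (Filter.hyperfilter ℕ : Filter ℕ),
      ‖(z j).2 - a0 j (z j).1‖ ≤ ε * r j)
    (hk : ∀ ε : ℝ, 0 < ε → ∀ᶠ j in (Filter.hyperfilter ℕ : Filter ℕ),
      ‖(κ j).2 - a1 j (κ j).1‖ ≤ ε * r' j)
    (Φ : ℕ → E × G → ℝ) (hΦ : ∀ j, Continuous (Φ j)) (hΦ0 : ∀ j y, 0 ≤ Φ j y)
    (hΦz : ∀ᶠ j in (Filter.hyperfilter ℕ : Filter ℕ), 0 < Φ j (z j))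
    (hC2 : ∀ ε : ℝ, 0 < ε → ∀ᶠ j in (Filter.hyperfilter ℕ : Filter ℕ), ∀ s : E × G,
      nsq s ≤ (r j / 10) ^ 2 → Φ j (z j + s) ≤
        2 * Φ j (z j) * Real.exp (ipr s (κ j) + (1 + ε) / 2 * (r' j / r j) * nsq s)) :
    ∃ (e : ℕ → ℝ) (s0 : ℕ → E × G) (θ ζ : ℕ → E) (x : ℕ → G) (L2 : ℕ → ℝ),
      (∀ j, 0 < e j) ∧ Filter.Tendsto e (Filter.hyperfilter ℕ : Filter ℕ) (nhds 0) ∧
      Filter.Tendsto (fun j => e j * r j) (Filter.hyperfilter ℕ : Filter ℕ) Filter.atTop ∧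
      ∀ᶠ j in (Filter.hyperfilter ℕ : Filter ℕ),
        nsq (s0 j) ≤ (e j * r j) ^ 2 ∧ ‖θ j - (κ j).1‖ ≤ 8 * e j * r' j ∧
        x j = (z j).2 + (s0 j).2 - a0 j ((z j).1 + (s0 j).1) ∧ ‖x j‖ ≤ 2 * e j * r j ∧
        L2 j * ‖x j‖ = (1 + 8 * e j) * A j ‖x j‖ ∧ (x j = 0 → L2 j = 1 + 8 * e j) ∧
        ‖ζ j‖ ≤ e j * ‖L2 j • x j‖ ∧
        (∀ v : E × G, nsq v ≤ (e j * r j) ^ 2 → Φ j (z j + s0 j + v) ≤
          Φ j (z j + s0 j) * Real.exp (ipr v (θ j - ζ j, a1 j (θ j) + L2 j • x j)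
            + (1 + 4 * e j) / 2 * L2 j * nsq v)) ∧
        Φ j (z j) ≤ Φ j (z j + s0 j) *
          Real.exp (2 * e j * (r j * (‖(κ j).1‖ + ‖(κ j).2‖) + r j * r' j)) := by
  classical
  have hU : (Filter.hyperfilter ℕ : Filter ℕ) ≤ Filter.atTop := by
    rw [← Nat.cofinite_eq_atTop]; exact Filter.hyperfilter_le_cofinite
  set Q : ℝ → ℕ → Prop := fun ε j =>
    ((1 - ε) * r' j ≤ A j (r j) ∧ A j (r j) ≤ 2 * r' j) ∧
    NearAffine (a0 j) (D0 j) (z j).1 (r j / 4) (ε / 100) (ε / 100 / r j) ∧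
    NearAffine (a1 j) (D1 j) (κ j).1 (r' j / 4) (ε / 100) (ε / 100 / r' j) ∧
    ‖(z j).2 - a0 j (z j).1‖ ≤ ε ^ 3 / 20 * r j ∧ ‖(κ j).2 - a1 j (κ j).1‖ ≤ ε ^ 3 / 20 * r' j ∧
    (∀ s : E × G, nsq s ≤ (r j / 10) ^ 2 → Φ j (z j + s) ≤
        2 * Φ j (z j) * Real.exp (ipr s (κ j) + (1 + ε) / 2 * (r' j / r j) * nsq s)) ∧
    10 ≤ ε ^ 3 * (r j * r' j) ∧ 1 / ε ≤ ε * r j ∧ 0 < Φ j (z j) with hQ
  have hev : ∀ ε : ℝ, 0 < ε → ∀ᶠ j in (Filter.hyperfilter ℕ : Filter ℕ), Q ε j := by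
    intro ε hε
    have e1 : ∀ᶠ j in (Filter.hyperfilter ℕ : Filter ℕ),
        (1 - ε) * r' j ≤ A j (r j) ∧ A j (r j) ≤ 2 * r' j := by
      have h3 := hAr.eventually (lt_mem_nhds (by linarith : 1 - ε < 1))
      have h4 := hAr.eventually (gt_mem_nhds (by norm_num : (1 : ℝ) < 2))
      filter_upwards [h3, h4] with j h5 h6
      rw [lt_div_iff₀ (hr' j)] at h5
      rw [div_lt_iff₀ (hr' j)] at h6
      exact ⟨h5.le, h6.le⟩
    have e2 := h0 (ε / 100) (by positivity)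
    have e3 := h1 (ε / 100) (by positivity)
    have e4 := hz (ε ^ 3 / 20) (by positivity)
    have e5 := hk (ε ^ 3 / 20) (by positivity)
    have e6 := hC2 ε hε
    have e7 : ∀ᶠ j in (Filter.hyperfilter ℕ : Filter ℕ), 10 ≤ ε ^ 3 * (r j * r' j) := by
      have h3 : Filter.Tendsto (fun j => ε ^ 3 * (r j * r' j))
          (Filter.hyperfilter ℕ : Filter ℕ) Filter.atTop :=
        Filter.Tendsto.const_mul_atTop (by positivity) (hrt.atTop_mul_atTop₀ hrt')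
      exact h3.eventually_ge_atTop 10
    have e8 : ∀ᶠ j in (Filter.hyperfilter ℕ : Filter ℕ), 1 / ε ≤ ε * r j := by
      have h3 : Filter.Tendsto (fun j => ε * r j) (Filter.hyperfilter ℕ : Filter ℕ) Filter.atTop :=
        Filter.Tendsto.const_mul_atTop hε hrt
      exact h3.eventually_ge_atTop _
    filter_upwards [e1, e2, e3, e4, e5, e6, e7, e8, hΦz] with j f1 f2 f3 f4 f5 f6 f7 f8 f9
    exact ⟨f1, f2, f3, f4, f5, f6, f7, f8, f9⟩
  -- diagonal choice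
  set m : ℕ → ℕ := fun j => Nat.findGreatest (fun m => Q (1 / ((m : ℝ) + 1)) j) j with hm
  have hkey : ∀ m0 : ℕ, ∀ᶠ j in (Filter.hyperfilter ℕ : Filter ℕ),
      m0 ≤ m j ∧ Q (1 / ((m j : ℝ) + 1)) j := by
    intro m0
    have h3 := hev (1 / ((m0 : ℝ) + 1)) (by positivity)
    have h4 : ∀ᶠ j in (Filter.hyperfilter ℕ : Filter ℕ), m0 ≤ j :=
      hU (Filter.eventually_ge_atTop m0)
    filter_upwards [h3, h4] with j h5 h6
    exact ⟨Nat.le_findGreatest h6 h5, Nat.findGreatest_spec (P := fun m => Q (1 / ((m : ℝ) + 1)) j) h6 h5⟩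
  set ep : ℕ → ℝ := fun j => 1 / ((m j : ℝ) + 1) with hep
  have hep0 : ∀ j, 0 < ep j := fun j => by rw [hep]; positivity
  have hsmall : ∀ c : ℝ, 0 < c → ∀ᶠ j in (Filter.hyperfilter ℕ : Filter ℕ), ep j ≤ c := by
    intro c hc
    obtain ⟨m0, hm0⟩ := exists_nat_one_div_lt hc
    filter_upwards [hkey m0] with j h5
    refine le_trans ?_ hm0.le
    rw [hep]
    apply one_div_le_one_div_of_le (by positivity)
    have : (m0 : ℝ) ≤ m j := by exact_mod_cast h5.1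
    linarith
  have hgood : ∀ᶠ j in (Filter.hyperfilter ℕ : Filter ℕ), ep j ≤ 1 / 100 ∧ Q (ep j) j := by
    filter_upwards [hkey 0, hsmall (1 / 100) (by norm_num)] with j h5 h6
    exact ⟨h6, h5.2⟩
  have hpt : ∀ j, ∃ (s0 : E × G) (θ ζ : E) (x : G) (L2 : ℝ), (ep j ≤ 1 / 100 ∧ Q (ep j) j) →
      (nsq s0 ≤ (ep j / 2 * r j) ^ 2 ∧ ‖θ - (κ j).1‖ ≤ 8 * (ep j / 2) * r' j ∧
        x = (z j).2 + s0.2 - a0 j ((z j).1 + s0.1) ∧ ‖x‖ ≤ 2 * (ep j / 2) * r j ∧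
        L2 * ‖x‖ = (1 + 8 * (ep j / 2)) * A j ‖x‖ ∧ (x = 0 → L2 = 1 + 8 * (ep j / 2)) ∧
        ‖ζ‖ ≤ ep j / 2 * ‖L2 • x‖ ∧
        (∀ v : E × G, nsq v ≤ (ep j / 2 * r j) ^ 2 → Φ j (z j + s0 + v) ≤
          Φ j (z j + s0) * Real.exp (ipr v (θ - ζ, a1 j θ + L2 • x)
            + (1 + 4 * (ep j / 2)) / 2 * L2 * nsq v)) ∧
        Φ j (z j) ≤ Φ j (z j + s0) *
          Real.exp (2 * (ep j / 2) * (r j * (‖(κ j).1‖ + ‖(κ j).2‖) + r j * r' j))) := by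
    intro j
    by_cases hj : ep j ≤ 1 / 100 ∧ Q (ep j) j
    swap
    · exact ⟨0, 0, 0, 0, 0, fun h => absurd h hj⟩
    obtain ⟨hj1, ⟨f1a, f1b⟩, f2, f3, f4, f5, f6, f7, f8, f9⟩ := hj
    have hε := hep0 j
    have hrj := hr j
    have hrj' := hr' j
    set ε : ℝ := ep j with hεdef
    have hmono0 : NearAffine (a0 j) (D0 j) (z j).1 (ε * r j) (ε / 100) (ε / 100 / r j) := by
      have hsub : Metric.closedBall (z j).1 (ε * r j) ⊆ Metric.closedBall (z j).1 (r j / 4) := by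
        apply Metric.closedBall_subset_closedBall
        have := mul_le_mul_of_nonneg_right hj1 hrj.le
        linarith
      intro y hy
      exact ⟨(f2 y (hsub hy)).1, fun y' hy' => (f2 y (hsub hy)).2 y' (hsub hy')⟩
    have hmono1 : NearAffine (a1 j) (D1 j) (κ j).1 (4 * ε * r' j) (ε / 100) (ε / 100 / r' j) := by
      have hsub : Metric.closedBall (κ j).1 (4 * ε * r' j) ⊆ Metric.closedBall (κ j).1 (r' j / 4) := by
        apply Metric.closedBall_subset_closedBall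
        have := mul_le_mul_of_nonneg_right hj1 hrj'.le
        linarith
      intro y hy
      exact ⟨(f3 y (hsub hy)).1, fun y' hy' => (f3 y (hsub hy)).2 y' (hsub hy')⟩
    obtain ⟨s0, θ, ζ, x, L2, g1, g2, g3, g4, g5, g6, g7, g8, g9⟩ :=
      contact_pt (r j) (r' j) ε ε (ε / 100) (ε ^ 3 / 20) hrj hrj' hε hj1 hε (by linarith)
        (by positivity) le_rfl (by positivity) (by rw [show ε * ε ^ 2 = ε ^ 3 by ring]) (A j) (hA j)
        f1a f1b (a0 j) (a1 j) (D0 j) (D1 j) (z j) (κ j) hmono0 hmono1 f4 f5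
        (by rw [show ε * ε ^ 2 * r j * r' j = ε ^ 3 * (r j * r' j) by ring]; exact f7)
        (Φ j) (hΦ j) (hΦ0 j) f9 f6
    refine ⟨s0, θ, ζ, x, L2, fun _ => ⟨?_, ?_, g3, ?_, ?_, ?_, ?_, ?_, ?_⟩⟩
    · rw [show ε / 2 * r j = ε * r j / 2 by ring]; exact g1
    · rw [show 8 * (ε / 2) * r' j = 4 * ε * r' j by ring]; exact g2
    · rw [show 2 * (ε / 2) * r j = ε * r j by ring]; exact g4
    · rw [show 1 + 8 * (ε / 2) = 1 + 4 * ε by ring]; exact g5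
    · rw [show 1 + 8 * (ε / 2) = 1 + 4 * ε by ring]; exact g6
    · refine g7.trans (mul_le_mul_of_nonneg_right (by linarith) (norm_nonneg _))
    · intro v hv
      rw [show ε / 2 * r j = ε * r j / 2 by ring] at hv
      rw [show 1 + 4 * (ε / 2) = 1 + 2 * ε by ring]
      exact g8 v hv
    · refine g9.trans ?_
      apply mul_le_mul_of_nonneg_left _ (hΦ0 j _)
      apply Real.exp_le_exp.mpr
      have hp : 0 < r j * r' j := by positivity
      have h7 : 3 * (ε ^ 3 / 20) ≤ ε := by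
        have h8 : ε ^ 2 ≤ 1 := by
          apply pow_le_one₀ hε.le; linarith
        have h9 : ε ^ 3 ≤ ε := by
          have := mul_le_mul_of_nonneg_left h8 hε.le
          calc ε ^ 3 = ε * ε ^ 2 := by ring
            _ ≤ ε * 1 := this
            _ = ε := mul_one ε
        linarith
      have h10 := mul_le_mul_of_nonneg_right h7 hp.le
      have h11 : 3 * (ε ^ 3 / 20) * r j * r' j = 3 * (ε ^ 3 / 20) * (r j * r' j) := by ring
      have h12 : 2 * (ε / 2) * (r j * (‖(κ j).1‖ + ‖(κ j).2‖) + r j * r' j) =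
          ε * r j * (‖(κ j).1‖ + ‖(κ j).2‖) + ε * (r j * r' j) := by ring
      rw [h11, h12]
      linarith
  choose s0 θ ζ x L2 hall using hpt
  refine ⟨fun j => ep j / 2, s0, θ, ζ, x, L2, fun j => by have := hep0 j; positivity, ?_, ?_, ?_⟩
  · rw [Metric.tendsto_nhds]
    intro c hc
    filter_upwards [hsmall c hc] with j h5
    rw [Real.dist_eq, sub_zero, abs_of_pos (by have := hep0 j; positivity)]
    have := hep0 j
    linarith
  · rw [Filter.tendsto_atTop]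
    intro M
    have hM : 0 < 1 / (2 * (|M| + 1)) := by positivity
    filter_upwards [hsmall _ hM, hgood] with j h5 h6
    obtain ⟨-, -, -, -, -, -, -, -, f8, -⟩ := h6
    have h7 := hep0 j
    have h8 : 2 * (|M| + 1) ≤ 1 / ep j := by
      rw [le_div_iff₀ h7]
      rw [le_div_iff₀ (by positivity)] at h5
      linarith
    have h9 := le_abs_self M
    have h10 := abs_nonneg M
    show M ≤ ep j / 2 * r j
    linarith
  · filter_upwards [hgood] with j h6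
    exact hall j h6

end Pool.Agent.H57.BJ
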