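import Pool.Agent.H28.FK.Fin

/-! # [BJ-FOCK] Fock solutions of `T_P h = exp (z · conj a)` -/

set_option autoImplicit false

open MvPolynomial Pool.Agent.H60
open scoped Topology

noncomputable section

namespace Pool.Agent.H57.BJ

variable {n : ℕ}

theorem fock_solution {P : MvPolynomial (Fin n) ℂ} (hP : P ≠ 0) (ρ : ℝ) :
    ∃ C : ℝ, 0 < C ∧ ∀ a : V n, ‖a‖ ≤ ρ →
      ∃ (v : MvPowerSeries (Fin n) ℂ) (h : V n → ℂ), Differentiable ℂ h ∧
        (∀ z, HasSum (fun α : Fin n →₀ ℕ => MvPowerSeries.coeff α v * ∏ j, z j ^ α j) (h z)) ∧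
        (∀ F : MvPolynomial (Fin n) ℂ, Bp v (TP P F) = ev F a) ∧
        (∀ z, Tf P h z = Complex.exp (∑ j, z j * (starRingEnd ℂ) (a j))) ∧
        (∀ z, ‖ev P z * h z‖ ≤ C * Real.exp (Nn z / 2)) :=
  Pool.Agent.H28.FK.fock_sol hP ρ

end Pool.Agent.H57.BJ
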