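import Pool.Agent.H57.BJ.FOCK
import Pool.Agent.H57.BJ.BU

/-! # [BJ-ASM] Matched weights imply the local a priori estimates -/

set_option autoImplicit false

open MvPolynomial Pool.Agent.H60
open scoped Topology

noncomputable section

namespace Pool.Agent.H57.BJ

variable {n : ℕ}

theorem goodEst_of_matched {P : MvPolynomial (Fin n) ℂ} (hP : P ≠ 0) (hM : MatchedWeights P) :
    GoodEst P := by
  sorry

end Pool.Agent.H57.BJ
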