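import Pool.Agent.H57.BJ.Defs

/-!
# [H57 BJ BUC] Coefficientwise convergence with bounded degree

`S` = the finite set of `m : Fin n →₀ ℕ` with `m.degree ≤ d` (for instance `Finset.univ.finsuppAntidiag`-like, or the image of a finite
box; `Set.Finite.toFinset`), contains the supports of all `Q k` (`le_totalDegree`), and of `B` (the coefficients outside `S` are
limits of zeros). `ev Q s = ∑_{m ∈ S} Q.coeff m * ∏ j, s j ^ m j` and `‖∏ j, s j ^ m j‖ ≤ (max r 1)^d` for `‖s‖ ≤ r`: first claim. The second: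
`dop Q f s = ∑_{m ∈ S} Q.coeff m * pdL (Lst m) f s`, a finite sum of products of convergent sequences.
-/

set_option autoImplicit false

open MvPolynomial Pool.Agent.H60
open scoped Topology

noncomputable section

namespace Pool.Agent.H57.BJ

variable {n : ℕ}

theorem buc_set (n d : ℕ) : ∃ S : Finset (Fin n →₀ ℕ), ∀ m, m ∈ S ↔ m.degree ≤ d :=
  ⟨(Finsupp.finite_of_degree_le d).toFinset, fun m => by simp⟩

theorem buc_supp {p : MvPolynomial (Fin n) ℂ} {d : ℕ} (hd : p.totalDegree ≤ d)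
    {S : Finset (Fin n →₀ ℕ)} (hS : ∀ m, m ∈ S ↔ m.degree ≤ d) : p.support ⊆ S := by
  intro m hm
  rw [hS]
  have h1 := le_totalDegree hm
  have h2 : m.degree = m.sum fun _ e => e := rfl
  rw [h2]
  exact h1.trans hd

theorem buc_lim_supp {Q : ℕ → MvPolynomial (Fin n) ℂ} {B : MvPolynomial (Fin n) ℂ} {d : ℕ}
    (hd : ∀ k, (Q k).totalDegree ≤ d) (h : CoefTendsto Q B)
    {S : Finset (Fin n →₀ ℕ)} (hS : ∀ m, m ∈ S ↔ m.degree ≤ d) : B.support ⊆ S := by
  intro m hm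
  by_contra hn
  have h1 : ∀ k, (Q k).coeff m = 0 := by
    intro k
    by_contra hk
    exact hn (buc_supp (hd k) hS (mem_support_iff.mpr hk))
  have h2 := h m
  simp only [h1] at h2
  exact (mem_support_iff.mp hm) (tendsto_nhds_unique h2 tendsto_const_nhds)

theorem buc_ev {p : MvPolynomial (Fin n) ℂ} {S : Finset (Fin n →₀ ℕ)} (hS : p.support ⊆ S)
    (s : V n) : ev p s = ∑ m ∈ S, p.coeff m * ∏ i, s i ^ m i := by
  unfold ev
  rw [eval_eq']
  refine Finset.sum_subset hS fun m _ hm => ?_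
  rw [notMem_support_iff.mp hm, zero_mul]

theorem buc_dop {p : MvPolynomial (Fin n) ℂ} {S : Finset (Fin n →₀ ℕ)} (hS : p.support ⊆ S)
    (f : V n → ℂ) (s : V n) : dop p f s = ∑ m ∈ S, p.coeff m * pdL (Lst m) f s := by
  unfold dop
  refine Finset.sum_subset hS fun m _ hm => ?_
  rw [notMem_support_iff.mp hm, zero_mul]

theorem buc_mono (m : Fin n →₀ ℕ) {d : ℕ} (hm : m.degree ≤ d) {r : ℝ} {s : V n}
    (hs : ‖s‖ ≤ r) : ‖∏ i, s i ^ m i‖ ≤ (max r 1) ^ d := by
  rw [norm_prod]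
  have h1 : ∀ i ∈ (Finset.univ : Finset (Fin n)), ‖s i ^ m i‖ ≤ (max r 1) ^ m i := by
    intro i _
    rw [norm_pow]
    exact pow_le_pow_left₀ (norm_nonneg _)
      (((norm_le_pi_norm s i).trans hs).trans (le_max_left _ _)) _
  refine (Finset.prod_le_prod (fun i _ => norm_nonneg _) h1).trans ?_
  rw [Finset.prod_pow_eq_pow_sum, ← Finsupp.degree_eq_sum]
  exact pow_le_pow_right₀ (le_max_right _ _) hm

theorem ev_unif (Q : ℕ → MvPolynomial (Fin n) ℂ) (B : MvPolynomial (Fin n) ℂ) (d : ℕ)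
    (hd : ∀ k, (Q k).totalDegree ≤ d) (h : CoefTendsto Q B) (r η : ℝ) (hη : 0 < η) :
    ∀ᶠ k in (Filter.hyperfilter ℕ : Filter ℕ), ∀ s : V n, ‖s‖ ≤ r →
      ‖ev (Q k) s - ev B s‖ ≤ η := by
  obtain ⟨S, hS⟩ := buc_set n d
  have hB := buc_lim_supp hd h hS
  have h1 : Filter.Tendsto (fun k => ∑ m ∈ S, ‖(Q k).coeff m - B.coeff m‖ * (max r 1) ^ d)
      (Filter.hyperfilter ℕ : Filter ℕ) (𝓝 0) := by
    have h2 : Filter.Tendsto (fun k => ∑ m ∈ S, ‖(Q k).coeff m - B.coeff m‖ * (max r 1) ^ d)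
        (Filter.hyperfilter ℕ : Filter ℕ)
        (𝓝 (∑ m ∈ S, ‖B.coeff m - B.coeff m‖ * (max r 1) ^ d)) :=
      tendsto_finsetSum _ fun m _ => (((h m).sub_const _).norm).mul_const _
    simpa using h2
  filter_upwards [h1.eventually_le_const hη] with k hk s hs
  rw [buc_ev (buc_supp (hd k) hS), buc_ev hB, ← Finset.sum_sub_distrib]
  refine (norm_sum_le _ _).trans (le_trans ?_ hk)
  refine Finset.sum_le_sum fun m hm => ?_
  rw [← sub_mul, norm_mul]
  exact mul_le_mul_of_nonneg_left (buc_mono m ((hS m).mp hm) hs) (norm_nonneg _)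

theorem dop_lim (Q : ℕ → MvPolynomial (Fin n) ℂ) (B : MvPolynomial (Fin n) ℂ) (d : ℕ)
    (hd : ∀ k, (Q k).totalDegree ≤ d) (h : CoefTendsto Q B) (u : ℕ → V n → ℂ) (U : V n → ℂ)
    (s : V n) (hu : ∀ l : List (Fin n), Filter.Tendsto (fun k => pdL l (u k) s)
      (Filter.hyperfilter ℕ : Filter ℕ) (𝓝 (pdL l U s))) :
    Filter.Tendsto (fun k => dop (Q k) (u k) s) (Filter.hyperfilter ℕ : Filter ℕ)
      (𝓝 (dop B U s)) := by
  obtain ⟨S, hS⟩ := buc_set n d
  have hB := buc_lim_supp hd h hS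
  have h1 : (fun k => dop (Q k) (u k) s) =
      fun k => ∑ m ∈ S, (Q k).coeff m * pdL (Lst m) (u k) s :=
    funext fun k => buc_dop (buc_supp (hd k) hS) (u k) s
  rw [h1, buc_dop hB]
  exact tendsto_finsetSum _ fun m _ => (h m).mul (hu (Lst m))

end Pool.Agent.H57.BJ
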