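import Pool.Agent.H57.BJ.BUT

/-!
# [H57 BJ BUL] Limits along the hyperfilter of locally bounded sequences of entire functions

(a) For a bounded sequence `a k` (eventually along the hyperfilter) there is a limit: `closedBall 0 M` is compact, the image ultrafilter
contains it, `IsCompact.ultrafilter_le_nhds`. So `u s = lim u_k s` and, by Cauchy estimates (`pdL_bound` in `H60/Final.lean`, on balls centred at
`0`), the sequences `pd j (u_k) s` are bounded and have limits `v_j s`. (b) `fderiv f s t = ∑ j, t j * pd j f s` (linearity, `t = ∑ t_j e_j`).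
Pass to the limit in `taylor2` (closedness of `≤`): `‖u (s + t) - u s - ∑ t_j v_j s‖ ≤ 2 M ‖t‖²` for `‖t‖ ≤ 1`, so `u` is differentiable at
`s` with derivative `t ↦ ∑ t_j v_j s` (`hasFDerivAt_iff_isLittleO`), `pd j u s = v_j s`. (c) Induction on the list: the sequences
`pd j (u_k)` are again entire and locally bounded, and by (b) for `pdL l` their limit is the derivative of the limit. (Prove by induction
on `l` for all sequences: with `w_k = pdL l u_k` entire, locally bounded, and the limit of `w_k` equal to `pdL l u`; then by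
(a), (b) applied to `w_k` the limit of `pd j w_k` is `pd j (pdL l u)`, because the pointwise limit function is unique.)
-/

set_option autoImplicit false

open MvPolynomial Pool.Agent.H60
open scoped Topology

noncomputable section

namespace Pool.Agent.H57.BJ

variable {n : ℕ}

theorem bul_lim (a : ℕ → ℂ) (M : ℝ)
    (h : ∀ᶠ k in (Filter.hyperfilter ℕ : Filter ℕ), ‖a k‖ ≤ M) :
    ∃ x : ℂ, Filter.Tendsto a (Filter.hyperfilter ℕ : Filter ℕ) (𝓝 x) := by
  have h1 : (((Filter.hyperfilter ℕ).map a : Ultrafilter ℂ) : Filter ℂ) ≤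
      Filter.principal (Metric.closedBall (0 : ℂ) M) := by
    rw [Filter.le_principal_iff, Ultrafilter.coe_map, Filter.mem_map]
    filter_upwards [h] with k hk
    simpa using hk
  obtain ⟨x, -, hx⟩ := (isCompact_closedBall (0 : ℂ) M).ultrafilter_le_nhds _ h1
  exact ⟨x, hx⟩

theorem bul_sum (f : V n → ℂ) (s t : V n) : fderiv ℂ f s t = ∑ j, t j * pd j f s := by
  have h1 : t = ∑ j, t j • (Pi.single j (1 : ℂ) : V n) := by
    funext i
    simp [Finset.sum_apply, Pi.single_apply]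
  conv_lhs => rw [h1]
  rw [map_sum]
  simp only [map_smul, smul_eq_mul]
  rfl

theorem bul_pd_bd {w : ℕ → V n → ℂ} (hw : ∀ k, Differentiable ℂ (w k))
    (hb : ∀ r : ℝ, ∃ M : ℝ, ∀ᶠ k in (Filter.hyperfilter ℕ : Filter ℕ), ∀ s : V n, ‖s‖ ≤ r →
      ‖w k s‖ ≤ M) (j : Fin n) :
    ∀ r : ℝ, ∃ M : ℝ, ∀ᶠ k in (Filter.hyperfilter ℕ : Filter ℕ), ∀ s : V n, ‖s‖ ≤ r →
      ‖pd j (w k) s‖ ≤ M := by
  intro r
  obtain ⟨M, hM⟩ := hb (r + 1)
  refine ⟨M, ?_⟩
  filter_upwards [hM] with k hk s hs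
  have h1 := norm_fderiv_apply_le (hw k) s (Pi.single j 1) (M := M) (fun x hx => by
    refine hk x ?_
    rw [Metric.mem_closedBall, dist_eq_norm] at hx
    calc ‖x‖ = ‖s + (x - s)‖ := by rw [add_sub_cancel]
      _ ≤ ‖s‖ + ‖x - s‖ := norm_add_le _ _
      _ ≤ r + 1 := add_le_add hs hx)
  rw [Pi.norm_single, norm_one, mul_one] at h1
  exact h1

theorem bul_core {w : ℕ → V n → ℂ} (hw : ∀ k, Differentiable ℂ (w k))
    (hb : ∀ r : ℝ, ∃ M : ℝ, ∀ᶠ k in (Filter.hyperfilter ℕ : Filter ℕ), ∀ s : V n, ‖s‖ ≤ r →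
      ‖w k s‖ ≤ M) {W : V n → ℂ}
    (hW : ∀ s, Filter.Tendsto (fun k => w k s) (Filter.hyperfilter ℕ : Filter ℕ) (𝓝 (W s))) :
    Differentiable ℂ W ∧ ∀ (j : Fin n) (s : V n),
      Filter.Tendsto (fun k => pd j (w k) s) (Filter.hyperfilter ℕ : Filter ℕ)
        (𝓝 (pd j W s)) := by
  have hex : ∀ (j : Fin n) (s : V n), ∃ x : ℂ,
      Filter.Tendsto (fun k => pd j (w k) s) (Filter.hyperfilter ℕ : Filter ℕ) (𝓝 x) := by
    intro j s
    obtain ⟨M, hM⟩ := bul_pd_bd hw hb j ‖s‖
    refine bul_lim _ M ?_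
    filter_upwards [hM] with k hk
    exact hk s le_rfl
  choose v hv using hex
  have key : ∀ s : V n, HasFDerivAt W
      (∑ j, v j s • (ContinuousLinearMap.proj j : V n →L[ℂ] ℂ)) s := by
    intro s
    have hLa : ∀ t : V n, (∑ j, v j s • (ContinuousLinearMap.proj j : V n →L[ℂ] ℂ)) t =
        ∑ j, t j * v j s := by
      intro t
      simp only [_root_.sum_apply, _root_.smul_apply, ContinuousLinearMap.proj_apply, smul_eq_mul]
      exact Finset.sum_congr rfl fun j _ => mul_comm _ _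
    obtain ⟨M, hM⟩ := hb (‖s‖ + 3)
    rw [hasFDerivAt_iff_isLittleO_nhds_zero]
    have hO : (fun t : V n => W (s + t) - W s -
        (∑ j, v j s • (ContinuousLinearMap.proj j : V n →L[ℂ] ℂ)) t) =O[𝓝 0]
        fun t : V n => ‖t‖ ^ 2 := by
      refine Asymptotics.IsBigO.of_bound (2 * M) ?_
      have hnh : Metric.closedBall (0 : V n) 1 ∈ 𝓝 (0 : V n) :=
        Metric.closedBall_mem_nhds _ one_pos
      filter_upwards [hnh] with t ht
      rw [mem_closedBall_zero_iff] at ht
      have h1 : Filter.Tendsto (fun k => ‖w k (s + t) - w k s - fderiv ℂ (w k) s t‖)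
          (Filter.hyperfilter ℕ : Filter ℕ)
          (𝓝 ‖W (s + t) - W s -
            (∑ j, v j s • (ContinuousLinearMap.proj j : V n →L[ℂ] ℂ)) t‖) := by
        refine (((hW (s + t)).sub (hW s)).sub ?_).norm
        rw [hLa]
        have h2 : (fun k => fderiv ℂ (w k) s t) = fun k => ∑ j, t j * pd j (w k) s :=
          funext fun k => bul_sum (w k) s t
        rw [h2]
        exact tendsto_finsetSum _ fun j _ => (hv j s).const_mul (t j)
      have h3 : ‖W (s + t) - W s -
          (∑ j, v j s • (ContinuousLinearMap.proj j : V n →L[ℂ] ℂ)) t‖ ≤ 2 * M * ‖t‖ ^ 2 := by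
        refine le_of_tendsto h1 ?_
        filter_upwards [hM] with k hk
        exact taylor2 (hw k) hk s t le_rfl ht
      rw [Real.norm_eq_abs, abs_of_nonneg (by positivity : (0 : ℝ) ≤ ‖t‖ ^ 2)]
      exact h3
    exact hO.trans_isLittleO (Asymptotics.isLittleO_norm_pow_id one_lt_two)
  refine ⟨fun s => (key s).differentiableAt, fun j s => ?_⟩
  have h1 : pd j W s = v j s := by
    unfold pd
    rw [(key s).fderiv]
    simp only [_root_.sum_apply, _root_.smul_apply, ContinuousLinearMap.proj_apply, smul_eq_mul]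
    simp [Pi.single_apply]
  rw [h1]
  exact hv j s

theorem ulim (u : ℕ → V n → ℂ) (hu : ∀ k, Differentiable ℂ (u k))
    (hb : ∀ r : ℝ, ∃ M : ℝ, ∀ᶠ k in (Filter.hyperfilter ℕ : Filter ℕ), ∀ s : V n, ‖s‖ ≤ r →
      ‖u k s‖ ≤ M) :
    ∃ U : V n → ℂ, Differentiable ℂ U ∧ ∀ (l : List (Fin n)) (s : V n),
      Filter.Tendsto (fun k => pdL l (u k) s) (Filter.hyperfilter ℕ : Filter ℕ)
        (𝓝 (pdL l U s)) := by
  have hex : ∀ s : V n, ∃ x : ℂ,
      Filter.Tendsto (fun k => u k s) (Filter.hyperfilter ℕ : Filter ℕ) (𝓝 x) := by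
    intro s
    obtain ⟨M, hM⟩ := hb ‖s‖
    refine bul_lim _ M ?_
    filter_upwards [hM] with k hk
    exact hk s le_rfl
  choose U hU using hex
  have hUd : Differentiable ℂ U := (bul_core hu hb hU).1
  refine ⟨U, hUd, ?_⟩
  have main : ∀ l : List (Fin n),
      (∀ r : ℝ, ∃ M : ℝ, ∀ᶠ k in (Filter.hyperfilter ℕ : Filter ℕ), ∀ s : V n, ‖s‖ ≤ r →
        ‖pdL l (u k) s‖ ≤ M) ∧
      ∀ s : V n, Filter.Tendsto (fun k => pdL l (u k) s) (Filter.hyperfilter ℕ : Filter ℕ)
        (𝓝 (pdL l U s)) := by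
    intro l
    induction l with
    | nil => exact ⟨hb, hU⟩
    | cons j l ih =>
      have hdl : ∀ k, Differentiable ℂ (pdL l (u k)) := fun k => differentiable_pdL l (hu k)
      exact ⟨bul_pd_bd hdl ih.1 j, fun s => (bul_core hdl ih.1 ih.2).2 j s⟩
  exact fun l s => (main l).2 s

end Pool.Agent.H57.BJ
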