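import Pool.Agent.H57.BJ.Defs

/-!
# [H57 BJ BUT] Second order Taylor estimate for entire functions

Along the segment: `φ τ = f (s + τ t)`; `fderiv f (·) t` is entire (`differentiable_dir`) and bounded by `M ‖t‖` on the ball of radius
`R + 1` (`norm_fderiv_apply_le`, the sup norm ball of radius `1` about the point is inside `closedBall 0 (R + 2)`), so
`‖fderiv f (s + τ t) t - fderiv f s t‖ ≤ M ‖t‖ ‖τ t‖` for `‖s‖ ≤ R`, `‖t‖ ≤ 1`, `τ ∈ [0,1]` (same lemma for the entire function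
`fderiv f (·) t` and the mean value inequality); mean value inequality for `τ ↦ f (s + τ t) - f s - τ fderiv f s t` on `[0, 1]`.
(The exact constant `1` is not needed: any absolute constant is fine, here `2`.)
-/

set_option autoImplicit false

open MvPolynomial Pool.Agent.H60
open scoped Topology

noncomputable section

namespace Pool.Agent.H57.BJ

variable {n : ℕ}

theorem taylor2 {f : V n → ℂ} (hf : Differentiable ℂ f) {R M : ℝ}
    (hM : ∀ s : V n, ‖s‖ ≤ R + 3 → ‖f s‖ ≤ M) (s t : V n) (hs : ‖s‖ ≤ R) (ht : ‖t‖ ≤ 1) :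
    ‖f (s + t) - f s - fderiv ℂ f s t‖ ≤ 2 * M * ‖t‖ ^ 2 := by
  have hM0 : 0 ≤ M := (norm_nonneg (f s)).trans (hM s (by linarith))
  have hd : ∀ τ : ℝ, HasDerivAt (fun τ : ℝ => s + τ • t) t τ := by
    intro τ
    have h1 := ((hasDerivAt_id τ).smul_const t).const_add s
    rw [one_smul] at h1
    exact h1
  have hF : ∀ F : V n → ℂ, Differentiable ℂ F → ∀ τ : ℝ,
      HasDerivAt (fun τ : ℝ => F (s + τ • t)) (fderiv ℂ F (s + τ • t) t) τ := by
    intro F hF τ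
    exact ((hF (s + τ • t)).hasFDerivAt.restrictScalars ℝ).comp_hasDerivAt τ (hd τ)
  have hpt : ∀ τ ∈ Set.Icc (0 : ℝ) 1, ‖s + τ • t‖ ≤ R + 1 := by
    intro τ hτ
    calc ‖s + τ • t‖ ≤ ‖s‖ + ‖τ • t‖ := norm_add_le _ _
      _ ≤ R + 1 := by
        rw [norm_smul, Real.norm_eq_abs, abs_of_nonneg hτ.1]
        have h1 : τ * ‖t‖ ≤ 1 * 1 := mul_le_mul hτ.2 ht (norm_nonneg _) zero_le_one
        linarith
  have hball : ∀ (x : V n) (r : ℝ), ‖x‖ ≤ r → ∀ w ∈ Metric.closedBall x 1, ‖w‖ ≤ r + 1 := by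
    intro x r hx w hw
    rw [Metric.mem_closedBall, dist_eq_norm] at hw
    calc ‖w‖ = ‖x + (w - x)‖ := by rw [add_sub_cancel]
      _ ≤ ‖x‖ + ‖w - x‖ := norm_add_le _ _
      _ ≤ r + 1 := add_le_add hx hw
  have hg : Differentiable ℂ (fun w => fderiv ℂ f w t) := differentiable_dir hf t
  have hgb : ∀ w : V n, ‖w‖ ≤ R + 2 → ‖fderiv ℂ f w t‖ ≤ M * ‖t‖ := by
    intro w hw
    refine norm_fderiv_apply_le hf w t fun x hx => hM x ?_
    have := hball w (R + 2) hw x hx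
    linarith
  have hgd : ∀ w : V n, ‖w‖ ≤ R + 1 →
      ‖fderiv ℂ (fun w => fderiv ℂ f w t) w t‖ ≤ M * ‖t‖ * ‖t‖ := by
    intro w hw
    refine norm_fderiv_apply_le hg w t fun x hx => hgb x ?_
    have := hball w (R + 1) hw x hx
    linarith
  have h0 : (0 : ℝ) ∈ Set.Icc (0 : ℝ) 1 := by constructor <;> norm_num
  have h1 : (1 : ℝ) ∈ Set.Icc (0 : ℝ) 1 := by constructor <;> norm_num
  have b1 : ∀ τ ∈ Set.Icc (0 : ℝ) 1,
      ‖fderiv ℂ f (s + τ • t) t - fderiv ℂ f s t‖ ≤ M * ‖t‖ * ‖t‖ := by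
    intro τ hτ
    have e1 := (convex_Icc (0 : ℝ) 1).norm_image_sub_le_of_norm_hasDerivWithin_le
      (f := fun τ : ℝ => fderiv ℂ f (s + τ • t) t)
      (f' := fun τ : ℝ => fderiv ℂ (fun w => fderiv ℂ f w t) (s + τ • t) t)
      (C := M * ‖t‖ * ‖t‖) (x := 0) (y := τ)
      (fun σ _ => (hF (fun w => fderiv ℂ f w t) hg σ).hasDerivWithinAt)
      (fun σ hσ => hgd _ (hpt σ hσ)) h0 hτ
    simp only [zero_smul, add_zero, sub_zero] at e1
    refine e1.trans ?_
    rw [Real.norm_eq_abs, abs_of_nonneg hτ.1]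
    calc M * ‖t‖ * ‖t‖ * τ ≤ M * ‖t‖ * ‖t‖ * 1 :=
          mul_le_mul_of_nonneg_left hτ.2 (by positivity)
      _ = M * ‖t‖ * ‖t‖ := mul_one _
  have e1 := (convex_Icc (0 : ℝ) 1).norm_image_sub_le_of_norm_hasDerivWithin_le
    (f := fun τ : ℝ => f (s + τ • t) - τ • fderiv ℂ f s t)
    (f' := fun τ : ℝ => fderiv ℂ f (s + τ • t) t - fderiv ℂ f s t)
    (C := M * ‖t‖ * ‖t‖) (x := 0) (y := 1)
    (fun σ _ => by
      have e2 := (hasDerivAt_id σ).smul_const (fderiv ℂ f s t)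
      rw [one_smul] at e2
      exact ((hF f hf σ).sub e2).hasDerivWithinAt) b1 h0 h1
  simp only [one_smul, zero_smul, add_zero, sub_zero, norm_one, mul_one] at e1
  have e3 : f (s + t) - f s - fderiv ℂ f s t = f (s + t) - fderiv ℂ f s t - f s := by ring
  rw [e3]
  refine e1.trans ?_
  have : 0 ≤ M * ‖t‖ ^ 2 := by positivity
  nlinarith

end Pool.Agent.H57.BJ
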