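import Mathlib

/-! # [BJ-CDefs] contact function: definitions

Real inner product spaces `E`, `G`; points of `E × G` are pairs, `nsq` is the euclidean square norm
of a pair, `ipr` the euclidean inner product. `Prof1 A`: a nondecreasing function on `[0,∞)` with
`A s = s` for `s ≤ 1` and `A s / s` nonincreasing. `Hf A q = ∫_0^q A`. `NearAffine a D c ρ τ K`: on the
closed ball of radius `ρ` about `c` the derivative `D` of `a` is at most `τ` and the second order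
remainder at most `K |x'-x|²`. `Bf` is the bracket of which `Sf` is the maximum over the ball;
`Psi` is the contact function, as a function of the displacement from `z`. -/

set_option autoImplicit false

noncomputable section

namespace Pool.Agent.H57.BJ

variable {E G : Type*} [NormedAddCommGroup E] [InnerProductSpace ℝ E]
  [NormedAddCommGroup G] [InnerProductSpace ℝ G]

def nsq (s : E × G) : ℝ := ‖s.1‖ ^ 2 + ‖s.2‖ ^ 2

def ipr (s κ : E × G) : ℝ := inner ℝ s.1 κ.1 + inner ℝ s.2 κ.2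

structure Prof1 (A : ℝ → ℝ) : Prop where
  cont : ContinuousOn A (Set.Ici 0)
  mono : MonotoneOn A (Set.Ici 0)
  one : ∀ s, 0 ≤ s → s ≤ 1 → A s = s
  ratio : ∀ s t, 0 < s → s ≤ t → A t * s ≤ A s * t

def Hf (A : ℝ → ℝ) (q : ℝ) : ℝ := ∫ u in (0 : ℝ)..q, A u

def NearAffine (a : E → G) (D : E → E →L[ℝ] G) (c : E) (ρ τ K : ℝ) : Prop :=
  ∀ x ∈ Metric.closedBall c ρ, ‖D x‖ ≤ τ ∧
    ∀ x' ∈ Metric.closedBall c ρ, ‖a x' - a x - D x (x' - x)‖ ≤ K * ‖x' - x‖ ^ 2

def Bf (a : E → G) (k : E) (L1 : ℝ) (s : E × G) (θ : E) : ℝ :=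
  inner ℝ s.1 θ + inner ℝ s.2 (a θ) - ‖θ - k‖ ^ 2 / (2 * L1)

def Sf (a : E → G) (k : E) (ρ L1 : ℝ) (s : E × G) : ℝ :=
  sSup (Bf a k L1 s '' Metric.closedBall k ρ)

def Psi (ε : ℝ) (A : ℝ → ℝ) (a0 a1 : E → G) (z κ : E × G) (ρ L1 : ℝ) (s : E × G) : ℝ :=
  Sf a1 κ.1 ρ L1 s + (1 + 4 * ε) * Hf A ‖z.2 + s.2 - a0 (z.1 + s.1)‖

end Pool.Agent.H57.BJ
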