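import Pool.Agent.H57.BJ.CLIP

/-! # [BJ-CMX] the maximum of the bracket

Target [C-MX] (helper57, R4 of proofs 313). `Bf a k L1 s` is continuous on the closed ball (compact, nonempty since `ρ ≥ 0`),
so the maximum is attained and equals `Sf`. `Sf` is continuous in `s`: for each `θ` in the ball
`|Bf s θ - Bf s' θ| ≤ ‖s.1 - s'.1‖ ‖θ‖ + ‖s.2 - s'.2‖ ‖a θ‖ ≤ C (‖s.1 - s'.1‖ + ‖s.2 - s'.2‖)` with one `C`
(ball and its image under `a` are bounded), hence the same for the maxima. -/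

set_option autoImplicit false

noncomputable section

namespace Pool.Agent.H57.BJ

variable {E G : Type*} [NormedAddCommGroup E] [InnerProductSpace ℝ E] [FiniteDimensional ℝ E]
  [NormedAddCommGroup G] [InnerProductSpace ℝ G] [FiniteDimensional ℝ G]

theorem Sf_max (a : E → G) (k : E) (ρ L1 : ℝ) (hρ : 0 ≤ ρ)
    (ha : ContinuousOn a (Metric.closedBall k ρ)) (s : E × G) :
    ∃ θ ∈ Metric.closedBall k ρ, Sf a k ρ L1 s = Bf a k L1 s θ ∧
      ∀ θ' ∈ Metric.closedBall k ρ, Bf a k L1 s θ' ≤ Bf a k L1 s θ := by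
  have : ProperSpace E := FiniteDimensional.proper_real E
  have hcont : ContinuousOn (Bf a k L1 s) (Metric.closedBall k ρ) := by
    unfold Bf
    refine ContinuousOn.sub (ContinuousOn.add ?_ ?_) ?_
    · exact (continuous_const.inner continuous_id).continuousOn
    · exact continuousOn_const.inner ha
    · exact Continuous.continuousOn (by fun_prop)
  obtain ⟨θ, hθ, hmax⟩ := (isCompact_closedBall k ρ).exists_isMaxOn
    ⟨k, Metric.mem_closedBall_self hρ⟩ hcont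
  refine ⟨θ, hθ, ?_, fun θ' hθ' => hmax hθ'⟩
  refine IsGreatest.csSup_eq ⟨Set.mem_image_of_mem _ hθ, ?_⟩
  rintro _ ⟨θ', hθ', rfl⟩
  exact hmax hθ'

theorem Sf_cont (a : E → G) (k : E) (ρ L1 : ℝ) (hρ : 0 ≤ ρ)
    (ha : ContinuousOn a (Metric.closedBall k ρ)) : Continuous (Sf a k ρ L1) := by
  have : ProperSpace E := FiniteDimensional.proper_real E
  obtain ⟨M, hM⟩ := (isCompact_closedBall k ρ).exists_bound_of_continuousOn ha
  set C : ℝ := |M| + (‖k‖ + ρ) with hC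
  have hC0 : 0 ≤ C := by positivity
  have hB : ∀ s s' : E × G, ∀ θ ∈ Metric.closedBall k ρ,
      Bf a k L1 s θ ≤ Bf a k L1 s' θ + C * (‖s.1 - s'.1‖ + ‖s.2 - s'.2‖) := by
    intro s s' θ hθ
    have h1 : ‖θ‖ ≤ ‖k‖ + ρ := by
      have h2 := mem_closedBall_iff_norm.1 hθ
      calc ‖θ‖ = ‖k + (θ - k)‖ := by rw [add_sub_cancel]
        _ ≤ ‖k‖ + ‖θ - k‖ := norm_add_le _ _
        _ ≤ ‖k‖ + ρ := by linarith
    have h3 : ‖a θ‖ ≤ |M| := (hM θ hθ).trans (le_abs_self M)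
    have h4 := real_inner_le_norm (s.1 - s'.1) θ
    have h5 := real_inner_le_norm (s.2 - s'.2) (a θ)
    rw [inner_sub_left] at h4 h5
    have h6 : ‖s.1 - s'.1‖ * ‖θ‖ ≤ ‖s.1 - s'.1‖ * C :=
      mul_le_mul_of_nonneg_left (by rw [hC]; linarith [abs_nonneg M]) (norm_nonneg _)
    have h7 : ‖s.2 - s'.2‖ * ‖a θ‖ ≤ ‖s.2 - s'.2‖ * C :=
      mul_le_mul_of_nonneg_left (by rw [hC]; linarith [norm_nonneg k]) (norm_nonneg _)
    unfold Bf
    linarith
  have hS : ∀ s s' : E × G, Sf a k ρ L1 s ≤ Sf a k ρ L1 s' + C * (‖s.1 - s'.1‖ + ‖s.2 - s'.2‖) := by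
    intro s s'
    obtain ⟨θ, hθ, h1, -⟩ := Sf_max a k ρ L1 hρ ha s
    obtain ⟨θ', -, h2, h3⟩ := Sf_max a k ρ L1 hρ ha s'
    rw [h1, h2]
    have := hB s s' θ hθ
    linarith [h3 θ hθ]
  have hLip : LipschitzWith (2 * C).toNNReal (Sf a k ρ L1) := by
    refine LipschitzWith.of_dist_le_mul fun s s' => ?_
    rw [Real.coe_toNNReal _ (by positivity), Real.dist_eq, abs_le]
    have h1 : ‖s.1 - s'.1‖ ≤ dist s s' := by
      rw [← dist_eq_norm, Prod.dist_eq]
      exact le_max_left _ _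
    have h2 : ‖s.2 - s'.2‖ ≤ dist s s' := by
      rw [← dist_eq_norm, Prod.dist_eq]
      exact le_max_right _ _
    have h3 : C * (‖s.1 - s'.1‖ + ‖s.2 - s'.2‖) ≤ 2 * C * dist s s' := by
      nlinarith
    have h4 := hS s s'
    have h5 := hS s' s
    rw [norm_sub_rev s'.1, norm_sub_rev s'.2] at h5
    constructor <;> linarith
  exact hLip.continuous

end Pool.Agent.H57.BJ
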