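import Pool.Agent.H57.BJ.CSC
import Pool.Agent.H57.BJ.CMX

/-! # [BJ-CGA] growth of the maximum of the bracket

Target [C-GA] (helper57, R4 of proofs 313). `Sf (s + v) = Bf (s+v) θ'` for some `θ'` in the ball (`Sf_max`), and
`Bf (s+v) θ' = Bf s θ' + ⟨v.1, θ'⟩ + ⟨v.2, a θ'⟩`. With `w = θ' - θ`: `Bf s θ' ≤ Bf s θ - c ‖w‖²` (`bracket_concave`),
`⟨v.1, θ'⟩ ≤ ⟨v.1, θ⟩ + ‖v.1‖ ‖w‖`, `⟨v.2, a θ'⟩ ≤ ⟨v.2, a θ⟩ + ‖v.2‖ T ‖w‖` with `T = τ + 2ρK` (`near_lip`), and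
`-c x² + m x ≤ m²/(4c)`. -/

set_option autoImplicit false

noncomputable section

namespace Pool.Agent.H57.BJ

variable {E G : Type*} [NormedAddCommGroup E] [InnerProductSpace ℝ E] [FiniteDimensional ℝ E]
  [NormedAddCommGroup G] [InnerProductSpace ℝ G] [FiniteDimensional ℝ G]

theorem Sf_gain (a : E → G) (D : E → E →L[ℝ] G) (k : E) (ρ τ K L1 T c : ℝ) (hρ : 0 ≤ ρ) (hK : 0 ≤ K)
    (hL : 0 < L1) (hT : τ + 2 * ρ * K ≤ T) (h : NearAffine a D k ρ τ K) (s v : E × G)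
    (hc : 0 < c) (hc' : c ≤ 1 / (2 * L1) - ‖s.2‖ * K) (θ : E)
    (h2 : θ ∈ Metric.closedBall k ρ)
    (hmax : ∀ θ' ∈ Metric.closedBall k ρ, Bf a k L1 s θ' ≤ Bf a k L1 s θ) :
    Sf a k ρ L1 (s + v) ≤ Bf a k L1 s θ + inner ℝ v.1 θ + inner ℝ v.2 (a θ)
      + (‖v.1‖ + T * ‖v.2‖) ^ 2 / (4 * c) := by
  have hcont := near_cont a D k ρ τ K hK h
  obtain ⟨θ', hθ', hS, -⟩ := Sf_max a k ρ L1 hρ hcont (s + v)
  have hcc := bracket_concave a D k ρ τ K L1 hK hL h s θ h2 hmax θ' hθ'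
  have hlip := near_lip a D k ρ τ K hK h θ θ' h2 hθ'
  set w : ℝ := ‖θ' - θ‖ with hw
  have hw0 : 0 ≤ w := norm_nonneg _
  have e1 : Bf a k L1 (s + v) θ' = Bf a k L1 s θ' + inner ℝ v.1 θ' + inner ℝ v.2 (a θ') := by
    unfold Bf
    rw [Prod.fst_add, Prod.snd_add, inner_add_left, inner_add_left]
    ring
  have e2 : (inner ℝ v.1 θ' : ℝ) ≤ inner ℝ v.1 θ + ‖v.1‖ * w := by
    have := real_inner_le_norm v.1 (θ' - θ)
    rw [inner_sub_right] at this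
    linarith
  have e3 : (inner ℝ v.2 (a θ') : ℝ) ≤ inner ℝ v.2 (a θ) + ‖v.2‖ * (T * w) := by
    have h3 := real_inner_le_norm v.2 (a θ' - a θ)
    rw [inner_sub_right] at h3
    have h4 : ‖a θ' - a θ‖ ≤ T * w := hlip.trans (mul_le_mul_of_nonneg_right hT hw0)
    have h5 := mul_le_mul_of_nonneg_left h4 (norm_nonneg v.2)
    linarith
  have e4 : Bf a k L1 s θ' ≤ Bf a k L1 s θ - c * w ^ 2 := by
    have h6 : c * w ^ 2 ≤ (1 / (2 * L1) - ‖s.2‖ * K) * w ^ 2 :=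
      mul_le_mul_of_nonneg_right hc' (sq_nonneg w)
    linarith
  have e5 : -(c * w ^ 2) + (‖v.1‖ + T * ‖v.2‖) * w ≤ (‖v.1‖ + T * ‖v.2‖) ^ 2 / (4 * c) := by
    rw [le_div_iff₀ (by positivity)]
    nlinarith [sq_nonneg (2 * c * w - (‖v.1‖ + T * ‖v.2‖))]
  rw [hS, e1]
  linarith

end Pool.Agent.H57.BJ
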