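import Pool.Agent.H57.BJ.CDefs

/-! # [BJ-CHH] the function H

Target [C-HH] (helper57, R4 of proofs 313), three elementary estimates for `Hf A q = ∫_0^q A` with `A` a
profile. `A` is continuous on `[0,∞)`, hence interval integrable there, and nonnegative.

(1) `profile_le`: for `t ≤ 1` it is `one`; for `t ≥ 1` use `ratio 1 t`.

(2) `H_upper`: if `p = 0` then `k = 1`, `Hf A 0 = 0`, and `∫_0^q A ≤ ∫_0^q u = q²/2` by (1). If `0 < p ≤ q`:
`A u * p ≤ A p * u = k p u` for `u ≥ p`, so `A u ≤ k u`, and `∫_p^q A ≤ ∫_p^q k u = k (q² - p²)/2`.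
If `0 ≤ q < p`: for `0 < u ≤ p`, `A p * u ≤ A u * p` so `k u ≤ A u`, and `∫_q^p A ≥ k (p² - q²)/2`.

(3) `H_lower`: for `0 < u ≤ r`: `A r * u ≤ A u * r`, so `A u ≥ (c/r) u` if `c ≤ A r`; integrate from `0` to `q`.

(4) `H_simple`: `A u ≤ A q` for `0 ≤ u ≤ q`. (5) `H_cont`: continuity of the primitive on `[0,∞)`. -/

set_option autoImplicit false

noncomputable section

namespace Pool.Agent.H57.BJ

theorem profile_le (A : ℝ → ℝ) (hA : Prof1 A) (t : ℝ) (ht : 0 ≤ t) : A t ≤ t := by
  rcases le_total t 1 with h | h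
  · exact (hA.one t ht h).le
  · have h1 := hA.ratio 1 t one_pos h
    rw [hA.one 1 zero_le_one le_rfl] at h1
    linarith

private theorem profile_zero (A : ℝ → ℝ) (hA : Prof1 A) : A 0 = 0 :=
  hA.one 0 le_rfl zero_le_one

theorem profile_nonneg (A : ℝ → ℝ) (hA : Prof1 A) (t : ℝ) (ht : 0 ≤ t) : 0 ≤ A t := by
  have h1 := hA.mono (Set.mem_Ici.2 le_rfl) (Set.mem_Ici.2 ht) ht
  rwa [profile_zero A hA] at h1

private theorem profile_int (A : ℝ → ℝ) (hA : Prof1 A) {a b : ℝ} (ha : 0 ≤ a) (hb : 0 ≤ b) :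
    IntervalIntegrable A MeasureTheory.volume a b := by
  refine ContinuousOn.intervalIntegrable (hA.cont.mono ?_)
  intro u hu
  rw [Set.mem_Ici]
  exact (le_min ha hb).trans hu.1

private theorem Hf_sub (A : ℝ → ℝ) (hA : Prof1 A) {p q : ℝ} (hp : 0 ≤ p) (hq : 0 ≤ q) :
    Hf A q = Hf A p + ∫ u in p..q, A u := by
  unfold Hf
  rw [intervalIntegral.integral_add_adjacent_intervals (profile_int A hA le_rfl hp)
    (profile_int A hA hp hq)]

private theorem int_lin (k p q : ℝ) : ∫ u in p..q, k * u = k / 2 * (q ^ 2 - p ^ 2) := by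
  rw [intervalIntegral.integral_const_mul, integral_id]
  ring

theorem H_upper (A : ℝ → ℝ) (hA : Prof1 A) (p q k : ℝ) (hp : 0 ≤ p) (hq : 0 ≤ q)
    (hk : k * p = A p) (hk0 : p = 0 → k = 1) :
    Hf A q ≤ Hf A p + k / 2 * (q ^ 2 - p ^ 2) := by
  rw [Hf_sub A hA hp hq, ← int_lin, add_le_add_iff_left]
  have hlin : ∀ a b : ℝ, IntervalIntegrable (fun u => k * u) MeasureTheory.volume a b :=
    fun a b => (continuous_const.mul continuous_id).intervalIntegrable a b
  rcases le_total p q with h | h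
  · refine intervalIntegral.integral_mono_on h (profile_int A hA hp hq) (hlin p q) ?_
    intro u hu
    rcases hp.eq_or_lt with h0 | h0
    · rw [hk0 h0.symm, one_mul]
      exact profile_le A hA u (hp.trans hu.1)
    · have h1 := hA.ratio p u h0 hu.1
      rw [← hk] at h1
      have h2 : A u * p ≤ (k * u) * p := by linarith
      exact le_of_mul_le_mul_right h2 h0
  · rw [intervalIntegral.integral_symm, intervalIntegral.integral_symm q p, neg_le_neg_iff]
    refine intervalIntegral.integral_mono_on h (hlin q p) (profile_int A hA hq hp) ?_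
    intro u hu
    have hu0 : 0 ≤ u := hq.trans hu.1
    rcases hu0.eq_or_lt with h0 | h0
    · rw [← h0, mul_zero, profile_zero A hA]
    · have h1 := hA.ratio u p h0 hu.2
      rw [← hk] at h1
      have hp0 : 0 < p := h0.trans_le hu.2
      have h2 : (k * u) * p ≤ A u * p := by linarith
      exact le_of_mul_le_mul_right h2 hp0

theorem H_lower (A : ℝ → ℝ) (hA : Prof1 A) (r c q : ℝ) (hr : 0 < r) (hc : c ≤ A r)
    (hq : 0 ≤ q) (hqr : q ≤ r) : c / r * q ^ 2 / 2 ≤ Hf A q := by
  have h1 : c / r * q ^ 2 / 2 = ∫ u in (0 : ℝ)..q, c / r * u := by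
    rw [int_lin]
    ring
  rw [h1]
  unfold Hf
  refine intervalIntegral.integral_mono_on hq
    ((continuous_const.mul continuous_id).intervalIntegrable 0 q) (profile_int A hA le_rfl hq) ?_
  intro u hu
  rcases hu.1.eq_or_lt with h0 | h0
  · rw [← h0, mul_zero, profile_zero A hA]
  · have h2 := hA.ratio u r h0 (hu.2.trans hqr)
    have h3 : c / r * u * r ≤ A u * r := by
      have h4 : c / r * u * r = c * u := by field_simp
      rw [h4]
      have h5 := mul_le_mul_of_nonneg_right hc h0.le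
      linarith
    exact le_of_mul_le_mul_right h3 hr

theorem H_simple (A : ℝ → ℝ) (hA : Prof1 A) (q : ℝ) (hq : 0 ≤ q) : Hf A q ≤ q * A q := by
  have h1 : q * A q = ∫ _u in (0 : ℝ)..q, A q := by
    rw [intervalIntegral.integral_const, sub_zero, smul_eq_mul]
  rw [h1]
  unfold Hf
  refine intervalIntegral.integral_mono_on hq (profile_int A hA le_rfl hq)
    (continuous_const.intervalIntegrable 0 q) ?_
  intro u hu
  exact hA.mono (Set.mem_Ici.2 hu.1) (Set.mem_Ici.2 hq) hu.2

theorem H_cont (A : ℝ → ℝ) (hA : Prof1 A) : ContinuousOn (Hf A) (Set.Ici 0) := by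
  have h1 : Continuous (fun u : ℝ => A (max u 0)) :=
    hA.cont.comp_continuous (continuous_id.max continuous_const) fun u => le_max_right u 0
  have h2 : Continuous (fun q : ℝ => ∫ u in (0 : ℝ)..q, A (max u 0)) :=
    intervalIntegral.continuous_primitive (fun a b => h1.intervalIntegrable a b) 0
  refine h2.continuousOn.congr fun q hq => ?_
  unfold Hf
  refine intervalIntegral.integral_congr fun u hu => ?_
  rw [Set.uIcc_of_le (Set.mem_Ici.1 hq)] at hu
  show A u = A (max u 0)
  rw [max_eq_left hu.1]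

end Pool.Agent.H57.BJ
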