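import Pool.Agent.H57.BJ.CLO

/-! # [BJ-CINT] the maximum is interior

Target [C-INT] (helper57, R4 of proofs 313). The function `s ↦ Φ (z + s) exp (-Psi s)` is continuous on the compact set
`nsq s ≤ (δ r)²` (`Sf_cont`, `H_cont`, `near_cont`), so it has a maximum there, at `s0` say, with value `≥` the value
`Φ z exp (-Psi 0)` at `0`. If `nsq s0 > (δ r/2)²` then by (C2) (applicable as `δ r ≤ r/10`; `Φ z > 0`) and `Psi_lower`,
`Psi_zero`:
`Φ (z+s0) exp (-Psi s0) ≤ Φ z exp (-Psi 0) · 2 exp ( (1+ε)/2 L nsq s0 - (1+2.8 ε)/2 L nsq s0 + 2.1 δ η r r' + 2.1 η r r')`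
and `0.9 ε L nsq s0 ≥ 0.225 ε δ² r r'`, while `2.3 η r r' ≤ 0.115 ε δ² r r'`, `ε δ² r r' ≥ 10`, so the exponent is
`≤ -1.1 < -log 2`: contradiction with maximality. -/

set_option autoImplicit false

noncomputable section

namespace Pool.Agent.H57.BJ

variable {E G : Type*} [NormedAddCommGroup E] [InnerProductSpace ℝ E] [FiniteDimensional ℝ E]
  [NormedAddCommGroup G] [InnerProductSpace ℝ G] [FiniteDimensional ℝ G]

theorem contact_max
    (r r' ε δ τ η : ℝ) (hr : 0 < r) (hr' : 0 < r') (hε : 0 < ε) (hε1 : ε ≤ 1 / 100) (hδ : 0 < δ)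
    (hδ1 : δ ≤ 1 / 20) (hτ : 0 ≤ τ) (hτ1 : τ ≤ ε / 100) (hη : 0 ≤ η) (hη1 : η ≤ ε * δ ^ 2 / 20)
    (A : ℝ → ℝ) (hA : Prof1 A) (hA1 : (1 - ε) * r' ≤ A r) (hA2 : A r ≤ 2 * r')
    (a0 a1 : E → G) (D0 D1 : E → E →L[ℝ] G) (z κ : E × G)
    (h0 : NearAffine a0 D0 z.1 (δ * r) τ (τ / r))
    (h1 : NearAffine a1 D1 κ.1 (4 * δ * r') τ (τ / r'))
    (hz0 : ‖z.2 - a0 z.1‖ ≤ η * r) (hk1 : ‖κ.2 - a1 κ.1‖ ≤ η * r')
    (hbig : 10 ≤ ε * δ ^ 2 * r * r')
    (Φ : E × G → ℝ) (hΦ : Continuous Φ) (hΦ0 : ∀ y, 0 ≤ Φ y) (hΦz : 0 < Φ z)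
    (hC2 : ∀ s : E × G, nsq s ≤ (r / 10) ^ 2 →
      Φ (z + s) ≤ 2 * Φ z * Real.exp (ipr s κ + (1 + ε) / 2 * (r' / r) * nsq s)) :
    ∃ s0 : E × G, nsq s0 ≤ (δ * r / 2) ^ 2 ∧
      ∀ s : E × G, nsq s ≤ (δ * r) ^ 2 →
        Φ (z + s) * Real.exp (-Psi ε A a0 a1 z κ (4 * δ * r') ((1 + 3 * ε) * (r' / r)) s) ≤
        Φ (z + s0) * Real.exp (-Psi ε A a0 a1 z κ (4 * δ * r') ((1 + 3 * ε) * (r' / r)) s0) := by
  have hδr : 0 < δ * r := by positivity
  set L : ℝ := r' / r with hL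
  have hLp : 0 < L := by positivity
  set P : E × G → ℝ := Psi ε A a0 a1 z κ (4 * δ * r') ((1 + 3 * ε) * (r' / r)) with hP
  have hρ : 0 ≤ 4 * δ * r' := by positivity
  -- the compact set
  set K : Set (E × G) := {s | nsq s ≤ (δ * r) ^ 2} with hK
  have hnc : Continuous (fun s : E × G => nsq s) := by unfold nsq; fun_prop
  have hKc : IsCompact K := by
    apply Metric.isCompact_of_isClosed_isBounded
    · exact isClosed_le hnc continuous_const
    · rw [Metric.isBounded_iff_subset_closedBall (0 : E × G)]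
      refine ⟨δ * r, fun s hs => ?_⟩
      rw [Metric.mem_closedBall, dist_zero_right, Prod.norm_def]
      have hs' : ‖s.1‖ ^ 2 + ‖s.2‖ ^ 2 ≤ (δ * r) ^ 2 := hs
      apply max_le
      · apply abs_le_of_sq_le_sq' _ hδr.le |>.2
        have := sq_nonneg ‖s.2‖; linarith
      · apply abs_le_of_sq_le_sq' _ hδr.le |>.2
        have := sq_nonneg ‖s.1‖; linarith
  have h0K : (0 : E × G) ∈ K := by
    show nsq (0 : E × G) ≤ (δ * r) ^ 2
    unfold nsq; simp; positivity
  have hcont1 : ContinuousOn a1 (Metric.closedBall κ.1 (4 * δ * r')) :=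
    near_cont a1 D1 κ.1 (4 * δ * r') τ (τ / r') (by positivity) h1
  have hcont0 : ContinuousOn a0 (Metric.closedBall z.1 (δ * r)) :=
    near_cont a0 D0 z.1 (δ * r) τ (τ / r) (by positivity) h0
  have hPc : ContinuousOn P K := by
    rw [hP]
    unfold Psi
    apply ContinuousOn.add
    · exact (Sf_cont a1 κ.1 (4 * δ * r') _ hρ hcont1).continuousOn
    · apply ContinuousOn.mul continuousOn_const
      have h2 : ContinuousOn (fun s : E × G => ‖z.2 + s.2 - a0 (z.1 + s.1)‖) K := by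
        apply ContinuousOn.norm
        apply ContinuousOn.sub
        · fun_prop
        · apply hcont0.comp (by fun_prop)
          intro s hs
          have hs' : ‖s.1‖ ^ 2 + ‖s.2‖ ^ 2 ≤ (δ * r) ^ 2 := hs
          rw [Metric.mem_closedBall, dist_eq_norm]
          have e : z.1 + s.1 - z.1 = s.1 := by abel
          rw [e]
          apply abs_le_of_sq_le_sq' _ hδr.le |>.2
          have := sq_nonneg ‖s.2‖; linarith
      exact (H_cont A hA).comp h2 (fun s _ => norm_nonneg _)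
  have hFc : ContinuousOn (fun s => Φ (z + s) * Real.exp (-P s)) K := by
    apply ContinuousOn.mul
    · exact (hΦ.comp (continuous_const.add continuous_id)).continuousOn
    · exact Real.continuous_exp.comp_continuousOn hPc.neg
  obtain ⟨s0, hs0, hmax⟩ := hKc.exists_isMaxOn ⟨0, h0K⟩ hFc
  refine ⟨s0, ?_, fun s hs => hmax hs⟩
  by_contra hcon
  push Not at hcon
  have hs0' : nsq s0 ≤ (δ * r) ^ 2 := hs0
  have hM := hmax h0K
  simp only [Set.mem_setOf_eq] at hM
  have hlow := Psi_lower r r' ε δ τ η hr hr' hε hε1 hδ hδ1 hτ hτ1 hη hη1 A hA hA1 hA2 a0 a1 D0 D1 z κ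
    h0 h1 hz0 hk1 s0 hs0'
  have hzero := Psi_zero r r' ε δ τ η hr hr' hε hε1 hδ hδ1 hτ hτ1 hη hη1 A hA hA1 hA2 a0 a1 D0 D1 z κ
    h0 h1 hz0 hk1
  have hC := hC2 s0 (hs0'.trans (by
    apply pow_le_pow_left₀ hδr.le
    have := mul_le_mul_of_nonneg_right (by linarith : δ ≤ 1 / 10) hr.le
    linarith))
  rw [← hP] at hlow hzero
  -- compare
  have hrr : 0 < r * r' := by positivity
  have hLn : δ ^ 2 / 4 * (r * r') < L * nsq s0 := by
    have h2 := mul_lt_mul_of_pos_left hcon hLp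
    have h3 : L * (δ * r / 2) ^ 2 = δ ^ 2 / 4 * (r * r') := by
      rw [hL]; field_simp; ring
    rw [h3] at h2
    exact h2
  have hη2 : η * (r * r') ≤ ε * δ ^ 2 / 20 * (r * r') := mul_le_mul_of_nonneg_right hη1 hrr.le
  have hδη : δ * η * r * r' ≤ 1 / 20 * (η * (r * r')) := by
    have h3 : 0 ≤ η * (r * r') := by positivity
    have h4 := mul_le_mul_of_nonneg_right hδ1 h3
    have h5 : δ * η * r * r' = δ * (η * (r * r')) := by ring
    rw [h5]; exact h4
  have hexp : ipr s0 κ + (1 + ε) / 2 * (r' / r) * nsq s0 - P s0 + P 0 ≤ -1 := by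
    have h6 : ε * (δ ^ 2 / 4 * (r * r')) ≤ ε * (L * nsq s0) := mul_le_mul_of_nonneg_left hLn.le hε.le
    have h7 : 10 ≤ ε * δ ^ 2 * (r * r') := by
      have : ε * δ ^ 2 * r * r' = ε * δ ^ 2 * (r * r') := by ring
      rw [this] at hbig; exact hbig
    have h8 : P 0 ≤ 21 / 10 * (η * (r * r')) := by
      have : 21 / 10 * η * r * r' = 21 / 10 * (η * (r * r')) := by ring
      rw [this] at hzero; exact hzero
    have h9 : ipr s0 κ + (1 + ε) / 2 * (r' / r) * nsq s0 - P s0 ≤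
        -(9 / 10 * (ε * (L * nsq s0))) + 21 / 10 * (δ * η * r * r') := by
      have h10 : (1 + 14 / 5 * ε) / 2 * (r' / r) * nsq s0 =
          (1 + ε) / 2 * (r' / r) * nsq s0 + 9 / 10 * (ε * (L * nsq s0)) := by
        rw [hL]; ring
      have h11 : 21 / 10 * δ * η * r * r' = 21 / 10 * (δ * η * r * r') := by ring
      rw [h10, h11] at hlow
      linarith
    linarith
  have hchain : Φ z * Real.exp (-P 0) ≤ 2 * Φ z * Real.exp (-P 0) * Real.exp (-1) := by
    have h12 : Φ z * Real.exp (-P 0) ≤ Φ (z + s0) * Real.exp (-P s0) := by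
      have := hM
      rw [add_zero] at this
      exact this
    refine h12.trans ?_
    have h13 : Φ (z + s0) * Real.exp (-P s0) ≤
        2 * Φ z * Real.exp (ipr s0 κ + (1 + ε) / 2 * (r' / r) * nsq s0) * Real.exp (-P s0) :=
      mul_le_mul_of_nonneg_right hC (Real.exp_pos _).le
    refine h13.trans ?_
    rw [mul_assoc, ← Real.exp_add, mul_assoc (2 * Φ z), ← Real.exp_add]
    apply mul_le_mul_of_nonneg_left _ (by positivity)
    apply Real.exp_le_exp.mpr
    linarith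
  have he1 : 2 * Real.exp (-1) < 1 := by
    rw [Real.exp_neg]
    have h14 := Real.exp_one_gt_d9
    rw [← div_eq_mul_inv, div_lt_one (Real.exp_pos 1)]
    linarith
  have hpos : 0 < Φ z * Real.exp (-P 0) := by positivity
  have h15 : 2 * Φ z * Real.exp (-P 0) * Real.exp (-1) = Φ z * Real.exp (-P 0) * (2 * Real.exp (-1)) := by
    ring
  rw [h15] at hchain
  have h16 := mul_lt_mul_of_pos_left he1 hpos
  linarith

end Pool.Agent.H57.BJ
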