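import Pool.Agent.H57.BJ.CDefs

/-! # [BJ-CLIP] nearly affine maps

Target [C-LIP] (helper57, R4 of proofs 313). `near_lip`: `‖a x' - a x‖ ≤ ‖D x (x'-x)‖ + K ‖x'-x‖²` and
`‖x' - x‖ ≤ 2ρ`. `near_cont`: Lipschitz on the ball. `near_chord`: put `y = (1-t)x + t x'` (in the ball by convexity);
`a x = a y + D y (x - y) + R₁`, `a x' = a y + D y (x' - y) + R₂` with `x - y = -t (x'-x)`, `x' - y = (1-t)(x'-x)`,
`‖R₁‖ ≤ K t² ‖x'-x‖²`, `‖R₂‖ ≤ K (1-t)² ‖x'-x‖²`; the derivative terms cancel in `(1-t) a x + t a x'`, and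
`(1-t) t² + t (1-t)² = t (1-t)`. -/

set_option autoImplicit false

noncomputable section

namespace Pool.Agent.H57.BJ

variable {E G : Type*} [NormedAddCommGroup E] [InnerProductSpace ℝ E]
  [NormedAddCommGroup G] [InnerProductSpace ℝ G]

theorem near_lip (a : E → G) (D : E → E →L[ℝ] G) (c : E) (ρ τ K : ℝ) (hK : 0 ≤ K)
    (h : NearAffine a D c ρ τ K) (x x' : E) (hx : x ∈ Metric.closedBall c ρ)
    (hx' : x' ∈ Metric.closedBall c ρ) : ‖a x' - a x‖ ≤ (τ + 2 * ρ * K) * ‖x' - x‖ := by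
  obtain ⟨h1, h2⟩ := h x hx
  have h3 := h2 x' hx'
  have h4 : ‖x' - x‖ ≤ 2 * ρ := by
    rw [Metric.mem_closedBall, dist_eq_norm] at hx hx'
    have h5 : x' - x = (x' - c) - (x - c) := by abel
    rw [h5]
    exact (norm_sub_le _ _).trans (by linarith)
  have h5 : ‖D x (x' - x)‖ ≤ τ * ‖x' - x‖ :=
    ((D x).le_opNorm _).trans (mul_le_mul_of_nonneg_right h1 (norm_nonneg _))
  have h6 : a x' - a x = (a x' - a x - D x (x' - x)) + D x (x' - x) := by abel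
  have h7 : K * ‖x' - x‖ ^ 2 ≤ 2 * ρ * K * ‖x' - x‖ := by
    have h8 : ‖x' - x‖ ^ 2 ≤ 2 * ρ * ‖x' - x‖ := by
      rw [sq]
      exact mul_le_mul_of_nonneg_right h4 (norm_nonneg _)
    calc K * ‖x' - x‖ ^ 2 ≤ K * (2 * ρ * ‖x' - x‖) := mul_le_mul_of_nonneg_left h8 hK
      _ = _ := by ring
  rw [h6]
  refine (norm_add_le _ _).trans ?_
  rw [add_mul]
  linarith

theorem near_cont (a : E → G) (D : E → E →L[ℝ] G) (c : E) (ρ τ K : ℝ) (hK : 0 ≤ K)
    (h : NearAffine a D c ρ τ K) : ContinuousOn a (Metric.closedBall c ρ) := by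
  have h1 : LipschitzOnWith (Real.toNNReal (τ + 2 * ρ * K)) a (Metric.closedBall c ρ) := by
    refine LipschitzOnWith.of_dist_le_mul fun x hx y hy => ?_
    rw [dist_eq_norm, dist_eq_norm]
    refine (near_lip a D c ρ τ K hK h y x hy hx).trans ?_
    exact mul_le_mul_of_nonneg_right (Real.le_coe_toNNReal _) (norm_nonneg _)
  exact h1.continuousOn

theorem near_chord (a : E → G) (D : E → E →L[ℝ] G) (c : E) (ρ τ K : ℝ) (hK : 0 ≤ K)
    (h : NearAffine a D c ρ τ K) (x x' : E) (hx : x ∈ Metric.closedBall c ρ)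
    (hx' : x' ∈ Metric.closedBall c ρ) (t : ℝ) (ht0 : 0 ≤ t) (ht1 : t ≤ 1) :
    ‖(1 - t) • a x + t • a x' - a ((1 - t) • x + t • x')‖ ≤ t * (1 - t) * K * ‖x' - x‖ ^ 2 := by
  have _ := hK
  obtain ⟨y, hyd⟩ : ∃ y, y = (1 - t) • x + t • x' := ⟨_, rfl⟩
  have hy : y ∈ Metric.closedBall c ρ := by
    rw [hyd]
    exact convex_closedBall c ρ hx hx' (by linarith) ht0 (by ring)
  obtain ⟨-, h2⟩ := h y hy
  have r1 := h2 x hx
  have r2 := h2 x' hx'
  have e1 : x - y = (-t) • (x' - x) := by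
    rw [hyd]
    module
  have e2 : x' - y = (1 - t) • (x' - x) := by
    rw [hyd]
    module
  have n1 : ‖x - y‖ ^ 2 = t ^ 2 * ‖x' - x‖ ^ 2 := by
    rw [e1, norm_smul, mul_pow, Real.norm_eq_abs, sq_abs, neg_sq]
  have n2 : ‖x' - y‖ ^ 2 = (1 - t) ^ 2 * ‖x' - x‖ ^ 2 := by
    rw [e2, norm_smul, mul_pow, Real.norm_eq_abs, sq_abs]
  rw [n1] at r1
  rw [n2] at r2
  have e3 : (1 - t) • a x + t • a x' - a y =
      (1 - t) • (a x - a y - D y (x - y)) + t • (a x' - a y - D y (x' - y)) := by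
    rw [e1, e2, map_smul, map_smul]
    module
  rw [← hyd, e3]
  refine (norm_add_le _ _).trans ?_
  rw [norm_smul, norm_smul, Real.norm_of_nonneg ht0, Real.norm_of_nonneg (by linarith : 0 ≤ 1 - t)]
  have m1 := mul_le_mul_of_nonneg_left r1 (by linarith : 0 ≤ 1 - t)
  have m2 := mul_le_mul_of_nonneg_left r2 ht0
  have e4 : t * (1 - t) * K * ‖x' - x‖ ^ 2 = (1 - t) * (K * (t ^ 2 * ‖x' - x‖ ^ 2)) +
      t * (K * ((1 - t) ^ 2 * ‖x' - x‖ ^ 2)) := by ring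
  rw [e4]
  exact add_le_add m1 m2

end Pool.Agent.H57.BJ
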