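import Pool.Agent.H57.BJ.CHH
import Pool.Agent.H57.BJ.CMX

/-! # [BJ-CLO] lower bound of the contact function

Target [C-LO] (helper57, R4 of proofs 313). Put `L = r'/r`, `L1 = (1+3ε) L`, `ρ = 4 δ r'`. Let `nsq s ≤ (δ r)²`, so
`‖s.1‖, ‖s.2‖ ≤ δ r`.

(1) `Psi_lower`. Take `θ = κ.1 + L1 s.1`: `‖θ - κ.1‖ ≤ (1+3ε) δ r' ≤ 4 δ r'`, so `Sf s ≥ Bf s θ =
⟨s.1, κ.1⟩ + L1‖s.1‖² - L1‖s.1‖²/2 + ⟨s.2, a1 θ⟩`, and `a1 θ = κ.2 + (a1 κ.1 - κ.2) + (a1 θ - a1 κ.1)` with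
`‖a1 θ - a1 κ.1‖ ≤ 2 τ L1 ‖s.1‖` (`near_lip`, `2 · 4δr' · τ/r' = 8 δ τ ≤ τ`). So
`Sf s ≥ ipr s κ + L1/2 ‖s.1‖² - ‖s.2‖ η r' - 2 τ L1 ‖s.1‖ ‖s.2‖`.
With `q = ‖z.2 + s.2 - a0 (z.1 + s.1)‖`: `q ≥ ‖s.2‖ - η r - 2 τ ‖s.1‖` and `q ≤ r`, so by `H_lower` with
`c = (1-ε) r'`: `(1+4ε) Hf A q ≥ (1+3ε-4ε²) L/2 q²` and `q² ≥ ‖s.2‖² - 2 ‖s.2‖ (η r + 2 τ ‖s.1‖)`
(true also when the bound for `q` is negative). `1+3ε-4ε² ≥ 1 + 2.96 ε`. The errors: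
`(1+3ε) L ‖s.2‖ η r ≤ 1.03 δ η r r'`, `(1+3ε) L 2 τ ‖s.1‖‖s.2‖ ≤ 1.03 τ L nsq s`, `‖s.2‖ η r' ≤ δ η r r'`,
`2 τ L1 ‖s.1‖‖s.2‖ ≤ 1.03 τ L nsq s`; total `≤ 2.03 δ η r r' + 2.06 τ L nsq s` and `τ ≤ ε/100`.

(2) `Psi_zero`: `Sf 0 = 0` (the bracket is `-‖θ-κ.1‖²/(2 L1)`, `0` at `θ = κ.1`), and
`(1+4ε) Hf A q0 ≤ 1.04 q0 A q0 ≤ 1.04 η r · A r ≤ 2.1 η r r'` where `q0 = ‖z.2 - a0 z.1‖ ≤ η r ≤ r` (`H_simple`, `mono`).
It also gives `Psi 0 ≥ 0`, which is not needed.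

(3) `Psi_lin`: `Psi s ≥ Bf s κ.1 ≥ - δ r (‖κ.1‖ + ‖κ.2‖) - δ r η r'` and `Hf ≥ 0`. -/

set_option autoImplicit false

noncomputable section

namespace Pool.Agent.H57.BJ

variable {E G : Type*} [NormedAddCommGroup E] [InnerProductSpace ℝ E] [FiniteDimensional ℝ E]
  [NormedAddCommGroup G] [InnerProductSpace ℝ G] [FiniteDimensional ℝ G]

omit [FiniteDimensional ℝ E] [FiniteDimensional ℝ G] in
private theorem clo_abs {s : E × G} {d : ℝ} (hd : 0 ≤ d) (hs : nsq s ≤ d ^ 2) :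
    ‖s.1‖ ≤ d ∧ ‖s.2‖ ≤ d := by
  unfold nsq at hs
  constructor
  · exact abs_le_of_sq_le_sq' (by nlinarith [sq_nonneg ‖s.2‖]) hd |>.2
  · exact abs_le_of_sq_le_sq' (by nlinarith [sq_nonneg ‖s.1‖]) hd |>.2

omit [FiniteDimensional ℝ E] [FiniteDimensional ℝ G] in
private theorem clo_q {r δ τ η : ℝ} (hr : 0 < r) (hδ : 0 < δ)
    (hδ1 : δ ≤ 1 / 20) (hτ : 0 ≤ τ) (hτ1 : τ ≤ 1 / 100) (hη1 : η ≤ 1 / 20)
    {a0 : E → G} {D0 : E → E →L[ℝ] G} {z : E × G}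
    (h0 : NearAffine a0 D0 z.1 (δ * r) τ (τ / r))
    (hz0 : ‖z.2 - a0 z.1‖ ≤ η * r) {s : E × G} (hs : nsq s ≤ (δ * r) ^ 2) :
    ‖s.2‖ - (η * r + 2 * τ * ‖s.1‖) ≤ ‖z.2 + s.2 - a0 (z.1 + s.1)‖ ∧
      ‖z.2 + s.2 - a0 (z.1 + s.1)‖ ≤ r := by
  have hδr : 0 ≤ δ * r := by positivity
  obtain ⟨h1, h2⟩ := clo_abs hδr hs
  have hm : z.1 + s.1 ∈ Metric.closedBall z.1 (δ * r) := by
    rw [mem_closedBall_iff_norm, add_sub_cancel_left]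
    exact h1
  have h3 := near_lip a0 D0 z.1 (δ * r) τ (τ / r) (by positivity) h0 z.1 (z.1 + s.1)
    (Metric.mem_closedBall_self hδr) hm
  rw [add_sub_cancel_left] at h3
  have h4 : τ + 2 * (δ * r) * (τ / r) ≤ 2 * τ := by
    have h5 : 2 * (δ * r) * (τ / r) = 2 * δ * τ := by
      field_simp
    rw [h5]
    nlinarith
  have h6 : ‖a0 (z.1 + s.1) - a0 z.1‖ ≤ 2 * τ * ‖s.1‖ :=
    h3.trans (mul_le_mul_of_nonneg_right h4 (norm_nonneg _))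
  have e1 : s.2 = (z.2 + s.2 - a0 (z.1 + s.1)) + (-(z.2 - a0 z.1) + (a0 (z.1 + s.1) - a0 z.1)) := by
    abel
  have e2 : z.2 + s.2 - a0 (z.1 + s.1) = s.2 + ((z.2 - a0 z.1) - (a0 (z.1 + s.1) - a0 z.1)) := by
    abel
  constructor
  · have h7 : ‖s.2‖ ≤ ‖z.2 + s.2 - a0 (z.1 + s.1)‖ +
        (‖z.2 - a0 z.1‖ + ‖a0 (z.1 + s.1) - a0 z.1‖) := by
      calc ‖s.2‖ = ‖(z.2 + s.2 - a0 (z.1 + s.1)) +
            (-(z.2 - a0 z.1) + (a0 (z.1 + s.1) - a0 z.1))‖ := by rw [← e1]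
        _ ≤ ‖z.2 + s.2 - a0 (z.1 + s.1)‖ + ‖-(z.2 - a0 z.1) + (a0 (z.1 + s.1) - a0 z.1)‖ :=
            norm_add_le _ _
        _ ≤ _ := by
            have := norm_add_le (-(z.2 - a0 z.1)) (a0 (z.1 + s.1) - a0 z.1)
            rw [norm_neg] at this
            linarith
    linarith
  · have h7 : ‖z.2 + s.2 - a0 (z.1 + s.1)‖ ≤ ‖s.2‖ +
        (‖z.2 - a0 z.1‖ + ‖a0 (z.1 + s.1) - a0 z.1‖) := by
      calc ‖z.2 + s.2 - a0 (z.1 + s.1)‖ =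
            ‖s.2 + ((z.2 - a0 z.1) - (a0 (z.1 + s.1) - a0 z.1))‖ := by rw [← e2]
        _ ≤ ‖s.2‖ + ‖(z.2 - a0 z.1) - (a0 (z.1 + s.1) - a0 z.1)‖ := norm_add_le _ _
        _ ≤ _ := by
            have := norm_sub_le (z.2 - a0 z.1) (a0 (z.1 + s.1) - a0 z.1)
            linarith
    have h8 : 2 * τ * ‖s.1‖ ≤ 2 * (1 / 100) * (δ * r) := by
      have := norm_nonneg s.1
      nlinarith
    have h9 : η * r ≤ 1 / 20 * r := mul_le_mul_of_nonneg_right hη1 hr.le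
    have h10 : δ * r ≤ 1 / 20 * r := mul_le_mul_of_nonneg_right hδ1 hr.le
    linarith

private theorem clo_eta {ε δ η : ℝ} (hε : 0 < ε) (hε1 : ε ≤ 1 / 100) (hδ : 0 < δ)
    (hδ1 : δ ≤ 1 / 20) (hη1 : η ≤ ε * δ ^ 2 / 20) : η ≤ 1 / 20 := by
  have h1 : ε * δ ^ 2 ≤ 1 := by
    have h2 : δ ^ 2 ≤ 1 := by nlinarith
    calc ε * δ ^ 2 ≤ 1 * 1 := mul_le_mul (by linarith) h2 (by positivity) (by norm_num)
      _ = 1 := one_mul 1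
  linarith

theorem Psi_lower
    (r r' ε δ τ η : ℝ) (hr : 0 < r) (hr' : 0 < r') (hε : 0 < ε) (hε1 : ε ≤ 1 / 100) (hδ : 0 < δ)
    (hδ1 : δ ≤ 1 / 20) (hτ : 0 ≤ τ) (hτ1 : τ ≤ ε / 100) (hη : 0 ≤ η) (hη1 : η ≤ ε * δ ^ 2 / 20)
    (A : ℝ → ℝ) (hA : Prof1 A) (hA1 : (1 - ε) * r' ≤ A r) (hA2 : A r ≤ 2 * r')
    (a0 a1 : E → G) (D0 D1 : E → E →L[ℝ] G) (z κ : E × G)
    (h0 : NearAffine a0 D0 z.1 (δ * r) τ (τ / r))
    (h1 : NearAffine a1 D1 κ.1 (4 * δ * r') τ (τ / r'))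
    (hz0 : ‖z.2 - a0 z.1‖ ≤ η * r) (hk1 : ‖κ.2 - a1 κ.1‖ ≤ η * r')
    (s : E × G) (hs : nsq s ≤ (δ * r) ^ 2) :
    ipr s κ + (1 + 14 / 5 * ε) / 2 * (r' / r) * nsq s - 21 / 10 * δ * η * r * r' ≤
      Psi ε A a0 a1 z κ (4 * δ * r') ((1 + 3 * ε) * (r' / r)) s := by
  have hη2 := clo_eta hε hε1 hδ hδ1 hη1
  have hρ : 0 ≤ 4 * δ * r' := by positivity
  have hτ2 : τ ≤ 1 / 100 := by linarith
  set L : ℝ := r' / r with hLdef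
  have hL : 0 < L := by positivity
  have hLr : L * r = r' := by
    rw [hLdef]
    field_simp
  obtain ⟨b1, b2⟩ := clo_abs (by positivity : 0 ≤ δ * r) hs
  obtain ⟨q1, q2⟩ := clo_q hr hδ hδ1 hτ hτ2 hη2 h0 hz0 hs
  set q : ℝ := ‖z.2 + s.2 - a0 (z.1 + s.1)‖ with hq
  set L1 : ℝ := (1 + 3 * ε) * L with hL1
  have hL10 : 0 < L1 := by positivity
  have hcont := near_cont a1 D1 κ.1 (4 * δ * r') τ (τ / r') (by positivity) h1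
  -- the bracket
  have hθmem : κ.1 + L1 • s.1 ∈ Metric.closedBall κ.1 (4 * δ * r') := by
    rw [mem_closedBall_iff_norm, add_sub_cancel_left, norm_smul, Real.norm_of_nonneg hL10.le]
    calc L1 * ‖s.1‖ ≤ L1 * (δ * r) := mul_le_mul_of_nonneg_left b1 hL10.le
      _ = (1 + 3 * ε) * δ * (L * r) := by rw [hL1]; ring
      _ = (1 + 3 * ε) * δ * r' := by rw [hLr]
      _ ≤ 4 * δ * r' := by
          have : (0 : ℝ) < δ * r' := by positivity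
          nlinarith
  have hSf : Bf a1 κ.1 L1 s (κ.1 + L1 • s.1) ≤ Sf a1 κ.1 (4 * δ * r') L1 s := by
    obtain ⟨θ, hθ, e, hm⟩ := Sf_max a1 κ.1 (4 * δ * r') L1 hρ hcont s
    rw [e]
    exact hm _ hθmem
  have hlip := near_lip a1 D1 κ.1 (4 * δ * r') τ (τ / r') (by positivity) h1 κ.1 (κ.1 + L1 • s.1)
    (Metric.mem_closedBall_self hρ) hθmem
  rw [add_sub_cancel_left, norm_smul, Real.norm_of_nonneg hL10.le] at hlip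
  have h4 : τ + 2 * (4 * δ * r') * (τ / r') ≤ 2 * τ := by
    have h5 : 2 * (4 * δ * r') * (τ / r') = 8 * δ * τ := by
      field_simp
      ring
    rw [h5]
    nlinarith
  have h6 : ‖a1 (κ.1 + L1 • s.1) - a1 κ.1‖ ≤ 2 * τ * (L1 * ‖s.1‖) :=
    hlip.trans (mul_le_mul_of_nonneg_right h4 (by positivity))
  have h7 : ‖a1 (κ.1 + L1 • s.1) - κ.2‖ ≤ 2 * τ * (L1 * ‖s.1‖) + η * r' := by
    have e1 : a1 (κ.1 + L1 • s.1) - κ.2 = (a1 (κ.1 + L1 • s.1) - a1 κ.1) - (κ.2 - a1 κ.1) := by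
      abel
    rw [e1]
    exact (norm_sub_le _ _).trans (add_le_add h6 hk1)
  have h8 : (inner ℝ s.2 κ.2 : ℝ) - ‖s.2‖ * (2 * τ * (L1 * ‖s.1‖) + η * r') ≤
      inner ℝ s.2 (a1 (κ.1 + L1 • s.1)) := by
    have h9 := neg_abs_le (inner ℝ s.2 (a1 (κ.1 + L1 • s.1) - κ.2) : ℝ)
    have h10 := abs_real_inner_le_norm s.2 (a1 (κ.1 + L1 • s.1) - κ.2)
    have h11 := mul_le_mul_of_nonneg_left h7 (norm_nonneg s.2)
    rw [inner_sub_right] at h9 h10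
    linarith
  have hBf : ipr s κ + L1 / 2 * ‖s.1‖ ^ 2 - ‖s.2‖ * (2 * τ * (L1 * ‖s.1‖) + η * r') ≤
      Bf a1 κ.1 L1 s (κ.1 + L1 • s.1) := by
    unfold Bf ipr
    rw [inner_add_right, real_inner_smul_right, real_inner_self_eq_norm_sq, add_sub_cancel_left,
      norm_smul, Real.norm_of_nonneg hL10.le]
    have e2 : (L1 * ‖s.1‖) ^ 2 / (2 * L1) = L1 / 2 * ‖s.1‖ ^ 2 := by
      field_simp
    rw [e2]
    linarith
  -- the profile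
  have hH := H_lower A hA r ((1 - ε) * r') q hr hA1 (norm_nonneg _) q2
  have e3 : (1 - ε) * r' / r * q ^ 2 / 2 = (1 - ε) * (L * q ^ 2 / 2) := by
    rw [hLdef]
    ring
  rw [e3] at hH
  set a : ℝ := ‖s.1‖ with ha
  set b : ℝ := ‖s.2‖ with hb
  have ha0 : 0 ≤ a := norm_nonneg _
  have hb0 : 0 ≤ b := norm_nonneg _
  have hq0 : 0 ≤ q := norm_nonneg _
  set e : ℝ := η * r + 2 * τ * a with he
  have he0 : 0 ≤ e := by positivity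
  have hq3 : b ^ 2 - 2 * b * e ≤ q ^ 2 := by
    rcases le_total e b with hbe | hbe
    · have h12 : (b - e) ^ 2 ≤ q ^ 2 := pow_le_pow_left₀ (by linarith) q1 2
      have h13 : (b - e) ^ 2 = b ^ 2 - 2 * b * e + e ^ 2 := by ring
      linarith [sq_nonneg e]
    · have h12 : b * b ≤ b * e := mul_le_mul_of_nonneg_left hbe hb0
      have h13 : b ^ 2 - 2 * b * e = b * b - 2 * (b * e) := by ring
      linarith [sq_nonneg q, mul_nonneg hb0 hb0]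
  have hc : 1 ≤ (1 + 4 * ε) * (1 - ε) := by nlinarith
  have hc2 : (1 + 4 * ε) * (1 - ε) ≤ 103 / 100 := by nlinarith
  set c : ℝ := (1 + 4 * ε) * (1 - ε) with hcdef
  have hH2 : c * (L * (b ^ 2 - 2 * b * e) / 2) ≤ (1 + 4 * ε) * Hf A q := by
    calc c * (L * (b ^ 2 - 2 * b * e) / 2) ≤ c * (L * q ^ 2 / 2) := by
          have : L * (b ^ 2 - 2 * b * e) ≤ L * q ^ 2 := mul_le_mul_of_nonneg_left hq3 hL.le
          have hc0 : 0 ≤ c := by linarith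
          exact mul_le_mul_of_nonneg_left (by linarith) hc0
      _ = (1 + 4 * ε) * ((1 - ε) * (L * q ^ 2 / 2)) := by rw [hcdef]; ring
      _ ≤ (1 + 4 * ε) * Hf A q := mul_le_mul_of_nonneg_left hH (by linarith)
  unfold Psi nsq
  have hbase : ipr s κ + L1 / 2 * a ^ 2 - b * (2 * τ * (L1 * a) + η * r') +
      c * (L * (b ^ 2 - 2 * b * e) / 2) ≤ Sf a1 κ.1 (4 * δ * r') L1 s + (1 + 4 * ε) * Hf A q := by
    linarith
  refine le_trans ?_ hbase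
  -- numerical part
  have hX : 0 ≤ L * a ^ 2 := by positivity
  have hY : 0 ≤ L * b ^ 2 := by positivity
  have hW : 2 * (L * (a * b)) ≤ L * a ^ 2 + L * b ^ 2 := by nlinarith [mul_nonneg hL.le (sq_nonneg (a - b))]
  have hW0 : 0 ≤ L * (a * b) := by positivity
  have hP : b * (η * r') ≤ δ * η * r * r' := by
    calc b * (η * r') ≤ δ * r * (η * r') := mul_le_mul_of_nonneg_right b2 (by positivity)
      _ = δ * η * r * r' := by ring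
  have hP0 : 0 ≤ b * (η * r') := by positivity
  have hcP : c * (b * (η * r')) ≤ 103 / 100 * (δ * η * r * r') :=
    mul_le_mul hc2 hP hP0 (by norm_num)
  have hcW : c * (τ * (L * (a * b))) ≤ 103 / 100 * (ε / 100 * (L * (a * b))) :=
    mul_le_mul hc2 (mul_le_mul_of_nonneg_right hτ1 hW0) (by positivity) (by norm_num)
  have hτW : τ * (L1 * a) * b ≤ 103 / 100 * (ε / 100 * (L * (a * b))) := by
    have e4 : τ * (L1 * a) * b = (1 + 3 * ε) * (τ * (L * (a * b))) := by rw [hL1]; ring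
    rw [e4]
    exact mul_le_mul (by linarith) (mul_le_mul_of_nonneg_right hτ1 hW0) (by positivity)
      (by norm_num)
  have e5 : c * (L * (b ^ 2 - 2 * b * e) / 2) =
      c * (L * b ^ 2) / 2 - c * (b * (η * r')) - 2 * (c * (τ * (L * (a * b)))) := by
    rw [he, ← hLr]
    ring
  have e6 : (1 + 3 * ε - 4 * ε ^ 2) * (L * b ^ 2) = c * (L * b ^ 2) := by
    rw [hcdef]
    ring
  have h13 : (1 + 74 / 25 * ε) * (L * b ^ 2) ≤ c * (L * b ^ 2) := by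
    rw [← e6]
    refine mul_le_mul_of_nonneg_right ?_ hY
    nlinarith
  have hεW : ε * (2 * (L * (a * b))) ≤ ε * (L * a ^ 2 + L * b ^ 2) :=
    mul_le_mul_of_nonneg_left hW hε.le
  have hεX : 0 ≤ ε * (L * a ^ 2) := by positivity
  have hεY : 0 ≤ ε * (L * b ^ 2) := by positivity
  have hδη : 0 ≤ δ * η * r * r' := by positivity
  rw [e5]
  have e7 : L1 / 2 * a ^ 2 = (1 + 3 * ε) * (L * a ^ 2) / 2 := by rw [hL1]; ring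
  rw [e7]
  have e8 : (1 + 14 / 5 * ε) / 2 * L * (a ^ 2 + b ^ 2) =
      (L * a ^ 2 + L * b ^ 2) / 2 + 7 / 5 * (ε * (L * a ^ 2)) + 7 / 5 * (ε * (L * b ^ 2)) := by ring
  rw [e8]
  have e9 : 21 / 10 * δ * η * r * r' = 21 / 10 * (δ * η * r * r') := by ring
  rw [e9]
  nlinarith

theorem Psi_zero
    (r r' ε δ τ η : ℝ) (hr : 0 < r) (hr' : 0 < r') (hε : 0 < ε) (hε1 : ε ≤ 1 / 100) (hδ : 0 < δ)
    (hδ1 : δ ≤ 1 / 20) (hτ : 0 ≤ τ) (hτ1 : τ ≤ ε / 100) (hη : 0 ≤ η) (hη1 : η ≤ ε * δ ^ 2 / 20)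
    (A : ℝ → ℝ) (hA : Prof1 A) (hA1 : (1 - ε) * r' ≤ A r) (hA2 : A r ≤ 2 * r')
    (a0 a1 : E → G) (D0 D1 : E → E →L[ℝ] G) (z κ : E × G)
    (h0 : NearAffine a0 D0 z.1 (δ * r) τ (τ / r))
    (h1 : NearAffine a1 D1 κ.1 (4 * δ * r') τ (τ / r'))
    (hz0 : ‖z.2 - a0 z.1‖ ≤ η * r) (hk1 : ‖κ.2 - a1 κ.1‖ ≤ η * r') :
    Psi ε A a0 a1 z κ (4 * δ * r') ((1 + 3 * ε) * (r' / r)) 0 ≤ 21 / 10 * η * r * r' := by
  have hη2 := clo_eta hε hε1 hδ hδ1 hη1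
  have hρ : 0 ≤ 4 * δ * r' := by positivity
  have hcont := near_cont a1 D1 κ.1 (4 * δ * r') τ (τ / r') (by positivity) h1
  have hL10 : 0 < (1 + 3 * ε) * (r' / r) := by positivity
  have hSf : Sf a1 κ.1 (4 * δ * r') ((1 + 3 * ε) * (r' / r)) 0 ≤ 0 := by
    obtain ⟨θ, hθ, e, -⟩ := Sf_max a1 κ.1 (4 * δ * r') ((1 + 3 * ε) * (r' / r)) hρ hcont 0
    rw [e]
    unfold Bf
    rw [Prod.fst_zero, Prod.snd_zero, inner_zero_left, inner_zero_left]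
    have : 0 ≤ ‖θ - κ.1‖ ^ 2 / (2 * ((1 + 3 * ε) * (r' / r))) := by positivity
    linarith
  unfold Psi
  rw [Prod.fst_zero, Prod.snd_zero, add_zero, add_zero]
  set q : ℝ := ‖z.2 - a0 z.1‖ with hq
  have hq0 : 0 ≤ q := norm_nonneg _
  have hqr : q ≤ r := by nlinarith
  have h2 := H_simple A hA q hq0
  have h3 : A q ≤ A r := hA.mono hq0 hr.le hqr
  have h4 : 0 ≤ A q := profile_nonneg A hA q hq0
  have h5 : q * A q ≤ η * r * (2 * r') := mul_le_mul hz0 (h3.trans hA2) h4 (by positivity)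
  have h6 : 0 ≤ η * r * r' := by positivity
  have h7 : (1 + 4 * ε) * Hf A q ≤ 104 / 100 * (η * r * (2 * r')) := by
    have h8 : 0 ≤ η * r * (2 * r') := by positivity
    calc (1 + 4 * ε) * Hf A q ≤ (1 + 4 * ε) * (η * r * (2 * r')) :=
          mul_le_mul_of_nonneg_left (h2.trans h5) (by linarith)
      _ ≤ 104 / 100 * (η * r * (2 * r')) := mul_le_mul_of_nonneg_right (by linarith) h8
  nlinarith

theorem Psi_lin
    (r r' ε δ τ η : ℝ) (hr : 0 < r) (hr' : 0 < r') (hε : 0 < ε) (hε1 : ε ≤ 1 / 100) (hδ : 0 < δ)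
    (hδ1 : δ ≤ 1 / 20) (hτ : 0 ≤ τ) (hτ1 : τ ≤ ε / 100) (hη : 0 ≤ η) (hη1 : η ≤ ε * δ ^ 2 / 20)
    (A : ℝ → ℝ) (hA : Prof1 A) (hA1 : (1 - ε) * r' ≤ A r) (hA2 : A r ≤ 2 * r')
    (a0 a1 : E → G) (D0 D1 : E → E →L[ℝ] G) (z κ : E × G)
    (h0 : NearAffine a0 D0 z.1 (δ * r) τ (τ / r))
    (h1 : NearAffine a1 D1 κ.1 (4 * δ * r') τ (τ / r'))
    (hz0 : ‖z.2 - a0 z.1‖ ≤ η * r) (hk1 : ‖κ.2 - a1 κ.1‖ ≤ η * r')
    (s : E × G) (hs : nsq s ≤ (δ * r) ^ 2) :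
    -(δ * r * (‖κ.1‖ + ‖κ.2‖)) - δ * η * r * r' ≤
      Psi ε A a0 a1 z κ (4 * δ * r') ((1 + 3 * ε) * (r' / r)) s := by
  have hη2 := clo_eta hε hε1 hδ hδ1 hη1
  have hρ : 0 ≤ 4 * δ * r' := by positivity
  have hτ2 : τ ≤ 1 / 100 := by linarith
  have hcont := near_cont a1 D1 κ.1 (4 * δ * r') τ (τ / r') (by positivity) h1
  obtain ⟨b1, b2⟩ := clo_abs (by positivity : 0 ≤ δ * r) hs
  obtain ⟨-, q2⟩ := clo_q hr hδ hδ1 hτ hτ2 hη2 h0 hz0 hs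
  have hH : 0 ≤ Hf A ‖z.2 + s.2 - a0 (z.1 + s.1)‖ := by
    have h2 := H_lower A hA r 0 ‖z.2 + s.2 - a0 (z.1 + s.1)‖ hr
      (profile_nonneg A hA r hr.le) (norm_nonneg _) q2
    simpa using h2
  have hSf : Bf a1 κ.1 ((1 + 3 * ε) * (r' / r)) s κ.1 ≤
      Sf a1 κ.1 (4 * δ * r') ((1 + 3 * ε) * (r' / r)) s := by
    obtain ⟨θ, hθ, e, hm⟩ := Sf_max a1 κ.1 (4 * δ * r') ((1 + 3 * ε) * (r' / r)) hρ hcont s
    rw [e]
    exact hm _ (Metric.mem_closedBall_self hρ)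
  have hB : -(δ * r * (‖κ.1‖ + ‖κ.2‖)) - δ * η * r * r' ≤
      Bf a1 κ.1 ((1 + 3 * ε) * (r' / r)) s κ.1 := by
    unfold Bf
    rw [sub_self, norm_zero]
    have h3 := neg_abs_le (inner ℝ s.1 κ.1 : ℝ)
    have h4 := abs_real_inner_le_norm s.1 κ.1
    have h5 := neg_abs_le (inner ℝ s.2 (a1 κ.1) : ℝ)
    have h6 := abs_real_inner_le_norm s.2 (a1 κ.1)
    have h7 : ‖a1 κ.1‖ ≤ ‖κ.2‖ + η * r' := by
      have e1 : a1 κ.1 = κ.2 - (κ.2 - a1 κ.1) := by abel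
      calc ‖a1 κ.1‖ = ‖κ.2 - (κ.2 - a1 κ.1)‖ := by rw [← e1]
        _ ≤ ‖κ.2‖ + ‖κ.2 - a1 κ.1‖ := norm_sub_le _ _
        _ ≤ ‖κ.2‖ + η * r' := by linarith
    have h8 : ‖s.1‖ * ‖κ.1‖ ≤ δ * r * ‖κ.1‖ := mul_le_mul_of_nonneg_right b1 (norm_nonneg _)
    have h9 : ‖s.2‖ * ‖a1 κ.1‖ ≤ δ * r * (‖κ.2‖ + η * r') :=
      mul_le_mul b2 h7 (norm_nonneg _) (by positivity)
    have e2 : (0 : ℝ) ^ 2 / (2 * ((1 + 3 * ε) * (r' / r))) = 0 := by simp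
    rw [e2]
    nlinarith
  unfold Psi
  have h10 : 0 ≤ (1 + 4 * ε) * Hf A ‖z.2 + s.2 - a0 (z.1 + s.1)‖ := mul_nonneg (by linarith) hH
  linarith

end Pool.Agent.H57.BJ
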