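import Pool.Agent.H57.BJ.CHH
import Pool.Agent.H57.BJ.CGA

/-! # [BJ-CUP] growth of the contact function

Target [C-UP] (helper57, R4 of proofs 313). Put `L = r'/r`, `L1 = (1+3ε) L`, `ρ = 4 δ r'`. Let `nsq s ≤ (δ r/2)²`,
`nsq v ≤ (δ r/2)²`, `θ` a maximiser of the bracket at `s`, `x = z.2 + s.2 - a0 (z.1 + s.1)`,
`L2 ‖x‖ = (1+4ε) A ‖x‖` (`L2 = 1+4ε` if `x = 0`), `ξ = L2 x`, `⟨u, ζ⟩ = ⟨D0 (z.1+s.1) u, ξ⟩` for all `u`.

(a) `‖x‖ ≤ η r + δ r/2 + 2 τ δ r/2 ≤ δ r` (`near_lip` with `2 · δ r · τ/r ≤ τ`), so `A ‖x‖ / ‖x‖ ≥ A r / r ≥ (1-ε) L`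
(for `x = 0` use `A r ≤ r`, `profile_le`), hence `L2 ≥ (1+4ε)(1-ε) L` and `L1 ≤ (1+ε) L2`.

(b) `Sf_gain` with `T = 2τ`, `c = (1 - 3 δ τ)/(2 L1)`: `‖s.2‖ τ/r' ≤ δ τ r/r' = δ τ/L` and `2 L1 · δ τ/L = 2 (1+3ε) δ τ
≤ 3 δ τ`. So `Sf (s+v) ≤ Sf s + ⟨v.1, θ⟩ + ⟨v.2, a1 θ⟩ + L1/2 (‖v.1‖ + 2τ‖v.2‖)²/(1 - 3δτ)`.

(c) `x' = z.2 + (s+v).2 - a0 (z.1 + (s+v).1) = x + w`, `w = v.2 - D0 (z.1+s.1) v.1 - R`, `‖R‖ ≤ (τ/r) ‖v.1‖²`,
`‖w‖ ≤ ‖v.2‖ + 2τ‖v.1‖`. `H_upper` with `p = ‖x‖`, `q = ‖x'‖`, `k = L2/(1+4ε)`: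
`(1+4ε) Hf A q ≤ (1+4ε) Hf A p + L2/2 (2⟨x,w⟩ + ‖w‖²)`, and `L2 ⟨x, w⟩ = ⟨ξ, v.2⟩ - ⟨v.1, ζ⟩ - ⟨ξ, R⟩`,
`|⟨ξ,R⟩| ≤ L2 δ r (τ/r) ‖v.1‖² = L2 δ τ ‖v.1‖²`.

(d) Sum: `ipr v (θ - ζ, a1 θ + ξ)` plus at most
`(L2/2) [ (1+ε)/(1-3δτ) ((‖v.1‖+2τ‖v.2‖)² + (‖v.2‖+2τ‖v.1‖)²) + 2δτ nsq v ]`, and the sum of the two squares is
`≤ (1+4τ+4τ²) nsq v`. With `τ ≤ ε/100`, `δ ≤ 1/20`, `ε ≤ 1/100` this is `≤ (1+2ε) L2/2 nsq v`. -/

set_option autoImplicit false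

noncomputable section

namespace Pool.Agent.H57.BJ

variable {E G : Type*} [NormedAddCommGroup E] [InnerProductSpace ℝ E] [FiniteDimensional ℝ E]
  [NormedAddCommGroup G] [InnerProductSpace ℝ G] [FiniteDimensional ℝ G]

theorem le_of_sq_le_sq {a b : ℝ} (h : a ^ 2 ≤ b ^ 2) (hb : 0 ≤ b) : a ≤ b :=
  le_of_abs_le ((sq_le_sq.mp h).trans_eq (abs_of_nonneg hb))

theorem cup_num1 (ε q : ℝ) (hε : 0 < ε) (hε1 : ε ≤ 1 / 100) (hq1 : 1 - 3 * ε / 2000 ≤ q) :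
    1 + 3 * ε ≤ (1 + 3 / 2 * ε) * q * ((1 + 4 * ε) * (1 - ε)) := by
  have hε2 : 0 < 1 - ε := by linarith
  have h9 : (1 + 3 / 2 * ε) * (1 - 3 * ε / 2000) * ((1 + 4 * ε) * (1 - ε)) ≤
      (1 + 3 / 2 * ε) * q * ((1 + 4 * ε) * (1 - ε)) := by
    apply mul_le_mul_of_nonneg_right _ (by positivity)
    exact mul_le_mul_of_nonneg_left hq1 (by positivity)
  refine le_trans ?_ h9
  have h11 : ε ^ 2 ≤ ε / 100 := by nlinarith
  have h12 : ε ^ 3 ≤ ε ^ 2 / 100 := by nlinarith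
  have h13 : ε ^ 4 ≤ ε ^ 3 / 100 := by nlinarith [pow_pos hε 3]
  have h10 : 0 ≤ ε ^ 2 := by positivity
  have h14 : 0 ≤ ε ^ 3 := by positivity
  have h15 : 0 ≤ ε ^ 4 := by positivity
  have h16 : (1 + 3 / 2 * ε) * (1 - 3 * ε / 2000) * ((1 + 4 * ε) * (1 - ε)) =
      1 + (3 / 2 - 3 / 2000 + 3) * ε + (3 * (3 / 2 - 3 / 2000) - 4 - 9 / 4000) * ε ^ 2
      - (4 * (3 / 2 - 3 / 2000) + 3 * (9 / 4000)) * ε ^ 3 + 9 / 1000 * ε ^ 4 := by ring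
  rw [h16]
  linarith

theorem cup_num2 (N1 N2 τ : ℝ) (hτ : 0 ≤ τ) (hτ2 : τ ≤ 1 / 10000) :
    (N1 + 2 * τ * N2) ^ 2 + (N2 + 2 * τ * N1) ^ 2 ≤ (1 + 5 * τ) * (N1 ^ 2 + N2 ^ 2) := by
  have hτsq : τ ^ 2 ≤ τ / 10000 := by nlinarith
  have h1 := mul_nonneg hτ (sq_nonneg (N1 - N2))
  have h2 := mul_nonneg (sub_nonneg.mpr hτsq) (add_nonneg (sq_nonneg N1) (sq_nonneg N2))
  have h3 := mul_nonneg hτ (add_nonneg (sq_nonneg N1) (sq_nonneg N2))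
  linarith [h1, h2, h3]

theorem cup_num3 (ε δ τ : ℝ) (hε : 0 < ε) (hε1 : ε ≤ 1 / 100) (hτ : 0 ≤ τ) (hτ1 : τ ≤ ε / 100)
    (hδτ : δ * τ ≤ ε / 2000) : (1 + 3 / 2 * ε) * (1 + 5 * τ) + 2 * (δ * τ) ≤ 1 + 2 * ε := by
  have h1 : ε * τ ≤ ε * (1 / 10000) := mul_le_mul_of_nonneg_left (by linarith) hε.le
  linarith

theorem x_small
    (r r' ε δ τ η : ℝ) (hr : 0 < r) (hr' : 0 < r') (hε : 0 < ε) (hε1 : ε ≤ 1 / 100) (hδ : 0 < δ)
    (hδ1 : δ ≤ 1 / 20) (hτ : 0 ≤ τ) (hτ1 : τ ≤ ε / 100) (hη : 0 ≤ η) (hη1 : η ≤ ε * δ ^ 2 / 20)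
    (A : ℝ → ℝ) (hA : Prof1 A) (hA1 : (1 - ε) * r' ≤ A r) (hA2 : A r ≤ 2 * r')
    (a0 a1 : E → G) (D0 D1 : E → E →L[ℝ] G) (z κ : E × G)
    (h0 : NearAffine a0 D0 z.1 (δ * r) τ (τ / r))
    (h1 : NearAffine a1 D1 κ.1 (4 * δ * r') τ (τ / r'))
    (hz0 : ‖z.2 - a0 z.1‖ ≤ η * r) (hk1 : ‖κ.2 - a1 κ.1‖ ≤ η * r')
    (s : E × G) (hs : nsq s ≤ (δ * r / 2) ^ 2) :
    ‖z.2 + s.2 - a0 (z.1 + s.1)‖ ≤ δ * r := by
  have hδr : 0 < δ * r := by positivity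
  have hn1 : ‖s.1‖ ≤ δ * r / 2 := by
    have : ‖s.1‖ ^ 2 ≤ (δ * r / 2) ^ 2 := by
      have h2 : 0 ≤ ‖s.2‖ ^ 2 := by positivity
      unfold nsq at hs; linarith
    exact le_of_sq_le_sq this (by positivity)
  have hn2 : ‖s.2‖ ≤ δ * r / 2 := by
    have : ‖s.2‖ ^ 2 ≤ (δ * r / 2) ^ 2 := by
      have h2 : 0 ≤ ‖s.1‖ ^ 2 := by positivity
      unfold nsq at hs; linarith
    exact le_of_sq_le_sq this (by positivity)
  have hmem0 : z.1 ∈ Metric.closedBall z.1 (δ * r) := Metric.mem_closedBall_self hδr.le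
  have hmem1 : z.1 + s.1 ∈ Metric.closedBall z.1 (δ * r) := by
    rw [Metric.mem_closedBall, dist_eq_norm]
    have : z.1 + s.1 - z.1 = s.1 := by abel
    rw [this]; linarith
  have hlip := near_lip a0 D0 z.1 (δ * r) τ (τ / r) (by positivity) h0 z.1 (z.1 + s.1) hmem0 hmem1
  have e1 : z.1 + s.1 - z.1 = s.1 := by abel
  rw [e1] at hlip
  have e2 : τ + 2 * (δ * r) * (τ / r) = τ * (1 + 2 * δ) := by field_simp
  rw [e2] at hlip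
  have e3 : z.2 + s.2 - a0 (z.1 + s.1) = (z.2 - a0 z.1) + s.2 - (a0 (z.1 + s.1) - a0 z.1) := by abel
  rw [e3]
  have hτ2 : τ ≤ 1 / 10000 := by linarith
  have hτδ : τ * (1 + 2 * δ) ≤ 1 / 5000 := by
    calc τ * (1 + 2 * δ) ≤ 1 / 10000 * (1 + 2 * (1 / 20)) :=
          mul_le_mul hτ2 (by linarith) (by positivity) (by norm_num)
      _ ≤ 1 / 5000 := by norm_num
  have hηδ : η ≤ δ / 20 := by
    have h1 : ε * δ ≤ 1 / 100 * (1 / 20) := mul_le_mul hε1 hδ1 hδ.le (by norm_num)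
    have h2 : ε * δ * δ ≤ 1 / 100 * (1 / 20) * δ := mul_le_mul_of_nonneg_right h1 hδ.le
    have h3 : ε * δ ^ 2 = ε * δ * δ := by ring
    rw [h3] at hη1
    linarith
  have h5 : ‖a0 (z.1 + s.1) - a0 z.1‖ ≤ 1 / 5000 * (δ * r / 2) := by
    refine hlip.trans ?_
    exact mul_le_mul hτδ hn1 (norm_nonneg _) (by norm_num)
  have h6 : η * r ≤ δ / 20 * r := mul_le_mul_of_nonneg_right hηδ hr.le
  calc ‖(z.2 - a0 z.1) + s.2 - (a0 (z.1 + s.1) - a0 z.1)‖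
      ≤ ‖(z.2 - a0 z.1) + s.2‖ + ‖a0 (z.1 + s.1) - a0 z.1‖ := norm_sub_le _ _
    _ ≤ ‖z.2 - a0 z.1‖ + ‖s.2‖ + ‖a0 (z.1 + s.1) - a0 z.1‖ := by
        gcongr; exact norm_add_le _ _
    _ ≤ δ / 20 * r + δ * r / 2 + 1 / 5000 * (δ * r / 2) := by linarith
    _ ≤ δ * r := by linarith

theorem Psi_growth
    (r r' ε δ τ η : ℝ) (hr : 0 < r) (hr' : 0 < r') (hε : 0 < ε) (hε1 : ε ≤ 1 / 100) (hδ : 0 < δ)
    (hδ1 : δ ≤ 1 / 20) (hτ : 0 ≤ τ) (hτ1 : τ ≤ ε / 100) (hη : 0 ≤ η) (hη1 : η ≤ ε * δ ^ 2 / 20)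
    (A : ℝ → ℝ) (hA : Prof1 A) (hA1 : (1 - ε) * r' ≤ A r) (hA2 : A r ≤ 2 * r')
    (a0 a1 : E → G) (D0 D1 : E → E →L[ℝ] G) (z κ : E × G)
    (h0 : NearAffine a0 D0 z.1 (δ * r) τ (τ / r))
    (h1 : NearAffine a1 D1 κ.1 (4 * δ * r') τ (τ / r'))
    (hz0 : ‖z.2 - a0 z.1‖ ≤ η * r) (hk1 : ‖κ.2 - a1 κ.1‖ ≤ η * r')
    (s v : E × G) (hs : nsq s ≤ (δ * r / 2) ^ 2) (hv : nsq v ≤ (δ * r / 2) ^ 2)
    (θ ζ : E) (x : G) (L2 : ℝ) (hθ : θ ∈ Metric.closedBall κ.1 (4 * δ * r'))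
    (hmax : ∀ θ' ∈ Metric.closedBall κ.1 (4 * δ * r'),
      Bf a1 κ.1 ((1 + 3 * ε) * (r' / r)) s θ' ≤ Bf a1 κ.1 ((1 + 3 * ε) * (r' / r)) s θ)
    (hx : x = z.2 + s.2 - a0 (z.1 + s.1)) (hL2 : L2 * ‖x‖ = (1 + 4 * ε) * A ‖x‖)
    (hL2' : x = 0 → L2 = 1 + 4 * ε)
    (hζ : ∀ u : E, inner ℝ u ζ = (inner ℝ (D0 (z.1 + s.1) u) (L2 • x) : ℝ)) :
    Psi ε A a0 a1 z κ (4 * δ * r') ((1 + 3 * ε) * (r' / r)) (s + v) ≤
      Psi ε A a0 a1 z κ (4 * δ * r') ((1 + 3 * ε) * (r' / r)) s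
        + ipr v (θ - ζ, a1 θ + L2 • x) + (1 + 2 * ε) / 2 * L2 * nsq v := by
  have hδr : 0 < δ * r := by positivity
  have hτ2 : τ ≤ 1 / 10000 := by linarith
  set X : ℝ := ‖x‖ with hX
  set N1 : ℝ := ‖v.1‖ with hN1
  set N2 : ℝ := ‖v.2‖ with hN2
  have hN1p : 0 ≤ N1 := norm_nonneg _
  have hN2p : 0 ≤ N2 := norm_nonneg _
  have hXp : 0 ≤ X := norm_nonneg _
  have hs1 : ‖s.1‖ ≤ δ * r / 2 := by
    have : ‖s.1‖ ^ 2 ≤ (δ * r / 2) ^ 2 := by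
      have h2 : 0 ≤ ‖s.2‖ ^ 2 := by positivity
      unfold nsq at hs; linarith
    exact le_of_sq_le_sq this (by positivity)
  have hs2 : ‖s.2‖ ≤ δ * r / 2 := by
    have : ‖s.2‖ ^ 2 ≤ (δ * r / 2) ^ 2 := by
      have h2 : 0 ≤ ‖s.1‖ ^ 2 := by positivity
      unfold nsq at hs; linarith
    exact le_of_sq_le_sq this (by positivity)
  have hv1 : N1 ≤ δ * r / 2 := by
    have : N1 ^ 2 ≤ (δ * r / 2) ^ 2 := by
      have h2 : 0 ≤ ‖v.2‖ ^ 2 := by positivity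
      unfold nsq at hv; linarith
    exact le_of_sq_le_sq this (by positivity)
  have hXs : X ≤ δ * r := by
    rw [hX, hx]
    exact x_small r r' ε δ τ η hr hr' hε hε1 hδ hδ1 hτ hτ1 hη hη1 A hA hA1 hA2 a0 a1 D0 D1 z κ
      h0 h1 hz0 hk1 s hs
  have hXr : X ≤ r := by
    have h1 : δ * r ≤ 1 / 20 * r := mul_le_mul_of_nonneg_right hδ1 hr.le
    linarith
  -- (a) lower bound for L2
  have hLpos : 0 < r' / r := by positivity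
  have hLmul : r' / r * r = r' := by field_simp
  have hL2low : (1 + 4 * ε) * (1 - ε) * (r' / r) ≤ L2 := by
    rcases eq_or_lt_of_le hXp with h | h
    · have hx0 : x = 0 := norm_eq_zero.mp (by rw [← hX]; exact h.symm)
      rw [hL2' hx0]
      have h3 : A r ≤ r := profile_le A hA r hr.le
      have h4 : (1 - ε) * (r' / r) ≤ 1 := by
        rw [← mul_div_assoc, div_le_one hr]; linarith
      rw [mul_assoc]
      calc (1 + 4 * ε) * ((1 - ε) * (r' / r)) ≤ (1 + 4 * ε) * 1 :=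
            mul_le_mul_of_nonneg_left h4 (by positivity)
        _ = 1 + 4 * ε := mul_one _
    · have h3 : A r * X ≤ A X * r := hA.ratio X r h hXr
      have h4 : (1 - ε) * r' * X ≤ A X * r := by
        refine le_trans ?_ h3
        exact mul_le_mul_of_nonneg_right hA1 hXp
      have h5 : (1 - ε) * (r' / r) * X ≤ A X := by
        have : (1 - ε) * (r' / r) * X = (1 - ε) * r' * X / r := by ring
        rw [this, div_le_iff₀ hr]; exact h4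
      have h6 : (1 + 4 * ε) * ((1 - ε) * (r' / r)) * X ≤ L2 * X := by
        rw [hL2, mul_assoc]
        exact mul_le_mul_of_nonneg_left h5 (by positivity)
      have h7 := le_of_mul_le_mul_right h6 h
      linarith [h7, mul_assoc (1 + 4 * ε) (1 - ε) (r' / r)]
  have hε2 : 0 < 1 - ε := by linarith
  have hL2pos : 0 < L2 := lt_of_lt_of_le (by positivity) hL2low
  set L1 : ℝ := (1 + 3 * ε) * (r' / r) with hL1
  have hL1pos : 0 < L1 := by positivity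
  set q : ℝ := 1 - 3 * δ * τ with hq
  have hδτ : δ * τ ≤ ε / 2000 := by
    calc δ * τ ≤ 1 / 20 * (ε / 100) := mul_le_mul hδ1 hτ1 hτ (by norm_num)
      _ = ε / 2000 := by ring
  have hqe : q = 1 - 3 * (δ * τ) := by rw [hq]; ring
  have hδτ0 : 0 ≤ δ * τ := by positivity
  have hqpos : 0 < q := by rw [hqe]; linarith
  have hL1q : L1 ≤ (1 + 3 / 2 * ε) * q * L2 := by
    have h8 : (1 + 3 * ε) ≤ (1 + 3 / 2 * ε) * q * ((1 + 4 * ε) * (1 - ε)) := by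
      have hq1 : 1 - 3 * ε / 2000 ≤ q := by rw [hqe]; linarith
      exact cup_num1 ε q hε hε1 hq1
    have h16 : L1 ≤ (1 + 3 / 2 * ε) * q * ((1 + 4 * ε) * (1 - ε)) * (r' / r) := by
      rw [hL1]; exact mul_le_mul_of_nonneg_right h8 hLpos.le
    refine h16.trans ?_
    have h17 : (1 + 3 / 2 * ε) * q * ((1 + 4 * ε) * (1 - ε)) * (r' / r) =
        (1 + 3 / 2 * ε) * q * ((1 + 4 * ε) * (1 - ε) * (r' / r)) := by ring
    rw [h17]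
    exact mul_le_mul_of_nonneg_left hL2low (by positivity)
  -- (b) the bracket
  have hρ : 0 ≤ 4 * δ * r' := by positivity
  have hcont : ContinuousOn a1 (Metric.closedBall κ.1 (4 * δ * r')) :=
    near_cont a1 D1 κ.1 (4 * δ * r') τ (τ / r') (by positivity) h1
  have hSs : Sf a1 κ.1 (4 * δ * r') L1 s = Bf a1 κ.1 L1 s θ := by
    obtain ⟨θ', h3, h4, h5⟩ := Sf_max a1 κ.1 (4 * δ * r') L1 hρ hcont s
    rw [h4]
    exact le_antisymm (hmax θ' h3) (h5 θ hθ)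
  have hgain := Sf_gain a1 D1 κ.1 (4 * δ * r') τ (τ / r') L1 (2 * τ) (q / (2 * L1)) hρ
    (by positivity) hL1pos
    (by
      have : τ + 2 * (4 * δ * r') * (τ / r') = τ * (1 + 8 * δ) := by field_simp; ring
      rw [this]
      have h2 := mul_le_mul_of_nonneg_left (by linarith : 1 + 8 * δ ≤ 2) hτ
      linarith)
    h1 s v (by positivity)
    (by
      have h3 : ‖s.2‖ * (τ / r') ≤ 3 * δ * τ / (2 * L1) := by
        have h4 : 3 * δ * τ / (2 * L1) = 3 * δ * τ * r / (2 * (1 + 3 * ε) * r') := by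
          have h41 : 2 * L1 = 2 * (1 + 3 * ε) * r' / r := by rw [hL1]; ring
          rw [h41, div_div_eq_mul_div]
        rw [h4, ← mul_div_assoc, div_le_div_iff₀ hr' (by positivity)]
        have h5 : ‖s.2‖ * τ ≤ δ * r / 2 * τ := mul_le_mul_of_nonneg_right hs2 hτ
        have h6 : ‖s.2‖ * τ * (2 * (1 + 3 * ε) * r') ≤ δ * r / 2 * τ * (2 * (1 + 3 * ε) * r') :=
          mul_le_mul_of_nonneg_right h5 (by positivity)
        refine h6.trans ?_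
        have h7 : δ * r / 2 * τ * (2 * (1 + 3 * ε) * r') = δ * τ * r * r' * (1 + 3 * ε) := by ring
        have h8 : 3 * δ * τ * r * r' = δ * τ * r * r' * 3 := by ring
        rw [h7, h8]
        exact mul_le_mul_of_nonneg_left (by linarith) (by positivity)
      have h9 : q / (2 * L1) = 1 / (2 * L1) - 3 * δ * τ / (2 * L1) := by
        rw [hq]; ring
      rw [h9]; linarith)
    θ hθ hmax
  have hterm : (N1 + 2 * τ * N2) ^ 2 / (4 * (q / (2 * L1))) ≤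
      (1 + 3 / 2 * ε) * L2 / 2 * (N1 + 2 * τ * N2) ^ 2 := by
    have h3 : (N1 + 2 * τ * N2) ^ 2 / (4 * (q / (2 * L1))) = L1 * (N1 + 2 * τ * N2) ^ 2 / (2 * q) := by
      field_simp; ring
    rw [h3, div_le_iff₀ (by positivity)]
    have h4 : L1 * (N1 + 2 * τ * N2) ^ 2 ≤ (1 + 3 / 2 * ε) * q * L2 * (N1 + 2 * τ * N2) ^ 2 :=
      mul_le_mul_of_nonneg_right hL1q (by positivity)
    refine h4.trans (le_of_eq ?_)
    ring
  -- (c) the H part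
  set y : E := z.1 + s.1 with hy
  set R : G := a0 (y + v.1) - a0 y - D0 y v.1 with hR
  set w : G := v.2 - (a0 (y + v.1) - a0 y) with hw
  have hmemy : y ∈ Metric.closedBall z.1 (δ * r) := by
    rw [Metric.mem_closedBall, dist_eq_norm]
    have : y - z.1 = s.1 := by rw [hy]; abel
    rw [this]; linarith
  have hmemyv : y + v.1 ∈ Metric.closedBall z.1 (δ * r) := by
    rw [Metric.mem_closedBall, dist_eq_norm]
    have : y + v.1 - z.1 = s.1 + v.1 := by rw [hy]; abel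
    rw [this]
    refine (norm_add_le _ _).trans ?_
    linarith
  have hRn : ‖R‖ ≤ τ / r * N1 ^ 2 := by
    have := (h0 y hmemy).2 (y + v.1) hmemyv
    have e : y + v.1 - y = v.1 := by abel
    rw [e] at this
    exact this
  have hwn : ‖w‖ ≤ N2 + 2 * τ * N1 := by
    have hlip := near_lip a0 D0 z.1 (δ * r) τ (τ / r) (by positivity) h0 y (y + v.1) hmemy hmemyv
    have e : y + v.1 - y = v.1 := by abel
    rw [e] at hlip
    have e2 : τ + 2 * (δ * r) * (τ / r) = τ * (1 + 2 * δ) := by field_simp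
    rw [e2] at hlip
    have h4 : τ * (1 + 2 * δ) ≤ 2 * τ := by
      have := mul_le_mul_of_nonneg_left (by linarith : 1 + 2 * δ ≤ 2) hτ
      linarith
    have h5 : ‖a0 (y + v.1) - a0 y‖ ≤ 2 * τ * N1 :=
      hlip.trans (mul_le_mul_of_nonneg_right h4 hN1p)
    refine (norm_sub_le _ _).trans ?_
    linarith
  have hx' : z.2 + (s + v).2 - a0 (z.1 + (s + v).1) = x + w := by
    have e1 : z.1 + (s + v).1 = y + v.1 := by rw [hy, Prod.fst_add]; abel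
    rw [e1, hx, hw, Prod.snd_add]; abel
  have hH := H_upper A hA X ‖x + w‖ (L2 / (1 + 4 * ε)) hXp (norm_nonneg _)
    (by rw [div_mul_eq_mul_div, hL2]; field_simp)
    (by
      intro h
      have hx0 : x = 0 := norm_eq_zero.mp (by rw [← hX]; exact h)
      rw [hL2' hx0]; exact div_self (by positivity))
  have hH2 : (1 + 4 * ε) * Hf A ‖x + w‖ ≤ (1 + 4 * ε) * Hf A X + L2 / 2 * (‖x + w‖ ^ 2 - X ^ 2) := by
    have h3 := mul_le_mul_of_nonneg_left hH (by positivity : (0:ℝ) ≤ 1 + 4 * ε)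
    refine h3.trans (le_of_eq ?_)
    field_simp
  have hsq : ‖x + w‖ ^ 2 - X ^ 2 = 2 * inner ℝ x w + ‖w‖ ^ 2 := by
    rw [norm_add_sq_real, hX]; ring
  have hin : L2 * inner ℝ x w = inner ℝ v.2 (L2 • x) - inner ℝ v.1 ζ - inner ℝ (L2 • x) R := by
    have h3 : w = v.2 - D0 y v.1 - R := by rw [hw, hR]; abel
    rw [h3, hζ v.1, inner_sub_right, inner_sub_right, real_inner_smul_right, real_inner_smul_left,
      real_inner_smul_right, real_inner_comm x v.2, real_inner_comm x (D0 y v.1)]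
    ring
  have hRin : -(inner ℝ (L2 • x) R) ≤ L2 * (δ * τ) * N1 ^ 2 := by
    have h3 : -(inner ℝ (L2 • x) R) ≤ ‖L2 • x‖ * ‖R‖ := by
      have := abs_real_inner_le_norm (L2 • x) R
      have h4 := neg_abs_le (inner ℝ (L2 • x) R : ℝ)
      linarith
    refine h3.trans ?_
    rw [norm_smul, Real.norm_of_nonneg hL2pos.le]
    have h4 : L2 * ‖x‖ ≤ L2 * (δ * r) := mul_le_mul_of_nonneg_left hXs hL2pos.le
    have h5 : L2 * ‖x‖ * ‖R‖ ≤ L2 * (δ * r) * (τ / r * N1 ^ 2) :=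
      mul_le_mul h4 hRn (norm_nonneg _) (by positivity)
    refine h5.trans (le_of_eq ?_)
    field_simp
  -- (d) sum
  have hfin : (1 + 3 / 2 * ε) * L2 / 2 * (N1 + 2 * τ * N2) ^ 2 + L2 / 2 * ‖w‖ ^ 2
      + L2 * (δ * τ) * N1 ^ 2 ≤ (1 + 2 * ε) / 2 * L2 * (N1 ^ 2 + N2 ^ 2) := by
    have hw2 : ‖w‖ ^ 2 ≤ (N2 + 2 * τ * N1) ^ 2 := pow_le_pow_left₀ (norm_nonneg _) hwn 2
    have h3 : L2 / 2 * ‖w‖ ^ 2 ≤ (1 + 3 / 2 * ε) * L2 / 2 * (N2 + 2 * τ * N1) ^ 2 := by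
      have h4 : L2 / 2 * ‖w‖ ^ 2 ≤ L2 / 2 * (N2 + 2 * τ * N1) ^ 2 :=
        mul_le_mul_of_nonneg_left hw2 (by positivity)
      refine h4.trans ?_
      apply mul_le_mul_of_nonneg_right _ (by positivity)
      have h41 : 0 ≤ ε * L2 := by positivity
      linarith
    have h5 := cup_num2 N1 N2 τ hτ hτ2
    have h6 : (1 + 3 / 2 * ε) * L2 / 2 * ((N1 + 2 * τ * N2) ^ 2 + (N2 + 2 * τ * N1) ^ 2) ≤
        (1 + 3 / 2 * ε) * L2 / 2 * ((1 + 5 * τ) * (N1 ^ 2 + N2 ^ 2)) :=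
      mul_le_mul_of_nonneg_left h5 (by positivity)
    have h7 := cup_num3 ε δ τ hε hε1 hτ hτ1 hδτ
    have h8 : L2 / 2 * (N1 ^ 2 + N2 ^ 2) * ((1 + 3 / 2 * ε) * (1 + 5 * τ) + 2 * (δ * τ)) ≤
        L2 / 2 * (N1 ^ 2 + N2 ^ 2) * (1 + 2 * ε) := mul_le_mul_of_nonneg_left h7 (by positivity)
    have h9 : L2 * (δ * τ) * N1 ^ 2 ≤ L2 * (δ * τ) * (N1 ^ 2 + N2 ^ 2) :=
      mul_le_mul_of_nonneg_left (by linarith [sq_nonneg N2]) (by positivity)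
    linarith
  have hPs : Psi ε A a0 a1 z κ (4 * δ * r') L1 s = Bf a1 κ.1 L1 s θ + (1 + 4 * ε) * Hf A X := by
    unfold Psi
    rw [hSs, ← hy, ← hx]
  have hPsv : Psi ε A a0 a1 z κ (4 * δ * r') L1 (s + v) =
      Sf a1 κ.1 (4 * δ * r') L1 (s + v) + (1 + 4 * ε) * Hf A ‖x + w‖ := by
    unfold Psi
    rw [hx']
  have hipr : ipr v (θ - ζ, a1 θ + L2 • x) = inner ℝ v.1 θ - inner ℝ v.1 ζ + inner ℝ v.2 (a1 θ)
      + inner ℝ v.2 (L2 • x) := by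
    unfold ipr
    simp only [inner_sub_right, inner_add_right]
    ring
  have hnsq : nsq v = N1 ^ 2 + N2 ^ 2 := rfl
  rw [hPs, hPsv, hipr, hnsq]
  have hH3 : L2 / 2 * (‖x + w‖ ^ 2 - X ^ 2) = inner ℝ v.2 (L2 • x) - inner ℝ v.1 ζ
      - inner ℝ (L2 • x) R + L2 / 2 * ‖w‖ ^ 2 := by
    rw [hsq, ← hin]; ring
  linarith

end Pool.Agent.H57.BJ
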