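import Pool.Agent.H57.BJ.CINT
import Pool.Agent.H57.BJ.CUP

/-! # [BJ-COT] the contact point (R4)

Target [C-ON] (helper57, R4 of proofs 313): the contact point. Take `s0` from `contact_max`, `θ` from `Sf_max` at `s0`,
`x = z.2 + s0.2 - a0 (z.1 + s0.1)`, `L2 = (1+4ε) A ‖x‖ / ‖x‖` or `1+4ε`, `ζ = (D0 (z.1+s0.1))†(L2 • x)`
(`ContinuousLinearMap.adjoint`), `‖ζ‖ ≤ τ ‖L2 • x‖`. `x_small` gives `‖x‖ ≤ δ r`. For `nsq v ≤ (δ r/2)²`: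
`nsq (s0 + v) ≤ (δ r)²`, so maximality gives `Φ (z + s0 + v) ≤ Φ (z + s0) exp (Psi (s0+v) - Psi s0)` and `Psi_growth`
bounds the exponent. Maximality against `s = 0` with `Psi_zero`, `Psi_lin`:
`Φ z ≤ Φ (z+s0) exp (Psi 0 - Psi s0) ≤ Φ (z+s0) exp (δ r (‖κ.1‖+‖κ.2‖) + 3 η r r')`. -/

set_option autoImplicit false

noncomputable section

namespace Pool.Agent.H57.BJ

variable {E G : Type*} [NormedAddCommGroup E] [InnerProductSpace ℝ E] [FiniteDimensional ℝ E]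
  [NormedAddCommGroup G] [InnerProductSpace ℝ G] [FiniteDimensional ℝ G]

theorem contact_pt
    (r r' ε δ τ η : ℝ) (hr : 0 < r) (hr' : 0 < r') (hε : 0 < ε) (hε1 : ε ≤ 1 / 100) (hδ : 0 < δ)
    (hδ1 : δ ≤ 1 / 20) (hτ : 0 ≤ τ) (hτ1 : τ ≤ ε / 100) (hη : 0 ≤ η) (hη1 : η ≤ ε * δ ^ 2 / 20)
    (A : ℝ → ℝ) (hA : Prof1 A) (hA1 : (1 - ε) * r' ≤ A r) (hA2 : A r ≤ 2 * r')
    (a0 a1 : E → G) (D0 D1 : E → E →L[ℝ] G) (z κ : E × G)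
    (h0 : NearAffine a0 D0 z.1 (δ * r) τ (τ / r))
    (h1 : NearAffine a1 D1 κ.1 (4 * δ * r') τ (τ / r'))
    (hz0 : ‖z.2 - a0 z.1‖ ≤ η * r) (hk1 : ‖κ.2 - a1 κ.1‖ ≤ η * r')
    (hbig : 10 ≤ ε * δ ^ 2 * r * r')
    (Φ : E × G → ℝ) (hΦ : Continuous Φ) (hΦ0 : ∀ y, 0 ≤ Φ y) (hΦz : 0 < Φ z)
    (hC2 : ∀ s : E × G, nsq s ≤ (r / 10) ^ 2 →
      Φ (z + s) ≤ 2 * Φ z * Real.exp (ipr s κ + (1 + ε) / 2 * (r' / r) * nsq s)) :
    ∃ (s0 : E × G) (θ ζ : E) (x : G) (L2 : ℝ), nsq s0 ≤ (δ * r / 2) ^ 2 ∧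
      ‖θ - κ.1‖ ≤ 4 * δ * r' ∧ x = z.2 + s0.2 - a0 (z.1 + s0.1) ∧ ‖x‖ ≤ δ * r ∧
      L2 * ‖x‖ = (1 + 4 * ε) * A ‖x‖ ∧ (x = 0 → L2 = 1 + 4 * ε) ∧ ‖ζ‖ ≤ τ * ‖L2 • x‖ ∧
      (∀ v : E × G, nsq v ≤ (δ * r / 2) ^ 2 → Φ (z + s0 + v) ≤
        Φ (z + s0) * Real.exp (ipr v (θ - ζ, a1 θ + L2 • x) + (1 + 2 * ε) / 2 * L2 * nsq v)) ∧
      Φ z ≤ Φ (z + s0) * Real.exp (δ * r * (‖κ.1‖ + ‖κ.2‖) + 3 * η * r * r') := by
  have hδr : 0 < δ * r := by positivity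
  obtain ⟨s0, hs0, hmax⟩ := contact_max r r' ε δ τ η hr hr' hε hε1 hδ hδ1 hτ hτ1 hη hη1 A hA hA1 hA2
    a0 a1 D0 D1 z κ h0 h1 hz0 hk1 hbig Φ hΦ hΦ0 hΦz hC2
  have hρ : 0 ≤ 4 * δ * r' := by positivity
  have hcont1 : ContinuousOn a1 (Metric.closedBall κ.1 (4 * δ * r')) :=
    near_cont a1 D1 κ.1 (4 * δ * r') τ (τ / r') (by positivity) h1
  obtain ⟨θ, hθ, -, hθmax⟩ := Sf_max a1 κ.1 (4 * δ * r') ((1 + 3 * ε) * (r' / r)) hρ hcont1 s0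
  set x : G := z.2 + s0.2 - a0 (z.1 + s0.1) with hx
  have hxn : ‖x‖ ≤ δ * r := x_small r r' ε δ τ η hr hr' hε hε1 hδ hδ1 hτ hτ1 hη hη1 A hA hA1 hA2
    a0 a1 D0 D1 z κ h0 h1 hz0 hk1 s0 hs0
  classical
  obtain ⟨L2, hL2, hL2'⟩ : ∃ L2 : ℝ, L2 * ‖x‖ = (1 + 4 * ε) * A ‖x‖ ∧ (x = 0 → L2 = 1 + 4 * ε) := by
    by_cases hx0 : x = 0
    · refine ⟨1 + 4 * ε, ?_, fun _ => rfl⟩
      rw [hx0, norm_zero, hA.one 0 le_rfl zero_le_one]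
    · refine ⟨(1 + 4 * ε) * A ‖x‖ / ‖x‖, ?_, fun h => absurd h hx0⟩
      have : ‖x‖ ≠ 0 := norm_ne_zero_iff.mpr hx0
      field_simp
  set ζ : E := ContinuousLinearMap.adjoint (D0 (z.1 + s0.1)) (L2 • x) with hζ
  have hζin : ∀ u : E, inner ℝ u ζ = (inner ℝ (D0 (z.1 + s0.1) u) (L2 • x) : ℝ) := fun u =>
    ContinuousLinearMap.adjoint_inner_right _ _ _
  have hs1 : ‖s0.1‖ ≤ δ * r / 2 := by
    have : ‖s0.1‖ ^ 2 ≤ (δ * r / 2) ^ 2 := by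
      have h2 : 0 ≤ ‖s0.2‖ ^ 2 := by positivity
      unfold nsq at hs0; linarith
    exact le_of_sq_le_sq this (by positivity)
  have hmem : z.1 + s0.1 ∈ Metric.closedBall z.1 (δ * r) := by
    rw [Metric.mem_closedBall, dist_eq_norm]
    have : z.1 + s0.1 - z.1 = s0.1 := by abel
    rw [this]; linarith
  refine ⟨s0, θ, ζ, x, L2, hs0, ?_, rfl, hxn, hL2, hL2', ?_, ?_, ?_⟩
  · rw [← dist_eq_norm]; exact hθ
  · rw [hζ]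
    refine (ContinuousLinearMap.le_opNorm _ _).trans ?_
    apply mul_le_mul_of_nonneg_right _ (norm_nonneg _)
    rw [LinearIsometryEquiv.norm_map]
    exact (h0 _ hmem).1
  · intro v hv
    have hsv : nsq (s0 + v) ≤ (δ * r) ^ 2 := by
      have h2 : nsq (s0 + v) ≤ 2 * nsq s0 + 2 * nsq v := by
        unfold nsq
        have a1' := norm_add_le s0.1 v.1
        have a2' := norm_add_le s0.2 v.2
        have b1 : ‖(s0 + v).1‖ ^ 2 ≤ (‖s0.1‖ + ‖v.1‖) ^ 2 := pow_le_pow_left₀ (norm_nonneg _) a1' 2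
        have b2 : ‖(s0 + v).2‖ ^ 2 ≤ (‖s0.2‖ + ‖v.2‖) ^ 2 := pow_le_pow_left₀ (norm_nonneg _) a2' 2
        nlinarith [sq_nonneg (‖s0.1‖ - ‖v.1‖), sq_nonneg (‖s0.2‖ - ‖v.2‖)]
      have h3 : (δ * r / 2) ^ 2 = (δ * r) ^ 2 / 4 := by ring
      rw [h3] at hs0 hv
      linarith
    have hM := hmax (s0 + v) hsv
    have hG := Psi_growth r r' ε δ τ η hr hr' hε hε1 hδ hδ1 hτ hτ1 hη hη1 A hA hA1 hA2 a0 a1 D0 D1 z κ
      h0 h1 hz0 hk1 s0 v hs0 hv θ ζ x L2 hθ hθmax hx hL2 hL2' hζin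
    set P : E × G → ℝ := Psi ε A a0 a1 z κ (4 * δ * r') ((1 + 3 * ε) * (r' / r)) with hP
    have e1 : z + s0 + v = z + (s0 + v) := by abel
    rw [e1]
    have h4 : Φ (z + (s0 + v)) = Φ (z + (s0 + v)) * Real.exp (-P (s0 + v)) * Real.exp (P (s0 + v)) := by
      rw [mul_assoc, ← Real.exp_add, neg_add_cancel, Real.exp_zero, mul_one]
    rw [h4]
    have h5 : Φ (z + (s0 + v)) * Real.exp (-P (s0 + v)) * Real.exp (P (s0 + v)) ≤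
        Φ (z + s0) * Real.exp (-P s0) * Real.exp (P (s0 + v)) :=
      mul_le_mul_of_nonneg_right hM (Real.exp_pos _).le
    refine h5.trans ?_
    rw [mul_assoc, ← Real.exp_add]
    apply mul_le_mul_of_nonneg_left _ (hΦ0 _)
    apply Real.exp_le_exp.mpr
    linarith
  · have h0K : nsq (0 : E × G) ≤ (δ * r) ^ 2 := by unfold nsq; simp; positivity
    have hM := hmax 0 h0K
    have hzero := Psi_zero r r' ε δ τ η hr hr' hε hε1 hδ hδ1 hτ hτ1 hη hη1 A hA hA1 hA2 a0 a1 D0 D1 z κ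
      h0 h1 hz0 hk1
    have hlin := Psi_lin r r' ε δ τ η hr hr' hε hε1 hδ hδ1 hτ hτ1 hη hη1 A hA hA1 hA2 a0 a1 D0 D1 z κ
      h0 h1 hz0 hk1 s0 (hs0.trans (by
        apply pow_le_pow_left₀ (by positivity); linarith))
    set P : E × G → ℝ := Psi ε A a0 a1 z κ (4 * δ * r') ((1 + 3 * ε) * (r' / r)) with hP
    rw [add_zero] at hM
    have h4 : Φ z = Φ z * Real.exp (-P 0) * Real.exp (P 0) := by
      rw [mul_assoc, ← Real.exp_add, neg_add_cancel, Real.exp_zero, mul_one]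
    rw [h4]
    have h5 : Φ z * Real.exp (-P 0) * Real.exp (P 0) ≤
        Φ (z + s0) * Real.exp (-P s0) * Real.exp (P 0) :=
      mul_le_mul_of_nonneg_right hM (Real.exp_pos _).le
    refine h5.trans ?_
    rw [mul_assoc, ← Real.exp_add]
    apply mul_le_mul_of_nonneg_left _ (hΦ0 _)
    apply Real.exp_le_exp.mpr
    have hp : 0 ≤ η * r * r' := by positivity
    have h6 : δ * η * r * r' ≤ 1 / 20 * (η * r * r') := by
      have h7 := mul_le_mul_of_nonneg_right hδ1 hp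
      have h8 : δ * η * r * r' = δ * (η * r * r') := by ring
      rw [h8]; exact h7
    linarith

end Pool.Agent.H57.BJ
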