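import Pool.Agent.H57.BJ.CLIP

/-! # [BJ-CSC] strong concavity of the bracket

Target [C-SC] (helper57, R4 of proofs 313). Let `θ2` maximise `Bf a k L1 s` on the closed ball of radius `ρ` about `k`
and `c = 1/(2 L1) - ‖s.2‖ K`. Then `Bf θ ≤ Bf θ2 - c ‖θ - θ2‖²` on the ball. Proof: for `0 < t ≤ 1` put
`θt = (1-t) θ2 + t θ`. By `near_chord` and the identity
`‖θt - k‖² = (1-t) ‖θ2 - k‖² + t ‖θ - k‖² - t (1-t) ‖θ - θ2‖²`,
`Bf θt ≥ (1-t) Bf θ2 + t Bf θ + t (1-t) c ‖θ - θ2‖²`. As `Bf θt ≤ Bf θ2`, dividing by `t`: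
`Bf θ ≤ Bf θ2 - (1-t) c ‖θ-θ2‖²`; let `t → 0`. -/

set_option autoImplicit false

noncomputable section

namespace Pool.Agent.H57.BJ

variable {E G : Type*} [NormedAddCommGroup E] [InnerProductSpace ℝ E]
  [NormedAddCommGroup G] [InnerProductSpace ℝ G]

theorem bracket_concave (a : E → G) (D : E → E →L[ℝ] G) (k : E) (ρ τ K L1 : ℝ) (hK : 0 ≤ K)
    (hL : 0 < L1) (h : NearAffine a D k ρ τ K) (s : E × G) (θ2 : E)
    (h2 : θ2 ∈ Metric.closedBall k ρ)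
    (hmax : ∀ θ ∈ Metric.closedBall k ρ, Bf a k L1 s θ ≤ Bf a k L1 s θ2)
    (θ : E) (hθ : θ ∈ Metric.closedBall k ρ) :
    Bf a k L1 s θ ≤ Bf a k L1 s θ2 - (1 / (2 * L1) - ‖s.2‖ * K) * ‖θ - θ2‖ ^ 2 := by
  have key : ∀ t : ℝ, 0 < t → t ≤ 1 →
      Bf a k L1 s θ ≤ Bf a k L1 s θ2 - (1 - t) * ((1 / (2 * L1) - ‖s.2‖ * K) * ‖θ - θ2‖ ^ 2) := by
    intro t ht0 ht1
    have hch := near_chord a D k ρ τ K hK h θ2 θ h2 hθ t ht0.le ht1
    set y : E := (1 - t) • θ2 + t • θ with hy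
    have hymem : y ∈ Metric.closedBall k ρ := by
      refine (convex_closedBall k ρ) h2 hθ (by linarith) ht0.le (by ring)
    have hm := hmax y hymem
    have e1 : (inner ℝ s.1 y : ℝ) = (1 - t) * inner ℝ s.1 θ2 + t * inner ℝ s.1 θ := by
      rw [hy, inner_add_right, inner_smul_right, inner_smul_right]
    have e2 : (1 - t) * (inner ℝ s.2 (a θ2) : ℝ) + t * inner ℝ s.2 (a θ) -
        ‖s.2‖ * (t * (1 - t) * K * ‖θ - θ2‖ ^ 2) ≤ inner ℝ s.2 (a y) := by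
      have e3 : (1 - t) * (inner ℝ s.2 (a θ2) : ℝ) + t * inner ℝ s.2 (a θ) - inner ℝ s.2 (a y) =
          inner ℝ s.2 ((1 - t) • a θ2 + t • a θ - a y) := by
        rw [inner_sub_right, inner_add_right, inner_smul_right, inner_smul_right]
      have e4 := real_inner_le_norm s.2 ((1 - t) • a θ2 + t • a θ - a y)
      have e5 := mul_le_mul_of_nonneg_left hch (norm_nonneg s.2)
      linarith
    have e6 : ‖y - k‖ ^ 2 = (1 - t) * ‖θ2 - k‖ ^ 2 + t * ‖θ - k‖ ^ 2 -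
        t * (1 - t) * ‖θ - θ2‖ ^ 2 := by
      have e7 : y - k = (1 - t) • (θ2 - k) + t • (θ - k) := by
        rw [hy]
        module
      have e8 : θ - θ2 = (θ - k) - (θ2 - k) := by abel
      rw [e7, e8]
      have n1 := norm_add_sq_real ((1 - t) • (θ2 - k)) (t • (θ - k))
      have n2 := norm_sub_sq_real (θ - k) (θ2 - k)
      rw [norm_smul, norm_smul, real_inner_smul_left, real_inner_smul_right,
        real_inner_comm (θ - k) (θ2 - k), mul_pow, mul_pow, Real.norm_eq_abs, Real.norm_eq_abs,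
        sq_abs, sq_abs] at n1
      rw [n1, n2]
      ring
    have hL2 : 0 < 1 / (2 * L1) := by positivity
    unfold Bf at hm ⊢
    rw [e1, e6] at hm
    have e9 : t * (inner ℝ s.1 θ + inner ℝ s.2 (a θ) - ‖θ - k‖ ^ 2 / (2 * L1)) ≤
        t * ((inner ℝ s.1 θ2 + inner ℝ s.2 (a θ2) - ‖θ2 - k‖ ^ 2 / (2 * L1)) -
          (1 - t) * ((1 / (2 * L1) - ‖s.2‖ * K) * ‖θ - θ2‖ ^ 2)) := by
      have e10 : ((1 - t) * ‖θ2 - k‖ ^ 2 + t * ‖θ - k‖ ^ 2 - t * (1 - t) * ‖θ - θ2‖ ^ 2) /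
          (2 * L1) = (1 - t) * (‖θ2 - k‖ ^ 2 / (2 * L1)) + t * (‖θ - k‖ ^ 2 / (2 * L1)) -
            t * (1 - t) * (1 / (2 * L1)) * ‖θ - θ2‖ ^ 2 := by ring
      rw [e10] at hm
      nlinarith
    exact le_of_mul_le_mul_left e9 ht0
  set N : ℝ := (1 / (2 * L1) - ‖s.2‖ * K) * ‖θ - θ2‖ ^ 2 with hN
  refine le_of_forall_pos_le_add fun ε hε => ?_
  have ht : 0 < min 1 (ε / (|N| + 1)) := lt_min one_pos (by positivity)
  have h1 := key (min 1 (ε / (|N| + 1))) ht (min_le_left _ _)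
  have h3 : min 1 (ε / (|N| + 1)) * N ≤ ε := by
    calc min 1 (ε / (|N| + 1)) * N ≤ min 1 (ε / (|N| + 1)) * (|N| + 1) :=
          mul_le_mul_of_nonneg_left (by linarith [le_abs_self N]) ht.le
      _ ≤ ε / (|N| + 1) * (|N| + 1) := mul_le_mul_of_nonneg_right (min_le_right _ _) (by positivity)
      _ = ε := by
          field_simp
  linarith

end Pool.Agent.H57.BJ
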