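import Pool.Agent.H60.GMain

/-! # [H57 BJ] Bijectivity of `f ↦ P*(D)(P f)`: the basic definitions

`Ps P` is `P*`, `shift z P` is the polynomial `s ↦ P (z + s)`, `dop Q f = Q(D) f`,
`pair ω s = ∑ ω_j s_j`. The operator of the problem is `Tf P` of `H60` (`Tf P f = P*(D) (P f)`),
and `GoodEst P` is the local a priori estimate which implies bijectivity (`bij_of_goodEst`). -/

set_option autoImplicit false

open MvPolynomial Pool.Agent.H60
open scoped Topology

noncomputable section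

namespace Pool.Agent.H57.BJ

variable {n : ℕ}

/-- the polynomial with conjugate coefficients -/
def Ps (P : MvPolynomial (Fin n) ℂ) : MvPolynomial (Fin n) ℂ := MvPolynomial.map (starRingEnd ℂ) P

/-- the translated polynomial `s ↦ P (z + s)` -/
def shift (z : V n) (P : MvPolynomial (Fin n) ℂ) : MvPolynomial (Fin n) ℂ :=
  MvPolynomial.bind₁ (fun j => X j + C (z j)) P

/-- the operator `Q(D)` -/
def dop (Q : MvPolynomial (Fin n) ℂ) (f : V n → ℂ) (z : V n) : ℂ :=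
  ∑ m ∈ Q.support, Q.coeff m * pdL (Lst m) f z

/-- the bilinear pairing -/
def pair (ω s : V n) : ℂ := ∑ j, ω j * s j

/-- injectivity of `h ↦ B'(D) (B h)` on entire functions -/
def Inj (B B' : MvPolynomial (Fin n) ℂ) : Prop :=
  ∀ h : V n → ℂ, Differentiable ℂ h → (∀ z, dop B' (fun w => ev B w * h w) z = 0) →
    ∀ z, ev B z * h z = 0

/-- coefficientwise convergence along the hyperfilter on `ℕ` -/
def CoefTendsto (Q : ℕ → MvPolynomial (Fin n) ℂ) (B : MvPolynomial (Fin n) ℂ) : Prop :=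
  ∀ m, Filter.Tendsto (fun k => (Q k).coeff m) (Filter.hyperfilter ℕ : Filter ℕ) (𝓝 (B.coeff m))

/-- The pair of sequences `z`, `ω` is good for `P`: along the hyperfilter the normalised
translates of `P` at `z k` and of `P*` at `ω k` converge to `B ≠ 0` and `B'` with
`h ↦ B'(D) (B h)` injective. -/
def GoodU (P : MvPolynomial (Fin n) ℂ) (z ω : ℕ → V n) : Prop :=
  ∃ (N N' : ℕ → ℂ) (B B' : MvPolynomial (Fin n) ℂ) (c : ℝ), 0 < c ∧
    (∀ᶠ k in (Filter.hyperfilter ℕ : Filter ℕ), N k ≠ 0) ∧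
    (∀ᶠ k in (Filter.hyperfilter ℕ : Filter ℕ), c ≤ ‖N' k‖) ∧
    CoefTendsto (fun k => C (N k)⁻¹ * shift (z k) P) B ∧
    CoefTendsto (fun k => C (N' k)⁻¹ * shift (ω k) (Ps P)) B' ∧ B ≠ 0 ∧ Inj B B'

/-- `P` has matched weights: for every function `om` tending to infinity there is a sequence of
weights `φ T` with slopes `ω T`, above the Gaussian weight at infinity (W1), asymptotically below
`C0 |z| om(C0 |z|)` (W2), uniformly superlinear (W3), locally almost affine from above (W4), whose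
slopes are good along every sequence `z k → ∞` (W5). -/
def MatchedWeights (P : MvPolynomial (Fin n) ℂ) : Prop :=
  ∃ C0 : ℝ, 0 < C0 ∧ ∀ om : ℝ → ℝ, Monotone om → Filter.Tendsto om Filter.atTop Filter.atTop →
    (∀ r, 1 ≤ om r) → ∃ (φ : ℕ → V n → ℝ) (ω : ℕ → V n → V n),
      (∀ T, ∃ C1 : ℝ, ∀ z, Nn z / 2 - C1 ≤ φ T z) ∧
      (∃ C1 : ℝ, ∀ z, ∀ᶠ T in Filter.atTop, φ T z ≤ C1 + C0 * ‖z‖ * om (C0 * ‖z‖)) ∧
      (∀ ρ : ℝ, ∃ C1 : ℝ, ∀ T z, ρ * ‖z‖ - C1 ≤ φ T z) ∧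
      (∃ G : ℝ → ℝ, ∀ k : ℝ, ∃ R : ℝ, ∀ T z s, R ≤ ‖z‖ → ‖s‖ ≤ k →
        φ T (z + s) ≤ φ T z + (pair (ω T z) s).re + G k) ∧
      (∀ (T : ℕ → ℕ) (z : ℕ → V n), Filter.Tendsto (fun k => ‖z k‖) Filter.atTop Filter.atTop →
        GoodU P z (fun k => ω (T k) (z k)))

end Pool.Agent.H57.BJ
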