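import Mathlib

/-! # [H57 BJ] Definitions for the weights in two variables

`t` is a logarithm of `x`: `x = exp t`. A branch is the exponential sum
`Yf θ a k t = ∑_{l < k} a_l exp (θ_l t)`; `Yd` is its derivative in `t`. A profile `M` describes the
radial map `X ↦ X' = exp (M (log X))`; `tp M t = M (Re t) - i Im t` is the conjugate of the
logarithm of `x'`. A level `(Φ, τ)` is a function `Φ` of class `C^{1,1}` on the branch together with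
its slopes: `exp (τ t)` in the `x` direction and `Yf θ (cc a) k (τ t)` in the `y` direction. -/

set_option autoImplicit false

noncomputable section

namespace Pool.Agent.H57.BJ

/-- exponential sums: `Yf θ a k t = ∑_{l < k} a_l exp (θ_l t)` -/
def Yf (θ : ℕ → ℝ) (a : ℕ → ℂ) (k : ℕ) (t : ℂ) : ℂ :=
  ∑ l ∈ Finset.range k, a l * Complex.exp (θ l * t)

/-- the derivative of `Yf θ a k` -/
def Yd (θ : ℕ → ℝ) (a : ℕ → ℂ) (k : ℕ) (t : ℂ) : ℂ :=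
  ∑ l ∈ Finset.range k, (θ l : ℂ) * a l * Complex.exp (θ l * t)

/-- conjugate coefficients -/
def cc (a : ℕ → ℂ) : ℕ → ℂ := fun l => (starRingEnd ℂ) (a l)

/-- the data of the branches near a direction: `N` branches `Y_c(t) + β_c + o(1)`, `x = exp t`,
`Y_c(t) = ∑_{l < Lv} a_{c,l} exp (θ_l t)` -/
structure Dir where
  N : ℕ
  Lv : ℕ
  θ : ℕ → ℝ
  a : Fin N → ℕ → ℂ
  β : Fin N → ℂ

/-- the exponents are `Θ = θ_0 > θ_1 > ... > θ_{Lv - 1} > 0` -/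
structure Dir.Ok (D : Dir) (Θ : ℝ) : Prop where
  pos : 1 ≤ D.Lv
  zero : D.θ 0 = Θ
  anti : ∀ k l, k < l → l < D.Lv → D.θ l < D.θ k
  thpos : ∀ l, l < D.Lv → 0 < D.θ l

/-- profiles -/
structure Prof (K : ℝ) (M : ℝ → ℝ) : Prop where
  diff : Differentiable ℝ M
  nonneg : ∀ r, 0 ≤ deriv M r
  le : ∀ r, deriv M r ≤ K
  lip : ∀ r s, |deriv M r - deriv M s| ≤ K * |r - s|
  top : ∀ r, M r ≤ r + 1 / 1000

/-- the radial potential `∫ X' dX` in the variable `log X` -/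
def AA (M : ℝ → ℝ) (ρ : ℝ) : ℝ := ∫ s in (0 : ℝ)..ρ, Real.exp (s + M s)

/-- the conjugate of `log x'` -/
def tp (M : ℝ → ℝ) (t : ℂ) : ℂ := (M t.re : ℂ) - t.im * Complex.I

/-- The exponents of one direction: `k < Lv` numbers in `(0, Θ]`, `3/4 ≤ Θ < 1`. -/
structure Expo (Θ : ℝ) (θ : ℕ → ℝ) (Lv : ℕ) : Prop where
  h1 : 3 / 4 ≤ Θ
  h2 : Θ < 1
  pos : ∀ l, l < Lv → 0 < θ l
  le : ∀ l, l < Lv → θ l ≤ Θ

/-- `(Φ, τ)` is an exact pair of class `C^{1,1}` on the branch `Yf θ a k`, with constant `C`, in the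
region `C ≤ M (Re t)`; increments of length at most `ρ`. -/
structure Lev (Θ : ℝ) (θ : ℕ → ℝ) (a : ℕ → ℂ) (k : ℕ) (C ρ : ℝ) (M : ℝ → ℝ) (Φ : ℂ → ℝ)
    (τ : ℂ → ℂ) : Prop where
  near : ∀ t, C ≤ M t.re →
    ‖τ t - tp M t‖ ≤ C * Real.exp ((Θ - 1) * M t.re + (Θ - 1) * t.re)
  lip : ∀ t1 t2, C ≤ M t1.re → C ≤ M t2.re → ‖t2 - t1‖ ≤ ρ → ‖τ t2 - τ t1‖ ≤ C * ‖t2 - t1‖
  tay : ∀ t1 t2, C ≤ M t1.re → C ≤ M t2.re → ‖t2 - t1‖ ≤ ρ →
    |Φ t2 - Φ t1 - (Complex.exp (τ t1) * (Complex.exp t2 - Complex.exp t1)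
      + Yf θ (cc a) k (τ t1) * (Yf θ a k t2 - Yf θ a k t1)).re|
      ≤ C * Real.exp (t1.re + M t1.re) * ‖t2 - t1‖ ^ 2
  size : ∀ t, C ≤ M t.re → |Φ t - AA M t.re| ≤ C * Real.exp (Θ * (t.re + M t.re))

/-- the relation between two consecutive levels -/
def Rel (Θ : ℝ) (θ : ℕ → ℝ) (a : ℕ → ℂ) (k : ℕ) (C : ℝ) (M : ℝ → ℝ) (Φ : ℂ → ℝ) (τ : ℂ → ℂ)
    (Φ' : ℂ → ℝ) (τ' : ℂ → ℂ) : Prop :=
  ∀ t, C ≤ M t.re →
    |Φ' t - Φ t - (Yf θ (cc a) k (τ t) * (a k * Complex.exp (θ k * t))).re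
        - ‖a k‖ ^ 2 / 2 * Real.exp (θ k * (t.re + M t.re))|
      ≤ C * Real.exp (θ k * (t.re + M t.re) - 2 * (1 - Θ) * M t.re) ∧
    ‖τ' t - τ t‖ ≤ C * Real.exp ((θ k - 1) * M t.re + (Θ - 1) * t.re)

/-- The equation of the projection `u` of the point `(exp t, Yf θ a (k+1) t)` to the branch
`Yf θ a k` along the normal of the dual branch at the matched point. -/
def PrEq (θ : ℕ → ℝ) (a : ℕ → ℂ) (k : ℕ) (τ : ℂ → ℂ) (t u : ℂ) : Prop :=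
  Complex.exp u = Complex.exp t + Yd θ (cc a) k (τ u) * Complex.exp (-τ u)
    * (Yf θ a (k + 1) t - Yf θ a k u)

/-- The value at `(exp t, Yf θ a (k+1) t)` of the extension of `Φ`, in terms of the projection. -/
def FF (θ : ℕ → ℝ) (a : ℕ → ℂ) (k : ℕ) (Φ : ℂ → ℝ) (τ : ℂ → ℂ) (t u : ℂ) : ℝ :=
  Φ u + (Complex.exp (τ u) * (Complex.exp t - Complex.exp u)
    + Yf θ (cc a) k (τ u) * (Yf θ a (k + 1) t - Yf θ a k u)).re

/-- the derivative (in `Re t`) of `‖a k‖^2 / 2 * exp (θ_k (Re t + M (Re t)))` -/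
def gam (θ : ℕ → ℝ) (a : ℕ → ℂ) (k : ℕ) (M : ℝ → ℝ) (t : ℂ) : ℝ :=
  ‖a k‖ ^ 2 / 2 * (θ k * (1 + deriv M t.re)) * Real.exp (θ k * (t.re + M t.re))

/-- The equation of the new slope `v` at `t`, where `u` is the projection. -/
def SlEq (θ : ℕ → ℝ) (a : ℕ → ℂ) (k : ℕ) (M : ℝ → ℝ) (τ : ℂ → ℂ) (t u v : ℂ) : Prop :=
  Complex.exp v * Complex.exp t + Yf θ (cc a) (k + 1) v * Yd θ a (k + 1) t
    = Complex.exp (τ u) * Complex.exp t + Yf θ (cc a) k (τ u) * Yd θ a (k + 1) t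
      + (gam θ a k M t : ℂ)

end Pool.Agent.H57.BJ
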