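import Pool.Agent.H57.BJ.Defs
import Pool.Agent.H57.BJ.LDefs
import Pool.Agent.H87.SA2.NPC

/-! # [BJ-PUI] The Puiseux factorisation of a polynomial in two variables in a sector at infinity -/

set_option autoImplicit false

open MvPolynomial Pool.Agent.H60
open scoped Topology

noncomputable section

namespace Pool.Agent.H57.BJ

/-- the approximate factorisation of `p` in the sector `|y| ≤ η |x|` -/
def AF (p : MvPolynomial (Fin 2) ℂ) (D : Dir) (η : ℝ) : Prop :=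
  ∃ G : ℂ → ℂ → ℂ, ∃ c : ℝ, 0 < c ∧ ∀ ε S : ℝ, 0 < ε → ∃ R : ℝ, ∀ t y s1 s2 : ℂ, R ≤ t.re →
    ‖y‖ ≤ η * Real.exp t.re → ‖s1‖ ≤ S → ‖s2‖ ≤ S →
    c ≤ ‖G t y‖ ∧
    ‖ev p ![Complex.exp t + s1, y + s2]
        - G t y * ∏ c, (y + s2 - Yf D.θ (D.a c) D.Lv t - D.β c)‖
      ≤ ε * ‖G t y‖ * ∏ c, (1 + ‖y - Yf D.θ (D.a c) D.Lv t‖)

theorem puiseux_AF {p : MvPolynomial (Fin 2) ℂ} (hp : p ≠ 0) :
    ∃ Θ0 : ℝ, Θ0 < 1 ∧ ∀ Θ : ℝ, Θ0 ≤ Θ → Θ < 1 → ∃ (D : Dir) (η : ℝ), 0 < η ∧ D.Ok Θ ∧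
      AF p D η := by
  sorry

end Pool.Agent.H57.BJ
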